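import Pool.Agent.Work.MP_dd5692_pr.InterfaceA

/-! MP_dd5692_pr part (A), block A1: long vacant crossings -/

set_option autoImplicit false

open MeasureTheory MPdd5692

namespace Pool.Det5

theorem A1_f_nonneg (S : Shape) (q : unitInterval) (d w : ℤ) : 0 ≤ f S q d w :=
  measureReal_nonneg

theorem A1_f_le_one (S : Shape) (q : unitInterval) (d w : ℤ) : f S q d w ≤ 1 :=
  measureReal_le_one

theorem stmt_A1 (hRSWL : Stmt_RSWL) (hGLUE : Stmt_GLUE) (hFMONO : Stmt_FMONO) : Stmt_A1 := by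
  intro c1 cb hc1 hcb
  set c2 : ℝ := (cb * c1 ^ 2 / (4 * 122 * 230)) ^ 2 / 2 with hc2
  have hc2pos : 0 < c2 := by positivity
  refine ⟨fun L => c2 ^ (46 * (L + 1)), fun L => pow_pos hc2pos _, ?_⟩
  intro S q cr g n1 N hG L n hn hN
  have hg1 := hG.gpos
  have hg2 := hG.hg
  have hn1 := hG.hn1
  have hρ : (0 : ℤ) ≤ (S.ρ : ℤ) := Int.natCast_nonneg _
  have hgp : (0 : ℤ) < 41 * g := by omega
  obtain ⟨s, hs⟩ : ∃ s : ℤ, s = g * (n / (41 * g)) := ⟨_, rfl⟩
  have h1 : 41 * s ≤ n := by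
    have := Int.mul_ediv_self_le (x := n) (k := 41 * g) (by omega)
    calc 41 * s = 41 * g * (n / (41 * g)) := by rw [hs]; ring
      _ ≤ n := this
  have h2 : n < 41 * s + 41 * g := by
    have := Int.lt_mul_ediv_self_add (x := n) (k := 41 * g) hgp
    calc n < 41 * g * (n / (41 * g)) + 41 * g := this
      _ = 41 * s + 41 * g := by rw [hs]; ring
  have hs0 : 0 < s := by omega
  have h46 : n ≤ 46 * s := by omega
  have key := hRSWL S q c1 cb cr g n1 N (n / (41 * g)) hG (by rw [← hs]; omega)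
    (by rw [← hs]; omega) (by rw [← hs]; omega)
  rw [← hs, ← hc2] at key
  have hc2le : c2 ≤ 1 := by
    refine key.trans (max_le (A1_f_le_one _ _ _ _) (A1_f_le_one _ _ _ _))
  have hLn : ((L : ℤ) + 1) * n ≤ 46 * (((L : ℤ) + 1) * s) := by nlinarith
  have hLs : s ≤ ((L : ℤ) + 1) * s := by nlinarith
  have hL0 : (0 : ℤ) ≤ (L : ℤ) * n := by
    have : (0 : ℤ) ≤ n := by omega
    positivity
  have hLn' : (L : ℤ) * n ≤ ((L : ℤ) + 1) * n := by nlinarith
  show c2 ^ (46 * (L + 1)) ≤ f S q (L * n) n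
  rcases le_max_iff.1 key with h | h
  · have hgl := hGLUE S q (18 * s) (2 * s) (by omega) (by omega) (23 * (L + 1)) (by omega)
    have e1 : 18 * s + 2 * s = 20 * s := by ring
    rw [e1] at hgl
    have h3 : f S q (18 * s + ((23 * (L + 1) : ℕ) : ℤ) * (2 * s)) (18 * s) ≤ f S q (L * n) n := by
      apply hFMONO S q _ _ _ _ hL0 _ (by omega)
      push_cast
      nlinarith
    calc c2 ^ (46 * (L + 1)) ≤ c2 ^ (2 * (23 * (L + 1)) - 1) :=
          pow_le_pow_of_le_one hc2pos.le hc2le (by omega)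
      _ ≤ f S q (20 * s) (18 * s) ^ (2 * (23 * (L + 1)) - 1) := pow_le_pow_left₀ hc2pos.le h _
      _ ≤ _ := hgl
      _ ≤ _ := h3
  · have hgl := hGLUE S q (41 * s) (9 * s) (by omega) (by omega) (6 * (L + 1)) (by omega)
    have e1 : 41 * s + 9 * s = 50 * s := by ring
    rw [e1] at hgl
    have h3 : f S q (41 * s + ((6 * (L + 1) : ℕ) : ℤ) * (9 * s)) (41 * s) ≤ f S q (L * n) n := by
      apply hFMONO S q _ _ _ _ hL0 _ (by omega)
      push_cast
      nlinarith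
    calc c2 ^ (46 * (L + 1)) ≤ c2 ^ (2 * (6 * (L + 1)) - 1) :=
          pow_le_pow_of_le_one hc2pos.le hc2le (by omega)
      _ ≤ f S q (50 * s) (41 * s) ^ (2 * (6 * (L + 1)) - 1) := pow_le_pow_left₀ hc2pos.le h _
      _ ≤ _ := hgl
      _ ≤ _ := h3

end Pool.Det5
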