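import Pool.Agent.Work.MP_dd5692_pr.InterfaceA

/-! MP_dd5692_pr part (A), block A1C: circuits from long crossings -/

set_option autoImplicit false

open MeasureTheory MPdd5692

namespace Pool.Det5

theorem A1C_locF_of_loc {B : Set Site} {P : Set Site → Prop} (hB : B.Finite) (h : Loc B P) :
    LocF P := ⟨B, hB, h⟩

theorem A1C_loc_mono {B B' : Set Site} {P : Set Site → Prop} (hBB : B ⊆ B') (h : Loc B P) :
    Loc B' P := by
  intro W W' hW
  apply h
  ext z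
  constructor
  · rintro ⟨h1, h2⟩
    have : z ∈ W' ∩ B' := hW ▸ ⟨h1, hBB h2⟩
    exact ⟨this.1, h2⟩
  · rintro ⟨h1, h2⟩
    have : z ∈ W ∩ B' := hW ▸ ⟨h1, hBB h2⟩
    exact ⟨this.1, h2⟩

theorem A1C_locF_and {P Q : Set Site → Prop} (hP : LocF P) (hQ : LocF Q) :
    LocF (fun W => P W ∧ Q W) := by
  obtain ⟨B, hB, h⟩ := hP
  obtain ⟨B', hB', h'⟩ := hQ
  refine ⟨B ∪ B', hB.union hB', fun W W' hW => ?_⟩
  have h1 := A1C_loc_mono Set.subset_union_left h W W' hW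
  have h2 := A1C_loc_mono Set.subset_union_right h' W W' hW
  exact and_congr h1 h2

theorem A1C_mono_and {P Q : Set Site → Prop} (hP : Mono P) (hQ : Mono Q) :
    Mono (fun W => P W ∧ Q W) := fun W W' hW h => ⟨hP W W' hW h.1, hQ W W' hW h.2⟩

theorem stmt_A1C (hA1 : Stmt_A1) (hVHAR : Stmt_VHAR) (hPHC : Stmt_PHC) (hFMONO : Stmt_FMONO)
    (hLOCS : Stmt_LOCS) : Stmt_A1C := by
  intro c1 cb hc1 hcb
  obtain ⟨c, hc, hA⟩ := hA1 c1 cb hc1 hcb
  refine ⟨fun L => c (L + 2) * (c (L + 2) * (c (L + 2) * c (L + 2))),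
    fun L => by have := hc (L + 2); positivity, ?_⟩
  intro S q cr g n1 N hG L a b e d t hab hed hb hd ht hN
  have hg1 := hG.gpos
  have hg2 := hG.hg
  have ht0 : 0 ≤ t := by omega
  have hbase : ∀ x : ℤ, 0 ≤ x → x ≤ L * t → c (L + 2) ≤ f S q (x + 2 * t) t := by
    intro x hx hx'
    refine (hA S q cr g n1 N hG (L + 2) t ht hN).trans ?_
    apply hFMONO S q _ _ _ _ (by omega) _ le_rfl
    push_cast
    linarith
  have hHC : ∀ y : ℤ, LocF (fun W => HC Adj4 W (a - t) (b + t) y (y + t)) ∧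
      Mono (fun W => HC Adj4 W (a - t) (b + t) y (y + t)) ∧
      c (L + 2) ≤ pr S q (fun W => HC Adj4 W (a - t) (b + t) y (y + t)) := by
    intro y
    obtain ⟨h1, h2, -, -, -, -, -, -, -, -, -, -, -, h3, -⟩ :=
      hLOCS Adj4 (a - t) (b + t) y (y + t) 0 0 0 0 0 0
    refine ⟨⟨_, h3, h2⟩, h1, ?_⟩
    rw [(hPHC S q _ _ _ _).1]
    have := hbase (b - a) (by omega) hb
    have e1 : b + t - (a - t) = b - a + 2 * t := by ring
    have e2 : y + t - y = t := by ring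
    rw [e1, e2]
    exact this
  have hVC : ∀ x : ℤ, LocF (fun W => VC Adj4 W x (x + t) (e - t) (d + t)) ∧
      Mono (fun W => VC Adj4 W x (x + t) (e - t) (d + t)) ∧
      c (L + 2) ≤ pr S q (fun W => VC Adj4 W x (x + t) (e - t) (d + t)) := by
    intro x
    obtain ⟨-, -, h1, h2, -, -, -, -, -, -, -, -, -, h3, -⟩ :=
      hLOCS Adj4 x (x + t) (e - t) (d + t) 0 0 0 0 0 0
    refine ⟨⟨_, h3, h2⟩, h1, ?_⟩
    rw [(hPHC S q _ _ _ _).2]
    have := hbase (d - e) (by omega) hd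
    have e1 : d + t - (e - t) = d - e + 2 * t := by ring
    have e2 : x + t - x = t := by ring
    rw [e1, e2]
    exact this
  obtain ⟨l1, m1, p1⟩ := hHC (e - t)
  obtain ⟨l2, m2, p2⟩ := hHC d
  obtain ⟨l3, m3, p3⟩ := hVC (a - t)
  obtain ⟨l4, m4, p4⟩ := hVC b
  rw [sub_add_cancel] at l1 m1 p1 l3 m3 p3
  have hcp := hc (L + 2)
  have q34 := ((hVHAR S q _ _ l3 l4).1 m3 m4)
  have l34 := A1C_locF_and l3 l4
  have m34 := A1C_mono_and m3 m4
  have q234 := ((hVHAR S q _ _ l2 l34).1 m2 m34)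
  have l234 := A1C_locF_and l2 l34
  have m234 := A1C_mono_and m2 m34
  have q1234 := ((hVHAR S q _ _ l1 l234).1 m1 m234)
  have r34 := (mul_le_mul p3 p4 hcp.le (hcp.le.trans p3)).trans q34
  have r234 := (mul_le_mul p2 r34 (by positivity) (hcp.le.trans p2)).trans q234
  have r1234 := (mul_le_mul p1 r234 (by positivity) (hcp.le.trans p1)).trans q1234
  exact r1234

end Pool.Det5
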