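import Pool.Agent.Work.MP_dd5692_pr.InterfaceA

/-! block A2 (helper44): easy vacant crossings are not certain -/

set_option autoImplicit false

open MeasureTheory MPdd5692

namespace Pool.Det5

namespace A2_

lemma f_le_one (S : Shape) (q : unitInterval) (d w : ℤ) : f S q d w ≤ 1 := by
  unfold f pr; exact measureReal_le_one

lemma f_nonneg (S : Shape) (q : unitInterval) (d w : ℤ) : 0 ≤ f S q d w := by
  unfold f pr; exact measureReal_nonneg

/-- Bernoulli -/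
lemma bern_lt {x c1 : ℝ} (hc : 0 < c1) (hc1 : c1 ≤ 1) {j : ℕ} (hj : j < 40)
    (hx : 1 - x ≤ c1 / 40) : 1 - c1 < x ^ j := by
  have h0 : 0 ≤ 1 - c1 / 40 := by linarith
  have h1 : 1 + (j : ℝ) * (-(c1 / 40)) ≤ (1 + -(c1 / 40)) ^ j :=
    one_add_mul_le_pow (by linarith) j
  have h2 : (1 + -(c1 / 40)) ^ j ≤ x ^ j := pow_le_pow_left₀ (by linarith) (by linarith) j
  have h3 : (j : ℝ) ≤ 39 := by exact_mod_cast (by omega : j ≤ 39)
  have h4 : (j : ℝ) * (c1 / 40) ≤ 39 * (c1 / 40) := mul_le_mul_of_nonneg_right h3 (by linarith)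
  linarith

lemma root {x y z δ : ℝ} (hδ : 0 ≤ δ) (h : (1 - x) ^ 252 ≤ 1 - y) (hz : z ≤ y)
    (hc : 1 - δ ^ 252 < z) : 1 - δ ≤ x := by
  by_contra hcon
  push Not at hcon
  have h1 : δ ^ 252 ≤ (1 - x) ^ 252 := pow_le_pow_left₀ hδ (by clear h hc; linarith) 252
  have h2 := h1.trans h
  clear h1 h
  generalize δ ^ 252 = D at *
  linarith

lemma base (hRSWH : Stmt_RSWH) (hGLUE : Stmt_GLUE) (hEXT : Stmt_EXT) (hFMONO : Stmt_FMONO)
    {c1 cr : ℝ} (hcr : 0 < cr) (S : Shape) (q : unitInterval) (cb : ℝ) (g n1 N : ℤ)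
    (hG : Good S q c1 cb cr g n1 N) (n : ℤ) (hn : 4 * n1 ≤ n) (hN : 2 * n ≤ N) :
    f S q n (3 * n) ≤ 1 - (cr * (c1 / 80) ^ 4) ^ 252 := by
  by_contra hcon
  push Not at hcon
  have hc1 := hG.c1pos
  have hc1' := hG.c1le
  have hg := hG.gpos
  have hg1 := hG.hg
  have hn1 := hG.hn1
  have hρ : (0 : ℤ) ≤ (S.ρ : ℤ) := Int.natCast_nonneg _
  set δ : ℝ := cr * (c1 / 80) ^ 4 with hδ
  have hδ0 : 0 < δ := by rw [hδ]; positivity
  -- the scale
  set k : ℤ := n / (38 * g) with hk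
  have hdm := Int.mul_ediv_add_emod n (38 * g)
  have hmod0 := Int.emod_nonneg n (by omega : (38 * g) ≠ 0)
  have hmod1 := Int.emod_lt_of_pos n (by omega : (0 : ℤ) < 38 * g)
  set s : ℤ := g * k with hs
  have hs1 : 38 * s ≤ n := by
    have : 38 * s = 38 * g * (n / (38 * g)) := by rw [hs, hk]; ring
    omega
  have hs2 : n < 38 * s + 38 * g := by
    have : 38 * s = 38 * g * (n / (38 * g)) := by rw [hs, hk]; ring
    omega
  have hs42 : n < 42 * s := by omega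
  have hsρ : 2 * (S.ρ : ℤ) + 1 ≤ s := by omega
  have hspos : 1 ≤ s := by omega
  -- EXT
  have hm1 : f S q n (3 * n) ≤ f S q (38 * s) (3 * n) :=
    hFMONO S q n (3 * n) (38 * s) (3 * n) (by omega) hs1 le_rfl
  have hm2 : f S q n (3 * n) ≤ f S q (20 * s) (3 * n) :=
    hFMONO S q n (3 * n) (20 * s) (3 * n) (by omega) (by omega) le_rfl
  have d1 : 1 - δ ≤ f S q (38 * s) (40 * s) :=
    root hδ0.le (hEXT S q s (38 * s) (40 * s) (3 * n) 125 hspos (by omega) (by omega)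
      (by push_cast; omega)).2 hm1 hcon
  have d2 : 1 - δ ≤ f S q (20 * s) (22 * s) :=
    root hδ0.le (hEXT S q s (20 * s) (22 * s) (3 * n) 125 hspos (by omega) (by omega)
      (by push_cast; omega)).2 hm2 hcon
  clear hcon
  -- RSWH
  have hR := hRSWH S q cr δ s hcr hG.hcr hδ0.le hsρ d2 d1
  have hcr1 : cr ≤ 1 := by
    refine hG.hcr.trans ?_
    have q0 : 0 ≤ (1 - (q : ℝ)) := by linarith [q.2.2]
    have q1 : (1 - (q : ℝ)) ≤ 1 := by linarith [q.2.1]
    have p0 : 0 ≤ (1 - (q : ℝ)) ^ ((S.ρ0 + 1) ^ 2) := pow_nonneg q0 _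
    have p1 : (1 - (q : ℝ)) ^ ((S.ρ0 + 1) ^ 2) ≤ 1 := pow_le_one₀ q0 q1
    exact pow_le_one₀ (by linarith) (by linarith)
  have hsqrt : Real.sqrt (δ / cr) = (c1 / 80) ^ 2 := by
    have : δ / cr = ((c1 / 80) ^ 2) ^ 2 := by rw [hδ]; field_simp
    rw [this, Real.sqrt_sq (by positivity)]
  have hδle : δ ≤ (c1 / 80) ^ 2 := by
    rw [hδ]
    have h1 : (c1 / 80) ^ 2 ≤ 1 := pow_le_one₀ (by positivity) (by linarith)
    have h2 : (c1 / 80) ^ 4 = (c1 / 80) ^ 2 * (c1 / 80) ^ 2 := by ring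
    have h3 : (c1 / 80) ^ 4 ≤ (c1 / 80) ^ 2 := by
      rw [h2]; exact mul_le_of_le_one_right (by positivity) h1
    have h4 : cr * (c1 / 80) ^ 4 ≤ 1 * (c1 / 80) ^ 4 :=
      mul_le_mul_of_nonneg_right hcr1 (by positivity)
    linarith
  have hprod : (1 - f S q (50 * s) (41 * s)) * (1 - f S q (20 * s) (18 * s)) ≤ (c1 / 40) ^ 2 := by
    refine hR.trans ?_
    rw [hsqrt]
    have : (c1 / 40) ^ 2 = 4 * (c1 / 80) ^ 2 := by ring
    linarith
  have hcase : 1 - f S q (50 * s) (41 * s) ≤ c1 / 40 ∨ 1 - f S q (20 * s) (18 * s) ≤ c1 / 40 := by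
    by_contra hh
    push Not at hh
    obtain ⟨h1, h2⟩ := hh
    have : (c1 / 40) * (c1 / 40) <
        (1 - f S q (50 * s) (41 * s)) * (1 - f S q (20 * s) (18 * s)) :=
      mul_lt_mul'' h1 h2 (by positivity) (by positivity)
    nlinarith
  rcases hcase with h | h
  · have hgl := hGLUE S q (41 * s) (9 * s) (by omega) (by omega) 10 (by norm_num)
    have e3 : 41 * s + 9 * s = 50 * s := by ring
    have e4 : 41 * s + ((10 : ℕ) : ℤ) * (9 * s) = 131 * s := by push_cast; ring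
    rw [e3, e4] at hgl
    have h19 : 1 - c1 < f S q (50 * s) (41 * s) ^ 19 := bern_lt hc1 hc1' (by norm_num) h
    have hm3 : f S q (131 * s) (41 * s) ≤ f S q (3 * (41 * s)) (41 * s) :=
      hFMONO S q (131 * s) (41 * s) (3 * (41 * s)) (41 * s) (by omega) (by omega) le_rfl
    have hE := hG.Eo (41 * k)
      (by have : g * (41 * k) = 41 * s := by rw [hs]; ring
          omega)
      (by have : g * (41 * k) = 41 * s := by rw [hs]; ring
          omega)
    have e5 : g * (41 * k) = 41 * s := by rw [hs]; ring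
    rw [e5] at hE
    have hgl' : f S q (50 * s) (41 * s) ^ 19 ≤ f S q (131 * s) (41 * s) := hgl
    linarith
  · have hgl := hGLUE S q (18 * s) (2 * s) (by omega) (by omega) 18 (by norm_num)
    have e3 : 18 * s + 2 * s = 20 * s := by ring
    have e4 : 18 * s + ((18 : ℕ) : ℤ) * (2 * s) = 3 * (18 * s) := by push_cast; ring
    rw [e3, e4] at hgl
    have h35 : 1 - c1 < f S q (20 * s) (18 * s) ^ 35 := bern_lt hc1 hc1' (by norm_num) h
    have hE := hG.Eo (18 * k)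
      (by have : g * (18 * k) = 18 * s := by rw [hs]; ring
          omega)
      (by have : g * (18 * k) = 18 * s := by rw [hs]; ring
          omega)
    have e5 : g * (18 * k) = 18 * s := by rw [hs]; ring
    rw [e5] at hE
    have hgl' : f S q (20 * s) (18 * s) ^ 35 ≤ f S q (3 * (18 * s)) (18 * s) := hgl
    linarith

end A2_

theorem stmt_A2 (hRSWH : Stmt_RSWH) (hGLUE : Stmt_GLUE) (hEXT : Stmt_EXT)
    (hFMONO : Stmt_FMONO) : Stmt_A2 := by
  intro c1 cr hc1 hcr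
  refine ⟨fun L => ((cr * (c1 / 80) ^ 4) ^ 252) ^ (2 * (L + 1)), fun L => by positivity, ?_⟩
  intro S q cb g n1 N hG L n hn hN
  have hb := A2_.base hRSWH hGLUE hEXT hFMONO hcr S q cb g n1 N hG n hn hN
  have hg := hG.gpos
  have hg1 := hG.hg
  have hn0 : 1 ≤ n := by omega
  have e := (hEXT S q n n (3 * n) (L * n) L hn0 (by omega) (by omega)
    (by nlinarith)).2
  have hD0 : 0 ≤ (cr * (c1 / 80) ^ 4) ^ 252 := by positivity
  show f S q n (L * n) ≤ 1 - ((cr * (c1 / 80) ^ 4) ^ 252) ^ (2 * (L + 1))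
  generalize (cr * (c1 / 80) ^ 4) ^ 252 = D at *
  have h1 : D ^ (2 * (L + 1)) ≤ (1 - f S q n (3 * n)) ^ (2 * (L + 1)) :=
    pow_le_pow_left₀ hD0 (by linarith) _
  linarith

end Pool.Det5
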