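import Pool.Agent.Work.MP_dd5692_pr.InterfaceA

/-!
# MP_dd5692_pr, d = 2, part (A), block A2N (helper12)
Rings without short vacant crossings.
-/

set_option autoImplicit false

namespace Pool.Det5

open MeasureTheory MPdd5692

namespace A2N_

theorem anti_not {P : Set Site → Prop} (h : Mono P) : Anti (fun W => ¬ P W) :=
  fun W W' hW hP' hP => hP' (h W W' hW hP)

theorem locF_not {P : Set Site → Prop} (h : LocF P) : LocF (fun W => ¬ P W) := by
  obtain ⟨B, hB, hl⟩ := h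
  exact ⟨B, hB, fun W W' hW => not_congr (hl W W' hW)⟩

theorem locF_and {P Q : Set Site → Prop} (h : LocF P) (h' : LocF Q) :
    LocF (fun W => P W ∧ Q W) := by
  obtain ⟨B, hB, hl⟩ := h
  obtain ⟨B', hB', hl'⟩ := h'
  refine ⟨B ∪ B', hB.union hB', fun W W' hW => and_congr (hl W W' ?_) (hl' W W' ?_)⟩
  · ext z
    have := Set.ext_iff.1 hW z
    simp only [Set.mem_inter_iff, Set.mem_union] at this ⊢
    tauto
  · ext z
    have := Set.ext_iff.1 hW z
    simp only [Set.mem_inter_iff, Set.mem_union] at this ⊢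
    tauto

theorem anti_and {P Q : Set Site → Prop} (h : Anti P) (h' : Anti Q) :
    Anti (fun W => P W ∧ Q W) :=
  fun W W' hW hP => ⟨h W W' hW hP.1, h' W W' hW hP.2⟩

theorem pr_not (hVLOC : Stmt_VLOC) (S : Shape) (q : unitInterval) {P : Set Site → Prop}
    (h : LocF P) : pr S q (fun W => ¬ P W) = 1 - pr S q P := by
  have hm : MeasurableSet {ω | P (vac S ω)} := (hVLOC S P).2.2.2 h
  have := probReal_compl_eq_one_sub (μ := mu q) hm
  unfold pr
  rw [← this]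
  rfl

end A2N_

open A2N_ in
theorem stmt_A2N (hA2 : Stmt_A2) (hVHAR : Stmt_VHAR) (hPHC : Stmt_PHC) (hFMONO : Stmt_FMONO)
    (hLOCS : Stmt_LOCS) (hVLOC : Stmt_VLOC) : Stmt_A2N := by
  intro c1 cr hc1 hcr
  obtain ⟨δ, hδ, hA⟩ := hA2 c1 cr hc1 hcr
  refine ⟨fun L => δ (L + 2) ^ 4, fun L => pow_pos (hδ _) 4, ?_⟩
  intro S q cb g n1 N hG L a b e d t hab hed hL1 hL2 ht hN
  have ht0 : 0 ≤ t := by
    have h1 := hG.gpos
    have h2 := hG.hg
    omega
  -- a rectangle of short side `t` and long side at most `(L+2) t`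
  have hlen : ∀ w : ℤ, w ≤ (L + 2) * t → f S q t w ≤ 1 - δ (L + 2) := by
    intro w hw
    have h1 := hA S q cb g n1 N hG (L + 2) t ht hN
    refine (hFMONO S q t w t _ ht0 le_rfl ?_).trans h1
    push_cast
    exact hw
  have hw1 : b + t - (a - t) ≤ (L + 2) * t := by linarith
  have hw2 : d + t - (e - t) ≤ (L + 2) * t := by linarith
  -- the four events
  have hV : ∀ x y c' d' : ℤ, d' - c' = t → y - x ≤ (L + 2) * t →
      δ (L + 2) ≤ pr S q (fun W => ¬ VC Adj4 W x y c' d') ∧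
      Anti (fun W => ¬ VC Adj4 W x y c' d') ∧ LocF (fun W => ¬ VC Adj4 W x y c' d') := by
    intro x y c' d' h1 h2
    obtain ⟨-, -, hm, hl, -, -, -, -, -, -, -, -, -, hfin, -⟩ :=
      hLOCS Adj4 x y c' d' 0 0 0 0 0 0
    have hlf : LocF (fun W => VC Adj4 W x y c' d') := ⟨_, hfin, hl⟩
    refine ⟨?_, anti_not hm, locF_not hlf⟩
    rw [pr_not hVLOC S q hlf, (hPHC S q x y c' d').2, h1]
    have := hlen _ h2
    linarith
  have hH : ∀ x y c' d' : ℤ, y - x = t → d' - c' ≤ (L + 2) * t →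
      δ (L + 2) ≤ pr S q (fun W => ¬ HC Adj4 W x y c' d') ∧
      Anti (fun W => ¬ HC Adj4 W x y c' d') ∧ LocF (fun W => ¬ HC Adj4 W x y c' d') := by
    intro x y c' d' h1 h2
    obtain ⟨hm, hl, -, -, -, -, -, -, -, -, -, -, -, hfin, -⟩ :=
      hLOCS Adj4 x y c' d' 0 0 0 0 0 0
    have hlf : LocF (fun W => HC Adj4 W x y c' d') := ⟨_, hfin, hl⟩
    refine ⟨?_, anti_not hm, locF_not hlf⟩
    rw [pr_not hVLOC S q hlf, (hPHC S q x y c' d').1, h1]
    have := hlen _ h2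
    linarith
  obtain ⟨p1, a1, l1⟩ := hV (a - t) (b + t) (e - t) e (by ring) hw1
  obtain ⟨p2, a2, l2⟩ := hV (a - t) (b + t) d (d + t) (by ring) hw1
  obtain ⟨p3, a3, l3⟩ := hH (a - t) a (e - t) (d + t) (by ring) hw2
  obtain ⟨p4, a4, l4⟩ := hH b (b + t) (e - t) (d + t) (by ring) hw2
  have hδ' := hδ (L + 2)
  have a34 := anti_and a3 a4
  have l34 := locF_and l3 l4
  have a234 := anti_and a2 a34
  have l234 := locF_and l2 l34
  have h34 := (hVHAR S q _ _ l3 l4).2.1 a3 a4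
  have h234 := (hVHAR S q _ _ l2 l34).2.1 a2 a34
  have h1234 := (hVHAR S q _ _ l1 l234).2.1 a1 a234
  have e34 : δ (L + 2) * δ (L + 2) ≤ _ := (mul_le_mul p3 p4 hδ'.le (hδ'.le.trans p3)).trans h34
  have e234 : δ (L + 2) * (δ (L + 2) * δ (L + 2)) ≤ _ :=
    (mul_le_mul p2 e34 (by positivity) (hδ'.le.trans p2)).trans h234
  have e1234 : δ (L + 2) * (δ (L + 2) * (δ (L + 2) * δ (L + 2))) ≤ _ :=
    (mul_le_mul p1 e234 (by positivity) (hδ'.le.trans p1)).trans h1234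
  calc δ (L + 2) ^ 4 = δ (L + 2) * (δ (L + 2) * (δ (L + 2) * δ (L + 2))) := by ring
    _ ≤ _ := e1234
    _ = pr S q (NoX a b e d t) := rfl

end Pool.Det5
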