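import Pool.Agent.Work.MP_dd5692_pr.InterfaceA2

/-!
# MP_dd5692_pr, part (A), block ALLOW: lower bound for the one-arm probability (helper41)
-/

set_option autoImplicit false

namespace Pool.Det5

open MeasureTheory MPdd5692

namespace ALLOW_

/-! ### elementary facts -/

theorem pr_mono (S : Shape) (q : unitInterval) {P Q : Set Site → Prop} (h : ∀ W, P W → Q W) :
    pr S q P ≤ pr S q Q :=
  measureReal_mono (fun _ hω => h _ hω) (measure_ne_top _ _)

theorem pr_nonneg (S : Shape) (q : unitInterval) (P : Set Site → Prop) : 0 ≤ pr S q P :=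
  measureReal_nonneg

theorem pr_union (S : Shape) (q : unitInterval) (s : Finset ℕ) (P : Set Site → Prop)
    (Q : ℕ → Set Site → Prop) (h : ∀ W, P W → ∃ i ∈ s, Q i W) :
    pr S q P ≤ ∑ i ∈ s, pr S q (Q i) := by
  have h1 : {ω | P (vac S ω)} ⊆ ⋃ i ∈ s, {ω | Q i (vac S ω)} := by
    intro ω hω
    obtain ⟨i, hi, hq⟩ := h _ hω
    simp only [Set.mem_iUnion]
    exact ⟨i, hi, hq⟩
  calc pr S q P ≤ (mu q).real (⋃ i ∈ s, {ω | Q i (vac S ω)}) :=
        measureReal_mono h1 (measure_ne_top _ _)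
    _ ≤ ∑ i ∈ s, pr S q (Q i) := measureReal_biUnion_finset_le _ _

theorem pr_not (S : Shape) (q : unitInterval) (P : Set Site → Prop)
    (hm : MeasurableSet {ω | P (vac S ω)}) : pr S q (fun W => ¬ P W) = 1 - pr S q P := by
  have := probReal_compl_eq_one_sub (μ := mu q) hm
  exact this

theorem box_fin (a b c d : ℤ) : (Box a b c d).Finite := by
  rw [← coe_boxF]; exact Finset.finite_toSet _

theorem loc_mono {B B' : Set Site} {P : Set Site → Prop} (h : B ⊆ B') (hP : Loc B P) :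
    Loc B' P := by
  intro W W' hW
  apply hP
  ext z
  constructor
  · rintro ⟨h1, h2⟩
    have : z ∈ W ∩ B' := ⟨h1, h h2⟩
    rw [hW] at this
    exact ⟨this.1, h2⟩
  · rintro ⟨h1, h2⟩
    have : z ∈ W' ∩ B' := ⟨h1, h h2⟩
    rw [← hW] at this
    exact ⟨this.1, h2⟩

/-! ### the events -/

/-- the interval of radius `a` around `(x,0)` is linked to row `R` -/
def Ev (a m R x : ℤ) (W : Set Site) : Prop :=
  ∃ u v : Site, x - a ≤ u.1 ∧ u.1 ≤ x + a ∧ u.2 = 0 ∧ v.2 = R ∧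
    Linked Adj4 (W ∩ Box (-m) m 0 R) u v

theorem mono_Ev (a m R x : ℤ) : Mono (Ev a m R x) := by
  rintro W W' h ⟨u, v, h1, h2, h3, h4, h5⟩
  exact ⟨u, v, h1, h2, h3, h4, h5.mono (Set.inter_subset_inter_left _ h)⟩

theorem loc_Ev (a m R x : ℤ) : Loc (Box (-m) m 0 R) (Ev a m R x) := by
  intro W W' h
  unfold Ev
  rw [h]

theorem locF_Ev (a m R x : ℤ) : LocF (Ev a m R x) := ⟨_, box_fin _ _ _ _, loc_Ev a m R x⟩

/-- region of the half circuit -/
def HB (x b : ℤ) : Set Site :=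
  (Box (x - 2 * b) (x - b) 0 (2 * b) ∪ Box (x + b) (x + 2 * b) 0 (2 * b)) ∪
    Box (x - 2 * b) (x + 2 * b) b (2 * b)

theorem HB_fin (x b : ℤ) : (HB x b).Finite :=
  ((box_fin _ _ _ _).union (box_fin _ _ _ _)).union (box_fin _ _ _ _)

theorem mem_HB {x b : ℤ} (_hb : 0 ≤ b) {z : Site} (hz : z ∈ HB x b) :
    x - 2 * b ≤ z.1 ∧ z.1 ≤ x + 2 * b ∧ 0 ≤ z.2 ∧ z.2 ≤ 2 * b ∧
    (z.1 ≤ x - b ∨ x + b ≤ z.1 ∨ b ≤ z.2) := by
  unfold HB at hz
  rcases hz with (hz | hz) | hz <;> rw [mem_Box] at hz <;> omega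

theorem mono_Half (x b : ℤ) : Mono (Half x b) := by
  rintro W W' h ⟨h1, h2, h3⟩
  exact ⟨h1.mono h, h2.mono h, h3.mono h⟩

theorem loc_Half (hLOCS : Stmt_LOCS) (x b : ℤ) : Loc (HB x b) (Half x b) := by
  intro W W' h
  have h1 := loc_mono (B' := HB x b) (by
    intro z hz; exact Or.inl (Or.inl hz))
    (hLOCS Adj4 (x - 2 * b) (x - b) 0 (2 * b) 0 0 0 0 0 0).2.2.2.1 W W' h
  have h2 := loc_mono (B' := HB x b) (by
    intro z hz; exact Or.inl (Or.inr hz))
    (hLOCS Adj4 (x + b) (x + 2 * b) 0 (2 * b) 0 0 0 0 0 0).2.2.2.1 W W' h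
  have h3 := loc_mono (B' := HB x b) (by
    intro z hz; exact Or.inr hz)
    (hLOCS Adj4 (x - 2 * b) (x + 2 * b) b (2 * b) 0 0 0 0 0 0).2.1 W W' h
  exact and_congr h1 (and_congr h2 h3)

theorem anti_not {P : Set Site → Prop} (h : Mono P) : Anti (fun W => ¬ P W) :=
  fun W W' hW hn hP => hn (h W W' hW hP)

theorem loc_not {B : Set Site} {P : Set Site → Prop} (h : Loc B P) : Loc B (fun W => ¬ P W) :=
  fun W W' hW => not_congr (h W W' hW)

/-- no half circuits up to scale `k` -/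
def NH (a x : ℤ) (K : ℕ) (W : Set Site) : Prop := ∀ k < K, ¬ Half x (4 ^ k * a) W

theorem anti_NH (a x : ℤ) (K : ℕ) : Anti (NH a x K) := by
  intro W W' hW hn k hk
  exact anti_not (mono_Half x (4 ^ k * a)) W W' hW (hn k hk)

theorem locF_NH (hLOCS : Stmt_LOCS) (a x : ℤ) (K : ℕ) : LocF (NH a x K) := by
  refine ⟨⋃ k ∈ Finset.range K, HB x (4 ^ k * a), ?_, ?_⟩
  · apply Set.Finite.biUnion (Finset.finite_toSet _)
    intro k _
    exact HB_fin _ _
  · intro W W' hW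
    have key : ∀ k < K, (Half x (4 ^ k * a) W ↔ Half x (4 ^ k * a) W') := by
      intro k hk
      refine loc_mono ?_ (loc_Half hLOCS x (4 ^ k * a)) W W' hW
      intro z hz
      simp only [Set.mem_iUnion]
      exact ⟨k, Finset.mem_range.2 hk, hz⟩
    constructor
    · intro h k hk hh
      exact h k hk ((key k hk).2 hh)
    · intro h k hk hh
      exact h k hk ((key k hk).1 hh)

/-- probability of a half circuit -/
theorem pr_Half (hVHAR : Stmt_VHAR) (hPHC : Stmt_PHC) (hLOCS : Stmt_LOCS) (S : Shape)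
    (q : unitInterval) (x b : ℤ) :
    f S q (2 * b) b * (f S q (2 * b) b * f S q (4 * b) b) ≤ pr S q (Half x b) := by
  have m1 := (hLOCS Adj4 (x - 2 * b) (x - b) 0 (2 * b) 0 0 0 0 0 0).2.2.1
  have l1 := (hLOCS Adj4 (x - 2 * b) (x - b) 0 (2 * b) 0 0 0 0 0 0).2.2.2.1
  have m2 := (hLOCS Adj4 (x + b) (x + 2 * b) 0 (2 * b) 0 0 0 0 0 0).2.2.1
  have l2 := (hLOCS Adj4 (x + b) (x + 2 * b) 0 (2 * b) 0 0 0 0 0 0).2.2.2.1
  have m3 := (hLOCS Adj4 (x - 2 * b) (x + 2 * b) b (2 * b) 0 0 0 0 0 0).1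
  have l3 := (hLOCS Adj4 (x - 2 * b) (x + 2 * b) b (2 * b) 0 0 0 0 0 0).2.1
  have p1 := (hPHC S q (x - 2 * b) (x - b) 0 (2 * b)).2
  have p2 := (hPHC S q (x + b) (x + 2 * b) 0 (2 * b)).2
  have p3 := (hPHC S q (x - 2 * b) (x + 2 * b) b (2 * b)).1
  rw [show (2 * b - 0 : ℤ) = 2 * b by ring, show (x - b - (x - 2 * b) : ℤ) = b by ring] at p1
  rw [show (2 * b - 0 : ℤ) = 2 * b by ring, show (x + 2 * b - (x + b) : ℤ) = b by ring] at p2
  rw [show (x + 2 * b - (x - 2 * b) : ℤ) = 4 * b by ring, show (2 * b - b : ℤ) = b by ring] at p3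
  have F1 : LocF (fun W => VC Adj4 W (x - 2 * b) (x - b) 0 (2 * b)) := ⟨_, box_fin _ _ _ _, l1⟩
  have F2 : LocF (fun W => VC Adj4 W (x + b) (x + 2 * b) 0 (2 * b)) := ⟨_, box_fin _ _ _ _, l2⟩
  have F3 : LocF (fun W => HC Adj4 W (x - 2 * b) (x + 2 * b) b (2 * b)) := ⟨_, box_fin _ _ _ _, l3⟩
  have h23 := (hVHAR S q _ _ F2 F3).1 m2 m3
  have m23 : Mono (fun W => VC Adj4 W (x + b) (x + 2 * b) 0 (2 * b) ∧
      HC Adj4 W (x - 2 * b) (x + 2 * b) b (2 * b)) :=
    fun W W' hW h => ⟨m2 W W' hW h.1, m3 W W' hW h.2⟩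
  have F23 : LocF (fun W => VC Adj4 W (x + b) (x + 2 * b) 0 (2 * b) ∧
      HC Adj4 W (x - 2 * b) (x + 2 * b) b (2 * b)) := by
    refine ⟨_, (box_fin (x + b) (x + 2 * b) 0 (2 * b)).union
      (box_fin (x - 2 * b) (x + 2 * b) b (2 * b)), ?_⟩
    intro W W' hW
    exact and_congr (loc_mono Set.subset_union_left l2 W W' hW)
      (loc_mono Set.subset_union_right l3 W W' hW)
  have h123 := (hVHAR S q _ _ F1 F23).1 m1 m23
  rw [p1] at h123
  rw [p2, p3] at h23
  have hf : 0 ≤ f S q (2 * b) b := measureReal_nonneg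
  calc f S q (2 * b) b * (f S q (2 * b) b * f S q (4 * b) b)
      ≤ f S q (2 * b) b * pr S q (fun W => VC Adj4 W (x + b) (x + 2 * b) 0 (2 * b) ∧
        HC Adj4 W (x - 2 * b) (x + 2 * b) b (2 * b)) := mul_le_mul_of_nonneg_left h23 hf
    _ ≤ _ := h123

/-- the event `Ev` has at most the arm probability -/
theorem pr_Ev (hVSYM : Stmt_VSYM) (hARML : Stmt_ARML) (S : Shape) (q : unitInterval)
    (a b m x : ℤ) (ha : 0 ≤ a) (hab : a ≤ b) :
    pr S q (Ev a m (b + 1) x) ≤ al S q a b := by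
  -- the translation
  let g : Site ≃ Site := Equiv.addRight ((x, 0) : Site)
  have hg : ∀ z : Site, g z = (z.1 + x, z.2) := by
    intro z
    show z + (x, 0) = _
    ext <;> simp
  have hsym : IsSym g := by
    intro z w
    left
    rw [hg, hg]
    constructor <;> simp
  have h1 := hVSYM S q g (arm a b) hsym (hARML a b |>.2.2 hab)
  unfold al
  rw [← h1]
  apply pr_mono
  rintro W ⟨u, v, h1, h2, h3, h4, h5⟩
  refine ⟨(u.1 - x, u.2), ?_, (v.1 - x, v.2), ?_, ?_⟩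
  · refine ⟨?_, ?_, ?_, ?_⟩ <;> simp only [Prod.fst_zero, Prod.snd_zero] <;> omega
  · rintro ⟨-, -, -, h⟩
    simp only [Prod.snd_zero] at h
    omega
  · refine h5.map (fun z => (z.1 - x, z.2)) ?_ ?_
    · intro z w hzw
      unfold Adj4 at *
      simp only
      rw [← hzw]
      congr 2
      ring
    · rintro z ⟨hz, -⟩
      show g _ ∈ W
      rw [hg]
      simpa using hz

/-! ### counting scales -/

/-- number of `k < n` with `2 * 4^k ≤ j` -/
def Kc : ℕ → ℕ → ℕ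
  | 0, _ => 0
  | n + 1, j => if 2 * 4 ^ n ≤ j then n + 1 else Kc n j

theorem Kc_spec (n j k : ℕ) (h : k < Kc n j) : k < n ∧ 2 * 4 ^ k ≤ j := by
  induction n with
  | zero => simp [Kc] at h
  | succ n ih =>
    unfold Kc at h
    split_ifs at h with hj
    · refine ⟨h, le_trans ?_ hj⟩
      have : 4 ^ k ≤ 4 ^ n := Nat.pow_le_pow_right (by norm_num) (by omega)
      omega
    · have := ih h
      exact ⟨by omega, this.2⟩

theorem Kc_sum (θ : ℝ) (h0 : 0 ≤ θ) (n J : ℕ) :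
    ∑ j ∈ Finset.range J, θ ^ Kc n j ≤ 2 * ∑ K ∈ Finset.range n, (4 * θ) ^ K + J * θ ^ n := by
  induction n generalizing J with
  | zero => simp [Kc]
  | succ n ih =>
    have h1 : ∑ j ∈ Finset.range J, θ ^ Kc (n + 1) j ≤
        ∑ j ∈ Finset.range J, θ ^ (n + 1) + ∑ j ∈ Finset.range (2 * 4 ^ n), θ ^ Kc n j := by
      have h2 : ∑ j ∈ Finset.range J, θ ^ Kc (n + 1) j ≤
          ∑ j ∈ Finset.range J, (θ ^ (n + 1) + if j < 2 * 4 ^ n then θ ^ Kc n j else 0) := by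
        apply Finset.sum_le_sum
        intro j _
        have hp : 0 ≤ θ ^ (n + 1) := pow_nonneg h0 _
        rw [show Kc (n + 1) j = if 2 * 4 ^ n ≤ j then n + 1 else Kc n j from rfl]
        by_cases hj : 2 * 4 ^ n ≤ j
        · rw [if_pos hj, if_neg (by omega)]
          simp
        · rw [if_neg hj, if_pos (by omega)]
          linarith
      refine h2.trans ?_
      rw [Finset.sum_add_distrib]
      have h3 : ∑ j ∈ Finset.range J, (if j < 2 * 4 ^ n then θ ^ Kc n j else 0) ≤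
          ∑ j ∈ Finset.range (2 * 4 ^ n), θ ^ Kc n j := by
        rw [← Finset.sum_filter]
        apply Finset.sum_le_sum_of_subset_of_nonneg
        · intro j hj
          rw [Finset.mem_filter] at hj
          exact Finset.mem_range.2 hj.2
        · intro j _ _
          exact pow_nonneg h0 _
      linarith
    have h4 := ih (2 * 4 ^ n)
    rw [Finset.sum_range_succ]
    rw [Finset.sum_const, Finset.card_range, nsmul_eq_mul] at h1
    push_cast at h4
    rw [mul_pow]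
    linarith

theorem geo (r : ℝ) (hr : 2 ≤ r) (n : ℕ) : ∑ K ∈ Finset.range n, r ^ K ≤ r ^ n := by
  induction n with
  | zero => simp
  | succ n ih =>
    rw [Finset.sum_range_succ, pow_succ]
    have : 0 ≤ r ^ n := by positivity
    nlinarith

/-! ### the maximal index -/

theorem exists_max {n : ℕ} (P : ℕ → Prop) (h : ∃ i ≤ n, P i) :
    ∃ i ≤ n, P i ∧ ∀ j ≤ n, i < j → ¬ P j := by
  classical
  obtain ⟨i, hi, hP⟩ := h
  refine ⟨Nat.findGreatest P n, Nat.findGreatest_le n, Nat.findGreatest_spec hi hP, ?_⟩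
  intro j hj hlt
  exact Nat.findGreatest_is_greatest hlt hj

/-- deterministic part: from the crossing of the square to the maximal index -/
theorem incl (hHALF : Stmt_HALF) (n : ℕ) (a : ℤ) (ha : 1 ≤ a) (W : Set Site)
    (h : VC Adj4 W 0 (4 ^ n * a + 1) 0 (4 ^ n * a + 1)) :
    ∃ i ∈ Finset.range (4 ^ n + 2),
      Ev a ((4 ^ n + 1) * a) (4 ^ n * a + 1) (i * a) W ∧
      NH a (i * a) (Kc n (4 ^ n + 1 - i)) W := by
  have hb : (1 : ℤ) ≤ 4 ^ n := one_le_pow₀ (by norm_num)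
  have hba : a ≤ 4 ^ n * a := by nlinarith
  have h1 : ∃ i ≤ 4 ^ n + 1, Ev a ((4 ^ n + 1) * a) (4 ^ n * a + 1) ((i : ℕ) * a) W := by
    obtain ⟨x, x', hl⟩ := h
    have hx := hl.left.2
    rw [mem_Box] at hx
    simp only at hx
    refine ⟨(x / a).toNat, ?_, (x, 0), (x', 4 ^ n * a + 1), ?_, ?_, rfl, rfl, ?_⟩
    · have h0 : 0 ≤ x / a := Int.ediv_nonneg hx.1 (by omega)
      have h2 : x / a ≤ 4 ^ n + 1 := by
        apply Int.ediv_le_of_le_mul (by omega)
        nlinarith [hx.2.1]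
      zify
      rw [Int.toNat_of_nonneg h0]
      exact h2
    · have h0 : 0 ≤ x / a := Int.ediv_nonneg hx.1 (by omega)
      rw [Int.toNat_of_nonneg h0]
      have := Int.ediv_mul_le x (b := a) (by omega)
      simp only
      omega
    · have h0 : 0 ≤ x / a := Int.ediv_nonneg hx.1 (by omega)
      rw [Int.toNat_of_nonneg h0]
      have := Int.lt_ediv_add_one_mul_self x (b := a) (by omega)
      simp only
      nlinarith
    · refine hl.mono (Set.inter_subset_inter_right _ (Box_mono ?_ ?_ le_rfl le_rfl))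
      · nlinarith
      · nlinarith
  obtain ⟨i, hi, hE, hmax⟩ := exists_max _ h1
  refine ⟨i, Finset.mem_range.2 (by omega), hE, ?_⟩
  intro k hk hHalf
  obtain ⟨hkn, hkj⟩ := Kc_spec _ _ _ hk
  obtain ⟨u, v, hu1, hu2, hu3, hv, hl⟩ := hE
  have hkZ : 2 * (4 : ℤ) ^ k + i ≤ 4 ^ n + 1 := by
    have h2 : 2 * 4 ^ k + i ≤ 4 ^ n + 1 := by omega
    exact_mod_cast h2
  have hk1 : (1 : ℤ) ≤ 4 ^ k := one_le_pow₀ (by norm_num)
  have hi0 : (0 : ℤ) ≤ i := Int.natCast_nonneg i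
  have hka : a ≤ 4 ^ k * a := by nlinarith
  have h4kn : 4 * (4 : ℤ) ^ k ≤ 4 ^ n := by
    calc 4 * (4 : ℤ) ^ k = 4 ^ (k + 1) := by ring
      _ ≤ 4 ^ n := pow_le_pow_right₀ (by norm_num) (by omega)
  obtain ⟨p, hp1, hp2, hp⟩ := hHALF (i * a) (4 ^ k * a) (4 ^ n * a + 1) (-((4 ^ n + 1) * a))
    ((4 ^ n + 1) * a) W u v (by omega) (by nlinarith) (by nlinarith) (by nlinarith) hHalf
    (by omega) (by omega) hu3 (by rw [hv]; nlinarith) hl
  -- the index of `p`
  have hpa : (i : ℤ) + 1 ≤ p / a := by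
    rw [Int.le_ediv_iff_mul_le (by omega)]
    nlinarith
  have hpM : p / a ≤ 4 ^ n + 1 := by
    apply Int.ediv_le_of_le_mul (by omega)
    nlinarith
  refine hmax (p / a).toNat ?_ ?_ ⟨(p, 0), v, ?_, ?_, rfl, hv, hp⟩
  · zify
    rw [Int.toNat_of_nonneg (by omega)]
    exact hpM
  · zify
    rw [Int.toNat_of_nonneg (by omega)]
    omega
  · rw [Int.toNat_of_nonneg (by omega)]
    have := Int.ediv_mul_le p (b := a) (by omega)
    simp only
    omega
  · rw [Int.toNat_of_nonneg (by omega)]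
    have := Int.lt_ediv_add_one_mul_self p (b := a) (by omega)
    simp only
    nlinarith

/-- probability of `NH` -/
theorem pr_NH (hVINDN : Stmt_VINDN) (hLOCS : Stmt_LOCS) (hVLOC : Stmt_VLOC) (S : Shape)
    (q : unitInterval) (a x : ℤ) (K : ℕ) (θ : ℝ) (ha : 2 * (S.ρ : ℤ) + 1 ≤ a)
    (hθ : ∀ k < K, 1 - θ ≤ pr S q (Half x (4 ^ k * a))) :
    pr S q (NH a x K) ≤ θ ^ K := by
  have hρ : (0 : ℤ) ≤ S.ρ := Int.natCast_nonneg _
  have h1 := hVINDN S q K (fun k => HB x (4 ^ k * a)) (fun k W => ¬ Half x (4 ^ k * a) W)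
    (fun k _ => HB_fin _ _) (fun k _ => loc_not (loc_Half hLOCS _ _)) ?_
  · have h2 : pr S q (NH a x K) =
        ∏ k ∈ Finset.range K, pr S q (fun W => ¬ Half x (4 ^ k * a) W) := h1
    rw [h2]
    calc ∏ k ∈ Finset.range K, pr S q (fun W => ¬ Half x (4 ^ k * a) W)
        ≤ ∏ k ∈ Finset.range K, θ := by
          apply Finset.prod_le_prod
          · intro k _
            exact pr_nonneg _ _ _
          · intro k hk
            rw [pr_not]
            · linarith [hθ k (Finset.mem_range.1 hk)]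
            · exact (hVLOC S (Half x (4 ^ k * a))).2.2.2 ⟨_, HB_fin _ _, loc_Half hLOCS _ _⟩
      _ = θ ^ K := by simp
  · intro i hi j hj z hz z' hz'
    have h4 : (4 : ℤ) ^ j * 4 ≤ 4 ^ i := by
      calc (4 : ℤ) ^ j * 4 = 4 ^ (j + 1) := by ring
        _ ≤ 4 ^ i := pow_le_pow_right₀ (by norm_num) (by omega)
    have hj1 : (1 : ℤ) ≤ 4 ^ j := one_le_pow₀ (by norm_num)
    have ha0 : 0 ≤ a := by omega
    have hz1 := mem_HB (by positivity) hz
    have hz2 := mem_HB (by positivity) hz'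
    have h5 : 4 * (4 ^ j * a) ≤ 4 ^ i * a := by nlinarith
    have h6 : a ≤ 4 ^ j * a := by nlinarith
    generalize 4 ^ j * a = b at *
    generalize 4 ^ i * a = b' at *
    obtain ⟨-, -, hz3, -, hz4⟩ := hz1
    obtain ⟨hw1, hw2, hw3, hw4, -⟩ := hz2
    rcases hz4 with hh | hh | hh
    · left
      rw [lt_abs]
      omega
    · left
      rw [lt_abs]
      omega
    · right
      rw [lt_abs]
      omega

end ALLOW_

open ALLOW_ in
theorem stmt_ALLOW (hA1 : Stmt_A1) (hHALF : Stmt_HALF) (hVINDN : Stmt_VINDN)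
    (hVHAR : Stmt_VHAR) (hVSYM : Stmt_VSYM) (hPHC : Stmt_PHC) (hFMONO : Stmt_FMONO)
    (hLOCS : Stmt_LOCS) (hARML : Stmt_ARML) (hVLOC : Stmt_VLOC) : Stmt_ALLOW := by
  intro c1 cb hc1 hcb
  obtain ⟨c, hc, hmain⟩ := hA1 c1 cb hc1 hcb
  set c0 : ℝ := c 2 * (c 2 * c 4) with hc0
  have hc0pos : 0 < c0 := by
    have := hc 2
    have := hc 4
    positivity
  set θ : ℝ := max (1 - c0) (1 / 2) with hθ
  have hθ2 : 1 / 2 ≤ θ := le_max_right _ _
  have hθ1 : θ < 1 := max_lt (by linarith) (by norm_num)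
  refine ⟨c 2 / 5, θ, by have := hc 2; positivity, by linarith, hθ1, ?_⟩
  intro S q cr g n1 N hG n a ha hN
  have hρ : (0 : ℤ) ≤ S.ρ := Int.natCast_nonneg _
  have hn1 : 100 * (2 * (S.ρ : ℤ) + 1) ≤ n1 := hG.hn1
  have ha1 : 1 ≤ a := by omega
  have hb1 : (1 : ℤ) ≤ 4 ^ n := one_le_pow₀ (by norm_num)
  have hba : a ≤ 4 ^ n * a := by nlinarith
  -- the crossing of the square
  have hsq : c 2 ≤ pr S q (fun W => VC Adj4 W 0 (4 ^ n * a + 1) 0 (4 ^ n * a + 1)) := by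
    rw [(hPHC S q 0 (4 ^ n * a + 1) 0 (4 ^ n * a + 1)).2]
    refine (hmain S q cr g n1 N hG 2 (4 ^ n * a) (by omega) hN).trans ?_
    apply hFMONO
    · omega
    · push_cast
      omega
    · omega
  -- the union bound
  have hun := pr_union S q (Finset.range (4 ^ n + 2)) _
    (fun i W => Ev a ((4 ^ n + 1) * a) (4 ^ n * a + 1) (i * a) W ∧
      NH a (i * a) (Kc n (4 ^ n + 1 - i)) W) (fun W h => incl hHALF n a ha1 W h)
  -- each term
  have hterm : ∀ i ∈ Finset.range (4 ^ n + 2),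
      pr S q (fun W => Ev a ((4 ^ n + 1) * a) (4 ^ n * a + 1) (i * a) W ∧
        NH a (i * a) (Kc n (4 ^ n + 1 - i)) W) ≤
      al S q a (4 ^ n * a) * θ ^ Kc n (4 ^ n + 1 - i) := by
    intro i _
    refine ((hVHAR S q _ _ (locF_Ev _ _ _ _) (locF_NH hLOCS _ _ _)).2.2 (mono_Ev _ _ _ _)
      (anti_NH _ _ _)).trans ?_
    apply mul_le_mul
    · exact pr_Ev hVSYM hARML S q a (4 ^ n * a) _ _ (by omega) hba
    · apply pr_NH hVINDN hLOCS hVLOC S q a _ _ θ (by omega)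
      intro k hk
      obtain ⟨hkn, -⟩ := Kc_spec _ _ _ hk
      have hk1 : (1 : ℤ) ≤ 4 ^ k := one_le_pow₀ (by norm_num)
      have hkn' : (4 : ℤ) ^ k ≤ 4 ^ n := pow_le_pow_right₀ (by norm_num) (by omega)
      have hka : a ≤ 4 ^ k * a := by nlinarith
      have hkN : 4 ^ k * a ≤ N := by nlinarith
      have e2 := hmain S q cr g n1 N hG 2 (4 ^ k * a) (by omega) hkN
      have e4 := hmain S q cr g n1 N hG 4 (4 ^ k * a) (by omega) hkN
      push_cast at e2 e4
      refine le_trans ?_ (pr_Half hVHAR hPHC hLOCS S q _ _)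
      have hp2 := hc 2
      have hp4 := hc 4
      calc 1 - θ ≤ c0 := by linarith [le_max_left (1 - c0) (1 / 2 : ℝ)]
        _ ≤ _ := by
          rw [hc0]
          apply mul_le_mul e2 _ (by positivity) (hp2.le.trans e2)
          exact mul_le_mul e2 e4 hp4.le (hp2.le.trans e2)
    · exact pr_nonneg _ _ _
    · exact measureReal_nonneg
  have hsum := hun.trans (Finset.sum_le_sum hterm)
  rw [← Finset.mul_sum] at hsum
  have hrefl : ∑ i ∈ Finset.range (4 ^ n + 2), θ ^ Kc n (4 ^ n + 1 - i) =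
      ∑ j ∈ Finset.range (4 ^ n + 2), θ ^ Kc n j := by
    rw [← Finset.sum_range_reflect]
    apply Finset.sum_congr rfl
    intro j hj
    rw [Finset.mem_range] at hj
    congr 2
    omega
  rw [hrefl] at hsum
  have hK := Kc_sum θ (by linarith) n (4 ^ n + 2)
  have hg := geo (4 * θ) (by linarith) n
  have hal : 0 ≤ al S q a (4 ^ n * a) := measureReal_nonneg
  have hK2 : ∑ j ∈ Finset.range (4 ^ n + 2), θ ^ Kc n j ≤ 5 * (4 * θ) ^ n := by
    have h3 : ((4 ^ n + 2 : ℕ) : ℝ) * θ ^ n ≤ 3 * (4 * θ) ^ n := by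
      rw [mul_pow]
      have h4 : (1 : ℝ) ≤ 4 ^ n := one_le_pow₀ (by norm_num)
      have h5 : 0 ≤ θ ^ n := pow_nonneg (by linarith) _
      push_cast
      nlinarith
    linarith
  have hfin : c 2 ≤ al S q a (4 ^ n * a) * (5 * (4 * θ) ^ n) :=
    (hsq.trans hsum).trans (mul_le_mul_of_nonneg_left hK2 hal)
  have hpos : 0 < (4 * θ) ^ n := pow_pos (by linarith) _
  rw [zpow_neg, zpow_natCast, ← div_eq_mul_inv, div_le_iff₀ hpos]
  linarith

end Pool.Det5
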