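import Pool.Agent.Work.MP_dd5692_pr.InterfaceA2

/-!
# MP_dd5692_pr, d = 2, part (A), block ARML (helper12)
The arm event is increasing and local.
-/

set_option autoImplicit false

namespace Pool.Det5

open MeasureTheory MPdd5692

namespace ARML_

theorem mono (a b : ℤ) : Mono (arm a b) := by
  rintro W W' hW ⟨u, hu, v, hv, h⟩
  exact ⟨u, hu, v, hv, h.mono hW⟩

/-- the arm is already present in the box of half side `b + 1` -/
theorem arm_box {a b : ℤ} (hab : a ≤ b) {W : Set Site} (h : arm a b W) :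
    arm a b (W ∩ Bx 0 (b + 1)) := by
  obtain ⟨u, hu, v, hv, h⟩ := h
  have hu' : u ∈ Bx 0 b := by
    have h1 : ((0 : Site)).1 = 0 := rfl
    have h2 : ((0 : Site)).2 = 0 := rfl
    unfold Bx at hu ⊢
    rw [mem_Box] at hu ⊢
    omega
  obtain ⟨x, y, hx, hxy, hy, hyn, -⟩ := h.exit hu' hv
  have hxb : x ∈ Bx 0 b := hx.right.2
  have hyb : y ∈ Bx 0 (b + 1) := by
    have h1 : ((0 : Site)).1 = 0 := rfl
    have h2 : ((0 : Site)).2 = 0 := rfl
    unfold Bx at hxb ⊢
    rw [mem_Box] at hxb ⊢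
    have h3 := abs_le.1 hxy.adj8.fst
    have h4 := abs_le.1 hxy.adj8.snd
    omega
  have hsub : W ∩ Bx 0 b ⊆ W ∩ Bx 0 (b + 1) := by
    apply Set.inter_subset_inter_right
    unfold Bx
    apply Box_mono <;> omega
  exact ⟨u, hu, y, hyn, (hx.mono hsub).step hxy ⟨hy, hyb⟩⟩

theorem loc {a b : ℤ} (hab : a ≤ b) : Loc (Bx 0 (b + 1)) (arm a b) := by
  have key : ∀ W W' : Set Site, W ∩ Bx 0 (b + 1) = W' ∩ Bx 0 (b + 1) → arm a b W → arm a b W' := by
    intro W W' hW h
    have h1 := arm_box hab h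
    rw [hW] at h1
    exact mono a b _ _ Set.inter_subset_left h1
  intro W W' hW
  exact ⟨key W W' hW, key W' W hW.symm⟩

end ARML_

theorem stmt_ARML : Stmt_ARML := by
  intro a b
  refine ⟨ARML_.mono a b, fun hab => ARML_.loc hab, fun hab => ⟨Bx 0 (b + 1), ?_, ARML_.loc hab⟩⟩
  unfold Bx
  rw [← coe_boxF]
  exact Finset.finite_toSet _

end Pool.Det5
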