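import Pool.Agent.Work.MP_dd5692_pr.InterfaceA

/-! Block BRC (helper6): the curve crosses the large box. -/

set_option autoImplicit false

namespace Pool.Det5

open MeasureTheory MPdd5692

theorem stmt_BRC : Stmt_BRC := by
  intro ρ w h m u P e hh hwm hP
  have hPB : ∀ z ∈ P, 0 ≤ z.1 ∧ z.1 ≤ w ∧ 0 ≤ z.2 ∧ z.2 ≤ h := fun z hz => (hP.sub hz).1
  have hH : HH ρ h = 2 * h + 2 * ρ + 1 := rfl
  have hρ : (0:ℤ) ≤ (ρ : ℤ) := Int.natCast_nonneg ρ
  obtain ⟨x, hx⟩ := hP.foot
  have heB := hPB _ hP.top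
  simp only at heB
  -- first part: from the foot to (e, h)
  have h1 : Linked Adj4 (curve ρ h P e ∩ Box 0 m 0 (HH ρ h)) (x, 0) (e, h) := by
    refine ((hP.conn _ hx).symm4).mono ?_
    intro z hz
    have := hPB z hz
    refine ⟨Or.inl hz, ?_⟩
    rw [mem_Box, hH]; omega
  -- mirror image
  have h3 : Linked Adj4 (curve ρ h P e ∩ Box 0 m 0 (HH ρ h)) (e, h + 2 * ρ + 1) (x, HH ρ h) := by
    have := (hP.conn _ hx).map (A' := Adj4) (W' := curve ρ h P e ∩ Box 0 m 0 (HH ρ h))
      (flp ρ h) ?_ ?_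
    · have e1 : flp ρ h (e, h) = (e, h + 2 * ρ + 1) := by
        unfold flp; rw [hH]; ext <;> simp; ring
      have e2 : flp ρ h (x, 0) = (x, HH ρ h) := by
        unfold flp; ext <;> simp
      rw [e1, e2] at this
      exact this
    · intro z w' hzw
      rw [adj4_iff] at *
      unfold flp
      simp only
      omega
    · intro z hz
      have := hPB z hz
      refine ⟨Or.inr (Or.inr ?_), ?_⟩
      · have : flp ρ h (flp ρ h z) = z := by unfold flp; ext <;> simp
        rw [this]; exact hz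
      · unfold flp; rw [mem_Box]; simp only; rw [hH]; omega
  -- the bridge
  have h2 : Linked Adj4 (curve ρ h P e ∩ Box 0 m 0 (HH ρ h)) (e, h) (e, h + 2 * ρ + 1) := by
    refine lnk_vseg (by omega) ?_
    intro t ht1 ht2
    refine ⟨?_, ?_⟩
    · rcases eq_or_lt_of_le ht1 with h' | h'
      · left; rw [← h']; exact hP.top
      · rcases eq_or_lt_of_le ht2 with h'' | h''
        · right; right
          have : flp ρ h ((e, t) : Site) = (e, h) := by
            unfold flp; rw [hH, h'']; ext <;> simp; ring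
          rw [this]; exact hP.top
        · right; left; exact ⟨rfl, h', h''⟩
    · rw [mem_Box]; simp only; rw [hH]; omega
  exact ⟨x, x, (h1.trans h2).trans h3⟩

end Pool.Det5
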