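import Pool.Agent.Work.MP_dd5692_pr.InterfaceA

/-!
# MP_dd5692_pr, part (A): block BRCB (helper32)
-/

set_option autoImplicit false

namespace Pool.Det5

open MeasureTheory MPdd5692
open scoped ENNReal

theorem BRCB_rho (S : Shape) : 1 ≤ S.ρ := by
  have h := S.inner ((S.ρ0 : ℤ), (S.ρ0 : ℤ)) (by simp) (by simp)
  have h2 := (S.outer _ h).1
  have h3 := S.pos
  simp only [Nat.abs_cast] at h2
  omega

theorem stmt_BRCB (hCYL : Stmt_CYL) : Stmt_BRCB := by
  intro S q h e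
  have hρ := BRCB_rho S
  set D : Finset Site := Finset.Icc (e - (S.ρ : ℤ)) (e + 2 * S.ρ + 1) ×ˢ
    Finset.Icc (h - (S.ρ : ℤ)) (h + 3 * S.ρ + 1) with hD
  have hset : CLR S.ρ h e = {ω : Cfg | ∀ z ∈ D, ω z = false} := by
    ext ω
    constructor
    · intro hω z hz
      rw [hD, Finset.mem_product, Finset.mem_Icc, Finset.mem_Icc] at hz
      exact hω z ⟨hz.1.1, hz.1.2, hz.2.1, hz.2.2⟩
    · intro hω z hz
      refine hω z ?_
      rw [hD, Finset.mem_product, Finset.mem_Icc, Finset.mem_Icc]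
      exact ⟨⟨hz.1, hz.2.1⟩, ⟨hz.2.2.1, hz.2.2.2⟩⟩
  rw [hset, hCYL q D]
  have hcard : D.card = (3 * S.ρ + 2) * (4 * S.ρ + 2) := by
    rw [hD, Finset.card_product, Int.card_Icc, Int.card_Icc]
    congr 1 <;> omega
  have hle : D.card ≤ 30 * S.ρ ^ 2 := by
    rw [hcard]
    nlinarith [hρ, Nat.mul_le_mul hρ hρ]
  exact pow_le_pow_of_le_one (by linarith [q.2.2]) (by linarith [q.2.1]) hle

end Pool.Det5
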