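import Pool.Agent.Work.MP_dd5692_pr.InterfaceA

/-!
# MP_dd5692_pr, part (A), block BRCOV: a crossing of the large box gives F1, F2 or F3
-/

set_option autoImplicit false

open MeasureTheory MPdd5692

namespace Pool.Det5

theorem stmt_BRCOV (hPL1 : Stmt_PL1) (hBRC : Stmt_BRC) : Stmt_BRCOV := by
  intro ρ w h m u P e X hw hh hm hPi hX
  have hbox : ∀ z ∈ P, 0 ≤ z.1 ∧ z.1 ≤ w ∧ 0 ≤ z.2 ∧ z.2 ≤ h := fun z hz => (hPi.sub hz).1
  have he : e ≤ w := (hbox _ hPi.top).2.1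
  have hcurve : VC Adj4 (curve ρ h P e) 0 m 0 (HH ρ h) := hBRC ρ w h m u P e hh (by omega) hPi
  obtain ⟨y0, y, hXl⟩ := hX
  have hXr := hXl.symm4
  -- the cluster of the right end
  have hcl : HC Adj8 (cl Adj4 (X ∩ Box 0 m 0 (HH ρ h)) (m, y)) 0 m 0 (HH ρ h) := by
    refine ⟨y0, y, ?_⟩
    have h1 := (hXr.in_cl).symm4.to8
    refine h1.mono fun z hz => ⟨hz, ?_⟩
    exact (Linked.right hz).2
  obtain ⟨z, -, hz1, hz2⟩ := hPL1 _ _ 0 m 0 (HH ρ h) hcl hcurve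
  -- the right end is not in the curve
  have hm1 : ((m, y) : Site) ∈ (curve ρ h P e ∪ ZZ ρ h e)ᶜ := by
    rintro ((hc | hc | hc) | hc)
    · have := (hbox _ hc).2.1
      simp only at this
      omega
    · have := hc.1
      simp only at this
      omega
    · have := (hbox _ hc).2.1
      simp only [flp] at this
      omega
    · have := hc.2.1
      simp only at this
      omega
  obtain ⟨x, p, hx, hxp, hpX, hp, -⟩ := Linked.exit (C := (curve ρ h P e ∪ ZZ ρ h e)ᶜ) hz1 hm1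
    (fun hc => hc (Or.inl hz2))
  have hFr : x ∈ Fr ρ h m P e X := by
    refine ⟨y, hx.mono ?_⟩
    rintro t ⟨⟨ht1, ht2⟩, ht3⟩
    exact ⟨ht1, ht2, ht3⟩
  rcases not_not.1 hp with (hc | hc | hc) | hc
  · exact Or.inl ⟨x, hFr, p, hc, hxp⟩
  · refine Or.inr (Or.inl ⟨x, hFr, p, ?_, hxp⟩)
    obtain ⟨h1, h2, h3⟩ := hc
    refine ⟨?_, ?_, ?_, ?_⟩ <;> omega
  · exact Or.inr (Or.inr ⟨x, hFr, p, hc, hxp⟩)
  · exact Or.inr (Or.inl ⟨x, hFr, p, hc, hxp⟩)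

end Pool.Det5
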