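import Pool.Agent.Work.MP_dd5692_pr.InterfaceA

/-! Block BRCR (helper51): probability that the sites next to the bridge box are not vacant. -/

set_option autoImplicit false

namespace Pool.Det5

open MeasureTheory MPdd5692
open scoped ENNReal

namespace BRCR_

/-- the block of side `r + 1` with lower left corner `p` -/
noncomputable def blk (r : ℕ) (p : Site) : Finset Site := boxF p.1 (p.1 + r) p.2 (p.2 + r)

theorem card_blk (r : ℕ) (p : Site) : (blk r p).card = (r + 1) ^ 2 := by
  unfold blk boxF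
  rw [Finset.card_product, Int.card_Icc, Int.card_Icc]
  have h1 : (p.1 + (r:ℤ) + 1 - p.1).toNat = r + 1 := by omega
  have h2 : (p.2 + (r:ℤ) + 1 - p.2).toNat = r + 1 := by omega
  rw [h1, h2, pow_two]

theorem mem_blk {r : ℕ} {p z : Site} :
    z ∈ blk r p ↔ p.1 ≤ z.1 ∧ z.1 ≤ p.1 + r ∧ p.2 ≤ z.2 ∧ z.2 ≤ p.2 + r := by
  unfold blk
  rw [mem_boxF, mem_Box]

/-- all cells of the block are open -/
def EE (r : ℕ) (p : Site) : Set Cfg := {ω | ∀ z ∈ blk r p, ω z = false}

/-- in every block there is a closed cell -/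
def GB (r : ℕ) (l : List Site) : Set Cfg := {ω | ∀ p ∈ l, ω ∉ EE r p}

theorem meas_EE (r : ℕ) (p : Site) : MeasurableSet (EE r p) := by
  have h : EE r p = ⋂ z ∈ blk r p, (fun ω : Cfg => ω z) ⁻¹' {false} := by
    ext ω
    simp [EE]
  rw [h]
  refine Finset.measurableSet_biInter _ fun z _ => ?_
  exact measurable_pi_apply z (measurableSet_singleton false)

theorem GB_cons (r : ℕ) (p : Site) (l : List Site) : GB r (p :: l) = (EE r p)ᶜ ∩ GB r l := by
  ext ω
  simp [GB]

theorem meas_GB (r : ℕ) (l : List Site) : MeasurableSet (GB r l) := by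
  induction l with
  | nil =>
    have : GB r [] = Set.univ := by ext ω; simp [GB]
    rw [this]; exact MeasurableSet.univ
  | cons p l ih =>
    rw [GB_cons]
    exact (meas_EE r p).compl.inter ih

theorem inc_EE (r : ℕ) (p : Site) : VInc (EE r p) := by
  intro ω ω' h hω z hz
  have h1 := hω z hz
  by_contra h2
  have h3 : ω' z = true := by
    cases h4 : ω' z
    · exact absurd h4 h2
    · rfl
  rw [h z h3] at h1
  exact Bool.noConfusion h1

theorem inc_GBc (r : ℕ) (l : List Site) : VInc (GB r l)ᶜ := by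
  intro ω ω' h hω hω'
  refine hω fun p hp hE => ?_
  exact hω' p hp (inc_EE r p ω ω' h hE)

/-- the union of the blocks -/
def UB (r : ℕ) (l : List Site) : Set Site := {z | ∃ p ∈ l, z ∈ blk r p}

theorem fin_UB (r : ℕ) (l : List Site) : (UB r l).Finite := by
  induction l with
  | nil =>
    have : UB r [] = ∅ := by ext z; simp [UB]
    rw [this]; exact Set.finite_empty
  | cons p l ih =>
    have : UB r (p :: l) = (blk r p : Set Site) ∪ UB r l := by
      ext z; simp [UB]
    rw [this]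
    exact (Finset.finite_toSet _).union ih

theorem dep_EE (r : ℕ) (p : Site) (l : List Site) (hp : p ∈ l) : Dep (UB r l) (EE r p) := by
  intro ω ω' h
  have h1 : ∀ z ∈ blk r p, ω z = ω' z := fun z hz => h z ⟨p, hp, hz⟩
  constructor
  · intro hω z hz
    rw [← h1 z hz]; exact hω z hz
  · intro hω z hz
    rw [h1 z hz]; exact hω z hz

theorem dep_GBc (r : ℕ) (p : Site) (l : List Site) : Dep (UB r (p :: l)) (GB r l)ᶜ := by
  intro ω ω' h
  have h1 : ∀ x ∈ l, (ω ∈ EE r x ↔ ω' ∈ EE r x) := fun x hx =>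
    dep_EE r x (p :: l) (List.mem_cons_of_mem _ hx) ω ω' h
  simp only [Set.mem_compl_iff, GB, Set.mem_ofPred_eq]
  constructor
  · intro h2 h3
    exact h2 fun x hx h4 => h3 x hx ((h1 x hx).1 h4)
  · intro h2 h3
    exact h2 fun x hx h4 => h3 x hx ((h1 x hx).2 h4)

theorem harris_compl (hHAR : Stmt_HAR) (q : unitInterval) (D : Set Site) (E F : Set Cfg)
    (hD : D.Finite) (hE : Dep D E) (hF : Dep D F) (iE : VInc E) (iF : VInc F)
    (mE : MeasurableSet E) (mF : MeasurableSet F) :
    (mu q).real Eᶜ * (mu q).real Fᶜ ≤ (mu q).real (Eᶜ ∩ Fᶜ) := by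
  have h1 := hHAR q D E F hD hE hF iE iF
  have h2 := measureReal_union_add_inter (μ := mu q) (s := E) (t := F) mF
  rw [← Set.compl_union, probReal_compl_eq_one_sub mE, probReal_compl_eq_one_sub mF,
    probReal_compl_eq_one_sub (mE.union mF)]
  nlinarith

theorem prob_GB (hCYL : Stmt_CYL) (hHAR : Stmt_HAR) (q : unitInterval) (r : ℕ) (l : List Site) :
    (1 - (1 - (q : ℝ)) ^ ((r + 1) ^ 2)) ^ l.length ≤ (mu q).real (GB r l) := by
  have hq0 : (0:ℝ) ≤ 1 - (q : ℝ) := by linarith [q.2.2]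
  have hq1 : 1 - (q : ℝ) ≤ 1 := by linarith [q.2.1]
  have hx : 0 ≤ 1 - (1 - (q : ℝ)) ^ ((r + 1) ^ 2) := by
    linarith [pow_le_one₀ (n := (r + 1) ^ 2) hq0 hq1]
  induction l with
  | nil =>
    have : GB r [] = Set.univ := by ext ω; simp [GB]
    rw [this]
    simp
  | cons p l ih =>
    have hE : (mu q).real (EE r p)ᶜ = 1 - (1 - (q : ℝ)) ^ ((r + 1) ^ 2) := by
      rw [probReal_compl_eq_one_sub (meas_EE r p)]
      have := hCYL q (blk r p)
      rw [card_blk] at this
      unfold EE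
      rw [this]
    have h1 := harris_compl hHAR q (UB r (p :: l)) (EE r p) (GB r l)ᶜ (fin_UB r _)
      (dep_EE r p _ List.mem_cons_self) (dep_GBc r p l) (inc_EE r p) (inc_GBc r l)
      (meas_EE r p) (meas_GB r l).compl
    rw [compl_compl] at h1
    rw [GB_cons, List.length_cons, pow_succ, mul_comm]
    refine le_trans ?_ h1
    rw [hE]
    exact mul_le_mul_of_nonneg_left ih hx

end BRCR_

open BRCR_ in
theorem stmt_BRCR (hCYL : Stmt_CYL) (hHAR : Stmt_HAR) : Stmt_BRCR := by
  intro S q h e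
  set r := S.ρ0 with hr
  have hle : S.ρ ≤ 2 * r := S.le
  have h1 := prob_GB hCYL hHAR q r [(e, h), (e + r + 1, h), (e, h + 2 * S.ρ + 1),
    (e + r + 1, h + 2 * S.ρ + 1), (e + S.ρ + 1, h + 1), (e + S.ρ + 1, h + 1 + (r + 1)),
    (e + S.ρ + 1, h + 1 + 2 * (r + 1)), (e + S.ρ + 1, h + 1 + 3 * (r + 1))]
  refine le_trans h1 ?_
  unfold pr
  refine measureReal_mono ?_ (measure_ne_top _ _)
  intro ω hω z hz hv
  -- a block of the list cannot contain z
  have key : ∀ p : Site, ω ∉ EE r p → z ∉ blk r p := by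
    intro p hp hzp
    refine hp fun y hy => ?_
    rw [mem_blk] at hzp hy
    have hk : ((y.1 - z.1, y.2 - z.2) : Site) ∈ S.K := by
      refine S.inner _ ?_ ?_
      · rw [abs_le]; constructor <;> simp only <;> omega
      · rw [abs_le]; constructor <;> simp only <;> omega
    have h3 := hv _ hk
    have h4 : z + ((y.1 - z.1, y.2 - z.2) : Site) = y := by
      refine Prod.ext ?_ ?_
      · simp
      · simp
    rwa [h4] at h3
  have hall : ∀ p ∈ [((e, h) : Site), (e + r + 1, h), (e, h + 2 * S.ρ + 1),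
    (e + r + 1, h + 2 * S.ρ + 1), (e + S.ρ + 1, h + 1), (e + S.ρ + 1, h + 1 + (r + 1)),
    (e + S.ρ + 1, h + 1 + 2 * (r + 1)), (e + S.ρ + 1, h + 1 + 3 * (r + 1))],
      z ∉ blk r p := fun p hp => key p (hω p hp)
  simp only [List.mem_cons, List.not_mem_nil, or_false, forall_eq_or_imp, forall_eq, mem_blk]
    at hall
  obtain ⟨a1, a2, a3, a4, a5, a6, a7, a8⟩ := hall
  omega

end Pool.Det5
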