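import Pool.Agent.Work.MP_dd5692_pr.InterfaceA

/-! Block BRHIGH (helper63). -/

set_option autoImplicit false

namespace Pool.Det5

open MeasureTheory MPdd5692
open scoped ENNReal

namespace BRHIGH_

lemma LocF_not {P : Set Site → Prop} (h : LocF P) : LocF (fun W => ¬ P W) := by
  obtain ⟨B, hB, hP⟩ := h
  exact ⟨B, hB, fun W W' hW => not_congr (hP W W' hW)⟩

lemma Anti_not {P : Set Site → Prop} (h : Mono P) : Anti (fun W => ¬ P W) :=
  fun W W' hW hn hP => hn (h W W' hW hP)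

lemma LocF_and {P Q : Set Site → Prop} (h : LocF P) (h' : LocF Q) : LocF (fun W => P W ∧ Q W) := by
  obtain ⟨B, hB, hP⟩ := h
  obtain ⟨B', hB', hQ⟩ := h'
  refine ⟨B ∪ B', hB.union hB', fun W W' hW => and_congr (hP W W' ?_) (hQ W W' ?_)⟩
  · have h1 := congrArg (fun X => X ∩ B) hW
    simpa [Set.inter_assoc, Set.union_inter_cancel_left] using h1
  · have h1 := congrArg (fun X => X ∩ B') hW
    simpa [Set.inter_assoc, Set.union_inter_cancel_right] using h1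

lemma Anti_and {P Q : Set Site → Prop} (h : Anti P) (h' : Anti Q) : Anti (fun W => P W ∧ Q W) :=
  fun W W' hW hn => ⟨h W W' hW hn.1, h' W W' hW hn.2⟩

lemma pr_not (hVLOC : Stmt_VLOC) (S : Shape) (q : unitInterval) {P : Set Site → Prop}
    (h : LocF P) : pr S q (fun W => ¬ P W) = 1 - pr S q P := by
  have hm : MeasurableSet {ω | P (vac S ω)} := (hVLOC S P).2.2.2 h
  unfold pr
  rw [← probReal_compl_eq_one_sub hm]
  rfl

lemma pr_mono (S : Shape) (q : unitInterval) {P Q : Set Site → Prop} (h : ∀ W, P W → Q W) :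
    pr S q P ≤ pr S q Q := by
  unfold pr
  exact measureReal_mono (fun ω hω => h _ hω) (measure_ne_top _ _)

end BRHIGH_

open BRHIGH_ in
theorem stmt_BRHIGH (hBRSUM : Stmt_BRSUM) (hBRP : Stmt_BRP) (hBRCOV : Stmt_BRCOV)
    (hBRY1 : Stmt_BRY1) (hBRO : Stmt_BRO) (hBRF13 : Stmt_BRF13) (hBRLOC : Stmt_BRLOC)
    (hBRCR : Stmt_BRCR) (hVLOC : Stmt_VLOC) (hVHAR : Stmt_VHAR) (hPHC : Stmt_PHC)
    (hLOCS : Stmt_LOCS) (hMEAS : Stmt_MEAS) : Stmt_BRHIGH := by
  intro S q cr w h m hcr0 hcr hw hh hm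
  have hf0 : 0 ≤ f S q h w := measureReal_nonneg
  by_cases hx : 0 ≤ 1 - Real.sqrt ((1 - f S q m (HH S.ρ h)) / cr)
  · refine hBRSUM S q w h m (HH S.ρ h) _ hw (by omega) hx fun u hu _ hu3 => ?_
    obtain ⟨P, e, hPi⟩ := hBRP w h u hw hh hu hu3
    obtain ⟨⟨hM1, hL1⟩, -, ⟨hM3, hL3⟩, ⟨hAO, hLO⟩, -, -⟩ := hBRLOC S.ρ h m P e
    refine ⟨{ω | F1 S.ρ h m P e (vac S ω)}, (hVLOC S _).2.2.2 hL1, ?_, ?_⟩
    · -- the probability of `F1`
      have hLH : LocF (fun W => HC Adj4 W 0 m 0 (HH S.ρ h)) := by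
        obtain ⟨-, hl, -, -, -, -, -, -, -, -, -, -, -, hB, -⟩ :=
          hLOCS Adj4 0 m 0 (HH S.ρ h) 0 w h m 0 0
        exact ⟨_, hB, hl⟩
      have h1 := (hVHAR S q _ _ (LocF_not hL1) (LocF_not hL3)).2.1 (Anti_not hM1) (Anti_not hM3)
      have h2 := (hVHAR S q _ _ (LocF_and (LocF_not hL1) (LocF_not hL3)) hLO).2.1
        (Anti_and (Anti_not hM1) (Anti_not hM3)) hAO
      have h3 : pr S q (fun W => (¬ F1 S.ρ h m P e W ∧ ¬ F3 S.ρ h m P e W) ∧ OO S.ρ h e W) ≤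
          pr S q (fun W => ¬ HC Adj4 W 0 m 0 (HH S.ρ h)) := by
        refine pr_mono S q fun W hW hHC => ?_
        rcases hBRCOV S.ρ w h m u P e W hw hh hm hPi hHC with h4 | h4 | h4
        · exact hW.1.1 h4
        · exact hBRO S.ρ w h m u P e W hw hh hm hPi hW.2 h4
        · exact hW.1.2 h4
      rw [pr_not hVLOC S q hLH] at h3
      rw [pr_not hVLOC S q hL1, pr_not hVLOC S q hL3, ← hBRF13 S q h m P e] at h1
      have h5 : cr ≤ pr S q (OO S.ρ h e) := hcr.trans (hBRCR S q h e)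
      have hfdef : pr S q (fun W => HC Adj4 W 0 m 0 (HH S.ρ h)) = f S q m (HH S.ρ h) := rfl
      rw [hfdef] at h3
      set p := pr S q (F1 S.ρ h m P e) with hp
      set f' := f S q m (HH S.ρ h) with hf'
      have hsq : 0 ≤ (1 - p) * (1 - p) := mul_self_nonneg _
      have h6 : (1 - p) * (1 - p) * cr ≤ 1 - f' := by
        calc (1 - p) * (1 - p) * cr
            ≤ pr S q (fun W => ¬ F1 S.ρ h m P e W ∧ ¬ F3 S.ρ h m P e W) * pr S q (OO S.ρ h e) :=
              mul_le_mul h1 h5 hcr0.le (hsq.trans h1)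
          _ ≤ _ := h2
          _ ≤ 1 - f' := h3
      have h7 : 1 - p ≤ Real.sqrt ((1 - f') / cr) := by
        refine Real.le_sqrt_of_sq_le ?_
        rw [le_div_iff₀ hcr0]
        nlinarith
      have h8 : 1 - Real.sqrt ((1 - f') / cr) ≤ p := by linarith
      exact h8
    · intro ω ω' hω hω'
      exact hBRY1 S w h m u P e ω ω' hw hh hm hω hPi hω'
  · have h1 : 0 ≤ pr S q (YY w h m (HH S.ρ h)) := measureReal_nonneg
    push Not at hx
    refine le_trans ?_ h1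
    exact mul_nonpos_of_nonpos_of_nonneg hx.le hf0

end Pool.Det5
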