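import Pool.Agent.Work.MP_dd5692_pr.InterfaceA

/-!
# MP_dd5692_pr, part (A): block BRKEY (helper67)
-/

set_option autoImplicit false

namespace Pool.Det5

open MeasureTheory MPdd5692
open scoped ENNReal

namespace BRKEY

/-- horizontal segment in any direction -/
theorem hseg {X : Set Site} {x x' y : ℤ}
    (h : ∀ t, min x x' ≤ t → t ≤ max x x' → ((t, y) : Site) ∈ X) :
    Linked Adj4 X (x, y) (x', y) := by
  rcases le_total x x' with hx | hx
  · exact lnk_hseg hx fun t h1 h2 => h t (by rw [min_eq_left hx]; exact h1)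
      (by rw [max_eq_right hx]; exact h2)
  · exact (lnk_hseg hx fun t h1 h2 => h t (by rw [min_eq_right hx]; exact h1)
      (by rw [max_eq_left hx]; exact h2)).symm4

/-- vertical segment in any direction -/
theorem vseg {X : Set Site} {x y y' : ℤ}
    (h : ∀ t, min y y' ≤ t → t ≤ max y y' → ((x, t) : Site) ∈ X) :
    Linked Adj4 X (x, y) (x, y') := by
  rcases le_total y y' with hx | hx
  · exact lnk_vseg hx fun t h1 h2 => h t (by rw [min_eq_left hx]; exact h1)
      (by rw [max_eq_right hx]; exact h2)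
  · exact (lnk_vseg hx fun t h1 h2 => h t (by rw [min_eq_right hx]; exact h1)
      (by rw [max_eq_left hx]; exact h2)).symm4

/-- the clamp to an interval -/
def clp (a b x : ℤ) : ℤ := max a (min x b)

theorem clp_mem {a b : ℤ} (h : a ≤ b) (x : ℤ) : a ≤ clp a b x ∧ clp a b x ≤ b := by
  unfold clp
  omega

theorem clp_btw {a b x p t : ℤ} (h1 : a ≤ p) (h2 : p ≤ b) (h3 : min p (clp a b x) ≤ t)
    (h4 : t ≤ max p (clp a b x)) : |x - t| ≤ |x - p| ∧ a ≤ t ∧ t ≤ b := by
  unfold clp at h3 h4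
  rcases abs_cases (x - t) with ⟨e1, e1'⟩ | ⟨e1, e1'⟩ <;>
  rcases abs_cases (x - p) with ⟨e2, e2'⟩ | ⟨e2, e2'⟩ <;> rw [e1, e2] <;> omega

/-- sites whose cells contain `y` -/
def NN (S : Shape) (y : Site) : Set Site := {p | y - p ∈ S.K}

theorem NN_solid {S : Shape} {y p q : Site} (hp : p ∈ NN S y) (h1 : |y.1 - q.1| ≤ |y.1 - p.1|)
    (h2 : |y.2 - q.2| ≤ |y.2 - p.2|) : q ∈ NN S y :=
  S.solid _ hp _ h1 h2

/-- the staircase -/
theorem stair {S : Shape} {y p : Site} {a b c d : ℤ} (hab : a ≤ b) (hcd : c ≤ d) (Q : ℤ → Prop)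
    (hQ : ∀ s t r : ℤ, Q s → Q t → min s t ≤ r → r ≤ max s t → Q r) (hp : p ∈ NN S y)
    (hpB : p ∈ Box a b c d) (h1 : Q p.1) (h2 : Q (clp a b y.1)) :
    Linked Adj4 {q | q ∈ NN S y ∧ q ∈ Box a b c d ∧ Q q.1} p (clp a b y.1, clp c d y.2) := by
  obtain ⟨p1, p2⟩ := p
  obtain ⟨b1, b2, b3, b4⟩ := hpB
  simp only at b1 b2 b3 b4 h1
  have s1 : Linked Adj4 {q | q ∈ NN S y ∧ q ∈ Box a b c d ∧ Q q.1} (p1, p2) (clp a b y.1, p2) := by
    apply hseg
    intro t t1 t2
    obtain ⟨k1, k2, k3⟩ := clp_btw b1 b2 t1 t2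
    exact ⟨NN_solid hp k1 le_rfl, ⟨k2, k3, b3, b4⟩, hQ _ _ _ h1 h2 t1 t2⟩
  have s2 : Linked Adj4 {q | q ∈ NN S y ∧ q ∈ Box a b c d ∧ Q q.1} (clp a b y.1, p2)
      (clp a b y.1, clp c d y.2) := by
    apply vseg
    intro t t1 t2
    obtain ⟨k1, k2, k3⟩ := clp_btw b3 b4 t1 t2
    have hc := clp_mem hab y.1
    have k4 := (clp_btw (x := y.1) b1 b2 (t := clp a b y.1) (min_le_right _ _) (le_max_right _ _)).1
    exact ⟨NN_solid hp k4 k1, ⟨hc.1, hc.2, k2, k3⟩, h2⟩
  exact s1.trans s2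

theorem stair2 {S : Shape} {y p p' : Site} {a b c d : ℤ} (hab : a ≤ b) (hcd : c ≤ d) (Q : ℤ → Prop)
    (hQ : ∀ s t r : ℤ, Q s → Q t → min s t ≤ r → r ≤ max s t → Q r) (hp : p ∈ NN S y)
    (hpB : p ∈ Box a b c d) (h1 : Q p.1) (hp' : p' ∈ NN S y)
    (hpB' : p' ∈ Box a b c d) (h1' : Q p'.1) (h2 : Q (clp a b y.1)) :
    Linked Adj4 {q | q ∈ NN S y ∧ q ∈ Box a b c d ∧ Q q.1} p p' :=
  (stair hab hcd Q hQ hp hpB h1 h2).trans (stair hab hcd Q hQ hp' hpB' h1' h2).symm4

/-- no left-right 8-path avoids the curve -/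
theorem noX (hPL1 : Stmt_PL1) (hBRC : Stmt_BRC) {ρ : ℕ} {w h m : ℤ} {u P : Set Site} {e : ℤ}
    (h1 : 1 ≤ h) (hwm : w ≤ m) (hP : IsPi w h u P e) :
    ¬ HC Adj8 (curve ρ h P e)ᶜ 0 m 0 (HH ρ h) := by
  intro hh
  obtain ⟨z, -, hz1, hz2⟩ := hPL1 _ _ _ _ _ _ hh (hBRC ρ w h m u P e h1 hwm hP)
  exact hz1 hz2

end BRKEY

open BRKEY in
theorem stmt_BRKEY (hPL1 : Stmt_PL1) (hBRC : Stmt_BRC) : Stmt_BRKEY := by
  rintro S w h m u P e hw hh hm hu hR hP y z ⟨s, hs, k, hk, rfl⟩ hbd hzB hzc hzZ ⟨y', hlk⟩ k' hk' heq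
  have hnoX := noX (ρ := S.ρ) hPL1 hBRC hh (by omega : w ≤ m) hP
  have hPbox : ∀ p ∈ P, p ∈ Box 0 w 0 h ∧ p ∉ u := fun p hp => ⟨(hP.sub hp).1, (hP.sub hp).2.1⟩
  set yy : Site := s + k with hyy
  have hneg : ∀ q : Site, q ∈ S.K → -q ∈ S.K := fun q hq => S.solid q hq _ (by simp) (by simp)
  have hsN : s ∈ NN S yy := by
    show s + k - s ∈ S.K
    rw [add_sub_cancel_left]; exact hk
  have hzN : z ∈ NN S yy := by
    show yy - z ∈ S.K
    rw [heq, add_sub_cancel_left]; exact hk'
  have hbN : ∀ t ∈ bdL u 0 w 0 h, t ∉ NN S yy := by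
    intro t ht hN
    exact hbd t ht (yy - t) hN (by abel)
  have hout : ∀ p ∈ NN S yy, |yy.1 - p.1| ≤ S.ρ ∧ |yy.2 - p.2| ≤ S.ρ := fun p hp => S.outer _ hp
  have hsB := hu hs
  rw [mem_Box] at hsB
  have hs2 : |yy.2 - s.2| ≤ S.ρ := (hout s hsN).2
  have hrow : ∀ p ∈ NN S yy, p.2 ≤ h + 2 * S.ρ := by
    intro p hp
    have h1 := abs_le.1 (hout p hp).2
    have h2 := abs_le.1 hs2
    omega
  -- a site of the neighbourhood on the curve is on the bridge
  have hcur : ∀ p ∈ NN S yy, p ∈ curve S.ρ h P e → p.1 = e ∧ h < p.2 ∧ p.2 < h + 2 * S.ρ + 1 := by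
    intro p hp hc
    rcases hc with h1 | h1 | h1
    · exact absurd hp (hbN p (hP.sub h1))
    · exact h1
    · exfalso
      have h2 := (hPbox _ h1).1
      rw [mem_Box] at h2
      have h3 := hrow p hp
      unfold flp HH at h2
      simp only at h2
      omega
  have hsc : ∀ p ∈ u, p ∈ (curve S.ρ h P e)ᶜ ∩ Box 0 m 0 (HH S.ρ h) := by
    intro p hp
    have hpB := hu hp
    rw [mem_Box] at hpB
    refine ⟨?_, hpB.1, by omega, hpB.2.2.1, by unfold HH; omega⟩
    rintro (h1 | h1 | h1)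
    · exact (hPbox p h1).2 hp
    · omega
    · have h2 := (hPbox _ h1).1
      rw [mem_Box] at h2
      unfold flp HH at h2
      simp only at h2
      omega
  have hzlk : Linked Adj8 ((curve S.ρ h P e)ᶜ ∩ Box 0 m 0 (HH S.ρ h)) z (m, y') := by
    refine (hlk.symm4.mono ?_).to8
    intro q hq
    exact ⟨hq.2, hq.1⟩
  -- the main alternative
  have main : ∀ Q : ℤ → Prop, (∀ s t r : ℤ, Q s → Q t → min s t ≤ r → r ≤ max s t → Q r) →
      Q s.1 → Q z.1 → Q (clp 0 m yy.1) →
      (∀ p ∈ NN S yy, Q p.1 → ¬ (p.1 = e ∧ h < p.2 ∧ p.2 < h + 2 * S.ρ + 1)) → False := by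
    intro Q hQ q1 q2 q3 q4
    have l1 := stair2 (S := S) (y := yy) (by omega : (0 : ℤ) ≤ m)
      (by unfold HH; omega : (0 : ℤ) ≤ HH S.ρ h) Q hQ hsN (hsc s hs).2 q1 hzN hzB q2 q3
    have l2 : Linked Adj8 ((curve S.ρ h P e)ᶜ ∩ Box 0 m 0 (HH S.ρ h)) s z := by
      refine (l1.mono ?_).to8
      rintro q ⟨r1, r2, r3⟩
      exact ⟨fun hc => q4 q r1 r3 (hcur q r1 hc), r2⟩
    obtain ⟨y0, hy0⟩ := hR s hs
    have l0 : Linked Adj8 ((curve S.ρ h P e)ᶜ ∩ Box 0 m 0 (HH S.ρ h)) (0, y0) s :=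
      hy0.mono hsc
    exact hnoX ⟨y0, y', (l0.trans l2).trans hzlk⟩
  by_cases hbr : ∃ t : ℤ, h < t ∧ t < h + 2 * S.ρ + 1 ∧ ((e, t) : Site) ∈ NN S yy
  · obtain ⟨t, ht1, ht2, htN⟩ := hbr
    have heh : ((e, h) : Site) ∉ NN S yy := hbN _ (hP.sub hP.top)
    have heB := (hPbox _ hP.top).1
    rw [mem_Box] at heB
    simp only at heB
    have hy2 : h < yy.2 := by
      by_contra hle
      push Not at hle
      apply heh
      refine NN_solid htN le_rfl ?_
      show |yy.2 - h| ≤ |yy.2 - t|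
      rw [abs_of_nonpos (by omega), abs_of_nonpos (by omega)]
      omega
    -- sites of the neighbourhood below row `h` project to row `h`
    have hproj : ∀ p ∈ NN S yy, p.2 ≤ h → ((p.1, h) : Site) ∈ NN S yy := by
      intro p hp hp2
      refine NN_solid hp le_rfl ?_
      show |yy.2 - h| ≤ |yy.2 - p.2|
      rw [abs_of_nonneg (by omega), abs_of_nonneg (by omega)]
      omega
    have hside : ∀ x : ℤ, ((x, h) : Site) ∈ NN S yy →
        (yy.1 < e → x < e) ∧ (e < yy.1 → e < x) ∧ yy.1 ≠ e := by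
      intro x hx
      refine ⟨fun hlt => ?_, fun hlt => ?_, fun he => ?_⟩
      · by_contra hle
        push Not at hle
        apply heh
        refine NN_solid hx ?_ le_rfl
        show |yy.1 - e| ≤ |yy.1 - x|
        rw [abs_of_nonpos (by omega), abs_of_nonpos (by omega)]
        omega
      · by_contra hle
        push Not at hle
        apply heh
        refine NN_solid hx ?_ le_rfl
        show |yy.1 - e| ≤ |yy.1 - x|
        rw [abs_of_nonneg (by omega), abs_of_nonneg (by omega)]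
        omega
      · apply heh
        refine NN_solid hx ?_ le_rfl
        show |yy.1 - e| ≤ |yy.1 - x|
        rw [he, sub_self, abs_zero]
        exact abs_nonneg _
    have hsh := hproj s hsN hsB.2.2.2
    obtain ⟨a1, a2, a3⟩ := hside s.1 hsh
    rcases lt_or_gt_of_ne a3 with hlt | hgt
    · -- (b1)
      have hse := a1 hlt
      have hze : z.1 < e := by
        by_contra hle
        push Not at hle
        by_cases hz2 : z.2 ≤ h
        · have := (hside z.1 (hproj z hzN hz2)).1 hlt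
          omega
        · push Not at hz2
          apply hzZ
          have h1 := abs_le.1 (hout z hzN).1
          have h2 := hrow z hzN
          refine ⟨hle, ?_, by omega, by omega⟩
          omega
      refine main (fun x => x < e) ?_ hse hze ?_ ?_
      · intro s t r h1 h2 h3 h4
        omega
      · unfold clp
        omega
      · intro p hp h1 h2
        omega
    · -- (b2)
      have hse := a2 hgt
      by_cases hze : e < z.1
      · refine main (fun x => e < x) ?_ hse hze ?_ ?_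
        · intro s t r h1 h2 h3 h4
          omega
        · unfold clp
          omega
        · intro p hp h1 h2
          omega
      · push Not at hze
        have hz2 : h < z.2 := by
          by_contra hle
          push Not at hle
          have := (hside z.1 (hproj z hzN hle)).2.1 hgt
          omega
        have hzr := hrow z hzN
        have hze' : z.1 < e := by
          rcases lt_or_eq_of_le hze with h1 | h1
          · exact h1
          · exact absurd (Or.inr (Or.inl ⟨h1, hz2, by omega⟩)) hzc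
        rw [mem_Box] at hzB
        have l0 : Linked Adj8 ((curve S.ρ h P e)ᶜ ∩ Box 0 m 0 (HH S.ρ h)) (0, z.2) (z.1, z.2) := by
          refine (lnk_hseg hzB.1 fun t t1 t2 => ?_).to8
          refine ⟨?_, t1, by simp only; omega, hzB.2.2.1, hzB.2.2.2⟩
          rintro (h1 | h1 | h1)
          · have h2 := (hPbox _ h1).1
            rw [mem_Box] at h2
            simp only at h2
            omega
          · simp only at h1
            omega
          · have h2 := (hPbox _ h1).1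
            rw [mem_Box] at h2
            unfold flp HH at h2
            simp only at h2
            omega
        exact hnoX ⟨z.2, y', l0.trans hzlk⟩
  · push Not at hbr
    refine main (fun _ => True) (fun _ _ _ _ _ _ _ => trivial) trivial trivial trivial ?_
    rintro p hp - ⟨h1, h2, h3⟩
    apply hbr p.2 h2 h3
    have : ((e, p.2) : Site) = p := by rw [← h1]
    rw [this]
    exact hp

end Pool.Det5
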