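import Pool.Agent.Work.MP_dd5692_pr.InterfaceA

/-!
# MP_dd5692_pr, part (A), block BRLOC: monotonicity and locality of F1, F2, F3, OO, CLR.  helper17
-/

set_option autoImplicit false

open MeasureTheory MPdd5692

namespace Pool.Det5

namespace BRLOC_

lemma finBox (a b c d : ℤ) : (Box a b c d).Finite := by
  rw [← coe_boxF]
  exact Finset.finite_toSet _

lemma Fr_mono (ρ : ℕ) (h m : ℤ) (P : Set Site) (e : ℤ) {X X' : Set Site} (hX : X ⊆ X') :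
    Fr ρ h m P e X ⊆ Fr ρ h m P e X' := by
  rintro z ⟨y, hy⟩
  exact ⟨y, hy.mono (Set.inter_subset_inter_left _ hX)⟩

lemma Fr_loc (ρ : ℕ) (h m : ℤ) (P : Set Site) (e : ℤ) {X X' : Set Site}
    (hX : X ∩ Box 0 m 0 (HH ρ h) = X' ∩ Box 0 m 0 (HH ρ h)) :
    Fr ρ h m P e X = Fr ρ h m P e X' := by
  have key : X ∩ (Box 0 m 0 (HH ρ h) \ (curve ρ h P e ∪ ZZ ρ h e))
      = X' ∩ (Box 0 m 0 (HH ρ h) \ (curve ρ h P e ∪ ZZ ρ h e)) := by
    rw [← Set.inter_sdiff_assoc, ← Set.inter_sdiff_assoc, hX]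
  unfold Fr
  rw [key]

end BRLOC_

open BRLOC_ in
theorem stmt_BRLOC : Stmt_BRLOC := by
  intro ρ h m P e
  refine ⟨⟨?_, ?_⟩, ⟨?_, ?_⟩, ⟨?_, ?_⟩, ⟨?_, ?_⟩, ?_, ?_⟩
  · rintro W W' hW ⟨z, hz, p⟩
    exact ⟨z, Fr_mono ρ h m P e hW hz, p⟩
  · refine ⟨Box 0 m 0 (HH ρ h), finBox _ _ _ _, fun W W' hW => ?_⟩
    unfold F1
    rw [Fr_loc ρ h m P e hW]
  · rintro W W' hW ⟨z, hz, p⟩
    exact ⟨z, Fr_mono ρ h m P e hW hz, p⟩
  · refine ⟨Box 0 m 0 (HH ρ h), finBox _ _ _ _, fun W W' hW => ?_⟩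
    unfold F2
    rw [Fr_loc ρ h m P e hW]
  · rintro W W' hW ⟨z, hz, p⟩
    exact ⟨z, Fr_mono ρ h m P e hW hz, p⟩
  · refine ⟨Box 0 m 0 (HH ρ h), finBox _ _ _ _, fun W W' hW => ?_⟩
    unfold F3
    rw [Fr_loc ρ h m P e hW]
  · intro W W' hW hO z hz hzW
    exact hO z hz (hW hzW)
  · refine ⟨Box e (e + ρ + 1) h (h + 2 * ρ + 1), finBox _ _ _ _, fun W W' hW => ?_⟩
    have key : ∀ W W' : Set Site, W ∩ Box e (e + ρ + 1) h (h + 2 * ρ + 1)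
        = W' ∩ Box e (e + ρ + 1) h (h + 2 * ρ + 1) → OO ρ h e W → OO ρ h e W' := by
      intro W W' hW hO z hz hzW
      have hzB : z ∈ Box e (e + ρ + 1) h (h + 2 * ρ + 1) := by
        rw [mem_Box]
        rcases hz with ⟨h1 | h1, h2, h3⟩ | ⟨h1, h2, h3⟩ <;> refine ⟨?_, ?_, ?_, ?_⟩ <;> omega
      have : z ∈ W ∩ Box e (e + ρ + 1) h (h + 2 * ρ + 1) := by
        rw [hW]; exact ⟨hzW, hzB⟩
      exact hO z hz this.1
    exact ⟨key W W' hW, key W' W hW.symm⟩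
  · intro ω ω' hω hE z hz
    by_contra hcon
    have h1 : ω' z = true := by simpa using hcon
    have h2 := hω z h1
    have h3 := hE z hz
    rw [h2] at h3
    exact absurd h3 (by simp)
  · refine ⟨Box (e - ρ) (e + 2 * ρ + 1) (h - ρ) (h + 3 * ρ + 1), finBox _ _ _ _, ?_⟩
    intro ω ω' hω
    constructor
    · intro hE z hz
      rw [← hω z hz]; exact hE z hz
    · intro hE z hz
      rw [hω z hz]; exact hE z hz

end Pool.Det5
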