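import Pool.Agent.Work.MP_dd5692_pr.InterfaceA

/-!
# MP_dd5692_pr, part (A): block BRLOW (helper13)
-/

set_option autoImplicit false

namespace Pool.Det5

open MeasureTheory MPdd5692

theorem BRLOW_.dep_mono {D D' : Set Site} {E : Set Cfg} (h : D ⊆ D') (hE : Dep D E) : Dep D' E :=
  fun ω ω' hω => hE ω ω' (fun z hz => hω z (h hz))

/-- union bound for three properties -/
theorem BRLOW_.union3 (S : Shape) (q : unitInterval) (P P1 P2 P3 : Set Site → Prop)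
    (h : ∀ W, P W → P1 W ∨ P2 W ∨ P3 W) :
    pr S q P ≤ pr S q P1 + pr S q P2 + pr S q P3 := by
  unfold pr
  have h1 : (mu q).real {ω | P (vac S ω)} ≤
      (mu q).real (({ω | P1 (vac S ω)} ∪ {ω | P2 (vac S ω)}) ∪ {ω | P3 (vac S ω)}) := by
    apply measureReal_mono _ (measure_ne_top _ _)
    intro ω hω
    rcases h _ hω with h | h | h
    · exact Or.inl (Or.inl h)
    · exact Or.inl (Or.inr h)
    · exact Or.inr h
  refine h1.trans ((measureReal_union_le _ _).trans ?_)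
  gcongr
  exact measureReal_union_le _ _

theorem stmt_BRLOW (hBRSUM : Stmt_BRSUM) (hBRP : Stmt_BRP) (hBRCOV : Stmt_BRCOV)
    (hBRY1 : Stmt_BRY1) (hBRY2 : Stmt_BRY2) (hBRF13 : Stmt_BRF13) (hBRLOC : Stmt_BRLOC)
    (hBRCB : Stmt_BRCB) (hVLOC : Stmt_VLOC) (hHAR : Stmt_HAR) : Stmt_BRLOW := by
  intro S q cb w h m hcb hcb' hw hh hm
  have hp0 : 0 ≤ f S q m (HH S.ρ h) := measureReal_nonneg
  have hcb1 : cb ≤ 1 := hcb'.trans (pow_le_one₀ (by linarith [q.2.2]) (by linarith [q.2.1]))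
  refine hBRSUM S q w h m (HH S.ρ h) (cb / 4 * f S q m (HH S.ρ h)) hw (by linarith)
    (by positivity) ?_
  intro u huB huR huw
  obtain ⟨P, e, hP⟩ := hBRP w h u hw hh huB huw
  obtain ⟨⟨hM1, hL1⟩, ⟨hM2, hL2⟩, -, -, hCI, D', hD'f, hD'⟩ := hBRLOC S.ρ h m P e
  have hcov : f S q m (HH S.ρ h) ≤ pr S q (F1 S.ρ h m P e) + pr S q (F2 S.ρ h m P e) +
      pr S q (F3 S.ρ h m P e) :=
    BRLOW_.union3 S q _ _ _ _ (fun W hW => hBRCOV S.ρ w h m u P e W hw hh hm hP hW)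
  rw [← hBRF13 S q h m P e] at hcov
  by_cases h1 : f S q m (HH S.ρ h) / 4 ≤ pr S q (F1 S.ρ h m P e)
  · refine ⟨{ω | F1 S.ρ h m P e (vac S ω)}, (hVLOC S _).2.2.2 hL1, ?_, ?_⟩
    · calc cb / 4 * f S q m (HH S.ρ h) ≤ 1 / 4 * f S q m (HH S.ρ h) := by gcongr
        _ ≤ pr S q (F1 S.ρ h m P e) := by linarith
    · intro ω ω' hω hω'
      exact hBRY1 S w h m u P e ω ω' hw hh hm hω hP hω'
  · have h2 : f S q m (HH S.ρ h) / 2 ≤ pr S q (F2 S.ρ h m P e) := by
      push Not at h1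
      linarith
    obtain ⟨B, hBf, hBL⟩ := hL2
    have hdep := (hVLOC S (F2 S.ρ h m P e)).1 B hBL
    have hfin := (hVLOC S (F2 S.ρ h m P e)).2.1 B hBf
    refine ⟨{ω | F2 S.ρ h m P e (vac S ω)} ∩ CLR S.ρ h e, ?_, ?_, ?_⟩
    · -- measurability of CLR
      have hm2 : MeasurableSet {ω | F2 S.ρ h m P e (vac S ω)} :=
        (hVLOC S _).2.2.2 ⟨B, hBf, hBL⟩
      refine hm2.inter ?_
      have : CLR S.ρ h e = ⋂ z ∈ Box (e - S.ρ) (e + 2 * S.ρ + 1) (h - S.ρ) (h + 3 * S.ρ + 1),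
          {ω : Cfg | ω z = false} := by
        ext ω
        simp only [CLR, Set.mem_ofPred_eq, Set.mem_iInter]
      rw [this]
      refine MeasurableSet.biInter (Set.to_countable _) fun z _ => ?_
      have hz := (measurable_pi_apply z : Measurable (fun ω : Cfg => ω z))
        (measurableSet_singleton false)
      exact hz
    · have hhar := hHAR q ({y | ∃ z ∈ B, ∃ k ∈ S.K, y = z + k} ∪ D')
        {ω | F2 S.ρ h m P e (vac S ω)} (CLR S.ρ h e) (hfin.union hD'f)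
        (BRLOW_.dep_mono Set.subset_union_left hdep) (BRLOW_.dep_mono Set.subset_union_right hD')
        ((hVLOC S _).2.2.1 hM2) hCI
      refine le_trans ?_ hhar
      have h3 : cb ≤ (mu q).real (CLR S.ρ h e) := hcb'.trans (hBRCB S q h e)
      have h4 : f S q m (HH S.ρ h) / 2 ≤ (mu q).real {ω | F2 S.ρ h m P e (vac S ω)} := h2
      calc cb / 4 * f S q m (HH S.ρ h) ≤ f S q m (HH S.ρ h) / 2 * cb := by nlinarith
        _ ≤ _ := mul_le_mul h4 h3 hcb.le measureReal_nonneg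
    · intro ω ω' hω hω'
      exact hBRY2 S w h m u P e ω ω' hw hh hm hω hP hω'.1 hω'.2

end Pool.Det5
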