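import Pool.Agent.Work.MP_dd5692_pr.InterfaceA

/-! Block BRO (helper6): F2 is impossible if the sites next to the bridge are not vacant. -/

set_option autoImplicit false

namespace Pool.Det5

open MeasureTheory MPdd5692

theorem stmt_BRO (hPL1 : Stmt_PL1) (hBRC : Stmt_BRC) : Stmt_BRO := by
  intro ρ w h m u P e X hw hh hwm hP hOO hF2
  have hPB : ∀ z ∈ P, 0 ≤ z.1 ∧ z.1 ≤ w ∧ 0 ≤ z.2 ∧ z.2 ≤ h := fun z hz => (hP.sub hz).1
  have hH : HH ρ h = 2 * h + 2 * ρ + 1 := rfl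
  have hρ : (0:ℤ) ≤ (ρ : ℤ) := Int.natCast_nonneg ρ
  obtain ⟨z, ⟨y, hz⟩, p, hp, hzp⟩ := hF2
  have hzr := hz.right
  obtain ⟨hzX, hzB, hzn⟩ := hzr
  have hzc : z ∉ curve ρ h P e := fun h' => hzn (Or.inl h')
  have hzZ : z ∉ ZZ ρ h e := fun h' => hzn (Or.inr h')
  unfold ZZ at hp hzZ
  rw [mem_Box] at hp hzZ
  have hO : ¬ (((z.2 = h ∨ z.2 = h + 2 * ρ + 1) ∧ e ≤ z.1 ∧ z.1 ≤ e + ρ) ∨
    (z.1 = e + ρ + 1 ∧ h + 1 ≤ z.2 ∧ z.2 ≤ h + 2 * ρ)) := fun h' => hOO z h' hzX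
  rw [adj4_iff] at hzp
  -- z is on the left of the bridge
  have hleft : z.1 = e - 1 ∧ h + 1 ≤ z.2 ∧ z.2 ≤ h + 2 * ρ := by omega
  rw [mem_Box] at hzB
  -- horizontal crossing
  have hHC : HC Adj8 (curve ρ h P e)ᶜ 0 m 0 (HH ρ h) := by
    refine ⟨z.2, y, ?_⟩
    have hA : Linked Adj4 ((curve ρ h P e)ᶜ ∩ Box 0 m 0 (HH ρ h)) (0, z.2) (z.1, z.2) := by
      refine lnk_hseg hzB.1 ?_
      intro t ht1 ht2
      refine ⟨?_, ?_⟩
      · rintro (h1 | h1 | h1)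
        · have := (hPB _ h1).2.2.2
          simp only at this; omega
        · have := h1.1
          simp only at this; omega
        · have := (hPB _ h1).2.2.2
          unfold flp at this
          simp only at this
          rw [hH] at this; omega
      · rw [mem_Box]; simp only; omega
    have hB : Linked Adj4 ((curve ρ h P e)ᶜ ∩ Box 0 m 0 (HH ρ h)) z (m, y) := by
      refine (hz.symm4).mono ?_
      rintro s ⟨-, hs1, hs2⟩
      exact ⟨fun h' => hs2 (Or.inl h'), hs1⟩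
    exact (hA.trans hB).to8
  obtain ⟨s, -, hs1, hs2⟩ := hPL1 _ _ 0 m 0 (HH ρ h) hHC (hBRC ρ w h m u P e hh (by omega) hP)
  exact hs1 hs2

end Pool.Det5
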