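import Pool.Agent.Work.MP_dd5692_pr.InterfaceA

/-! Block BRP (helper9): existence of the left-most crossing. -/

set_option autoImplicit false

namespace Pool.Det5

open MeasureTheory MPdd5692
open scoped ENNReal

theorem stmt_BRP (hPL2 : Stmt_PL2) : Stmt_BRP := by
  intro w h u hw hh hu hlt
  obtain ⟨x, x', hx⟩ := hPL2 u 0 w 0 h hw (by omega) hu hlt
  set W : Set Site := bdL u 0 w 0 h ∩ Box 0 w 0 h with hW
  set C : Set Site := {z | z.2 < h} with hC
  have hxC : ((x, 0) : Site) ∈ C := by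
    show (0 : ℤ) < h
    omega
  have hx'C : ((x', h) : Site) ∉ C := by
    intro hcon
    have : h < h := hcon
    omega
  obtain ⟨p, y, hp, hpy, hyW, hyC, -⟩ := hx.exit hxC hx'C
  have hyh : y.2 = h := by
    have h1 : y.2 ≤ h := hyW.2.2.2.2
    have h2 : ¬ y.2 < h := hyC
    omega
  have hye : y = (y.1, h) := Prod.ext rfl hyh
  have hsub : cl Adj4 (W ∩ C) (x, 0) ⊆ W ∩ C := cl_subset
  refine ⟨cl Adj4 (W ∩ C) (x, 0) ∪ {y}, y.1, ?_, ?_, ?_, ?_, ?_⟩
  · rintro z (hz | hz)
    · exact (hsub hz).1.1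
    · rw [Set.mem_singleton_iff] at hz
      rw [hz]; exact hyW.1
  · exact ⟨x, Or.inl (Linked.refl ⟨hx.left, hxC⟩)⟩
  · right
    rw [Set.mem_singleton_iff]
    exact hye.symm
  · rintro z (hz | hz) hz2
    · exfalso
      have : z.2 < h := (hsub hz).2
      omega
    · rw [Set.mem_singleton_iff] at hz
      rw [hz]
  · have hin : Linked Adj4 (cl Adj4 (W ∩ C) (x, 0) ∪ {y}) (x, 0) p :=
      hp.in_cl.mono Set.subset_union_left
    have hyp : Linked Adj4 (cl Adj4 (W ∩ C) (x, 0) ∪ {y}) y p :=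
      Linked.single (Or.inr rfl) (Or.inl hp) hpy.symm
    have hyx : Linked Adj4 (cl Adj4 (W ∩ C) (x, 0) ∪ {y}) y (x, 0) := hyp.trans hin.symm4
    intro z hz
    have : ((y.1, h) : Site) = y := hye.symm
    rw [this]
    rcases hz with hz | hz
    · have hz' : Linked Adj4 (W ∩ C) (x, 0) z := hz
      exact hyx.trans (hz'.in_cl.mono Set.subset_union_left)
    · rw [Set.mem_singleton_iff] at hz
      rw [hz]
      exact Linked.refl (Or.inr rfl)

end Pool.Det5
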