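import Pool.Agent.Work.MP_dd5692_pr.InterfaceA

/-! Block BRSUM (helper63): summation over the explored set. -/

set_option autoImplicit false

namespace Pool.Det5

open MeasureTheory MPdd5692
open scoped ENNReal

theorem stmt_BRSUM (hEXPL : Stmt_EXPL) (hRES : Stmt_RES) (hMEAS : Stmt_MEAS) (hLOCS : Stmt_LOCS)
    (hVLOC : Stmt_VLOC) (hPHC : Stmt_PHC) : Stmt_BRSUM := by
  classical
  intro S q w h m H x hw hh hx hE
  obtain ⟨hE1, hE2⟩ := hEXPL S w h hw hh
  have hfin : (Box 0 w 0 h).Finite := by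
    obtain ⟨-, -, -, -, -, -, -, -, -, -, -, -, -, hB, -⟩ := hLOCS Adj4 0 w 0 h 0 w h m H 0
    exact hB
  have hYm : MeasurableSet {ω : Cfg | YY w h m H (vac S ω)} := by
    obtain ⟨-, -, -, -, -, hY, -⟩ := hLOCS Adj4 0 w 0 h 0 w h m H 0
    exact (hVLOC S (YY w h m H)).2.2.2 hY
  set Y : Set Cfg := {ω : Cfg | YY w h m H (vac S ω)} with hYdef
  set U : Finset (Set Site) := hfin.finite_subsets.toFinset.filter
    (fun u => Rooted u ∧ ∀ z ∈ u, z.1 < w) with hU
  have hmemU : ∀ u, u ∈ U ↔ u ⊆ Box 0 w 0 h ∧ Rooted u ∧ ∀ z ∈ u, z.1 < w := by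
    intro u
    rw [hU, Finset.mem_filter, Set.Finite.mem_toFinset]
    rfl
  have hAm : ∀ u ∈ U, MeasurableSet {ω : Cfg | expl S w h ω = u} := by
    intro u hu
    obtain ⟨h1, h2⟩ := hE2 u ((hmemU u).1 hu).1
    exact hMEAS _ _ h1 h2
  -- one term
  have hterm : ∀ u ∈ U, x * (mu q).real {ω : Cfg | expl S w h ω = u} ≤
      (mu q).real ({ω : Cfg | expl S w h ω = u} ∩ Y) := by
    intro u hu
    obtain ⟨hu1, hu2, hu3⟩ := (hmemU u).1 hu
    obtain ⟨h1, h2⟩ := hE2 u hu1
    obtain ⟨E, hEm, hxE, hmix⟩ := hE u hu1 hu2 hu3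
    have h3 := hRES q (DD S w h u) {ω : Cfg | expl S w h ω = u} E Y h1 h2 hEm hYm
      (fun ω ω' hω hω' => hmix ω ω' hω hω')
    refine le_trans ?_ h3
    rw [mul_comm]
    exact mul_le_mul_of_nonneg_left hxE measureReal_nonneg
  -- the crossing event is covered
  have hcov : f S q h w ≤ ∑ u ∈ U, (mu q).real {ω : Cfg | expl S w h ω = u} := by
    have h1 := (hPHC S q 0 w 0 h).2
    rw [sub_zero, sub_zero] at h1
    rw [← h1]
    unfold pr
    have hsub : {ω : Cfg | VC Adj4 (vac S ω) 0 w 0 h} ⊆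
        ⋃ u ∈ U, {ω : Cfg | expl S w h ω = u} := by
      intro ω hω
      obtain ⟨h2, h3, h4⟩ := hE1 ω
      simp only [Set.mem_iUnion]
      exact ⟨expl S w h ω, (hmemU _).2 ⟨h2, h3, h4.1 hω⟩, rfl⟩
    refine (measureReal_mono hsub (measure_ne_top _ _)).trans ?_
    exact measureReal_biUnion_finset_le _ _
  calc x * f S q h w ≤ x * ∑ u ∈ U, (mu q).real {ω : Cfg | expl S w h ω = u} :=
        mul_le_mul_of_nonneg_left hcov hx
    _ = ∑ u ∈ U, x * (mu q).real {ω : Cfg | expl S w h ω = u} := by rw [Finset.mul_sum]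
    _ ≤ ∑ u ∈ U, (mu q).real ({ω : Cfg | expl S w h ω = u} ∩ Y) := Finset.sum_le_sum hterm
    _ = (mu q).real (⋃ u ∈ U, ({ω : Cfg | expl S w h ω = u} ∩ Y)) := by
        rw [measureReal_biUnion_finset]
        · intro u _ v _ huv
          refine Set.disjoint_left.2 fun ω hω hω' => huv ?_
          have h5 : expl S w h ω = u := hω.1
          have h6 : expl S w h ω = v := hω'.1
          rw [← h5, ← h6]
        · exact fun u hu => (hAm u hu).inter hYm
    _ ≤ (mu q).real Y := by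
        refine measureReal_mono ?_ (measure_ne_top _ _)
        exact Set.iUnion₂_subset fun u _ => Set.inter_subset_right
    _ = pr S q (YY w h m H) := rfl

end Pool.Det5
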