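import Pool.Agent.Work.MP_dd5692_pr.InterfaceA

/-!
# MP_dd5692_pr, part (A), block BRTR (helper45)
-/

set_option autoImplicit false

open MeasureTheory MPdd5692

namespace Pool.Det5

namespace BRTR_

theorem expl_sub (S : Shape) (w h : ℤ) (ω : Cfg) : expl S w h ω ⊆ Box 0 w 0 h := by
  rintro z ⟨y, hy⟩
  exact hy.right.2

theorem expl_rooted (S : Shape) (w h : ℤ) (ω : Cfg) : Rooted (expl S w h ω) := by
  rintro s ⟨y, hy⟩
  refine ⟨y, (hy.in_cl).mono ?_⟩
  intro z hz
  exact ⟨y, hz⟩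

/-- boundary sites of the explored set are vacant -/
theorem bd_vac (S : Shape) (w h : ℤ) (ω : Cfg) (z : Site) (hz : z ∈ bdL (expl S w h ω) 0 w 0 h) :
    z ∈ vac S ω := by
  obtain ⟨hzB, hzu, hz'⟩ := hz
  by_contra hv
  apply hzu
  rcases hz' with h0 | ⟨x, ⟨y, hy⟩, hx⟩
  · refine ⟨z.2, ?_⟩
    have he : ((0, z.2) : Site) = z := by rw [← h0]
    rw [he]
    exact Linked.refl ⟨hv, hzB⟩
  · exact ⟨y, hy.step hx.symm ⟨hv, hzB⟩⟩

end BRTR_

theorem stmt_BRTR (hBRKEY : Stmt_BRKEY) : Stmt_BRTR := by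
  intro S w h m u P e ω ω' hw hh hm hu hP
  subst hu
  constructor
  · intro z hz k hk
    have hv := BRTR_.bd_vac S w h ω z hz
    have hD : z + k ∈ DD S w h (expl S w h ω) := ⟨z, Or.inr hz, k, hk, rfl⟩
    unfold mix
    rw [if_pos hD]
    exact hv k hk
  · intro z hzB hzc hzZ hlk hzv k hk
    unfold mix
    by_cases hD : z + k ∈ DD S w h (expl S w h ω)
    · rw [if_pos hD]
      by_cases hT : ∃ t ∈ bdL (expl S w h ω) 0 w 0 h, ∃ k' ∈ S.K, z + k = t + k'
      · obtain ⟨t, ht, k', hk', he⟩ := hT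
        rw [he]
        exact BRTR_.bd_vac S w h ω t ht k' hk'
      · exfalso
        push Not at hT
        obtain ⟨s, hs, k', hk', he⟩ := hD
        rcases hs with hs | hs
        · exact hBRKEY S w h m (expl S w h ω) P e hw hh hm (BRTR_.expl_sub S w h ω)
            (BRTR_.expl_rooted S w h ω) hP (z + k) z ⟨s, hs, k', hk', he⟩ hT hzB hzc hzZ hlk k hk rfl
        · exact hT s hs k' hk' he
    · rw [if_neg hD]
      exact hzv k hk

end Pool.Det5
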