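import Pool.Agent.Work.MP_dd5692_pr.InterfaceA

/-!
# MP_dd5692_pr, part (A): block BRY1 (helper13)
-/

set_option autoImplicit false

namespace Pool.Det5

open MeasureTheory MPdd5692

/-- the path of `Fr` is vacant for the resampled configuration -/
theorem BRY1_.fr_linked (hBRTR : Stmt_BRTR) (S : Shape) (w h m : ℤ) (u P : Set Site) (e : ℤ)
    (ω ω' : Cfg) (hw : 0 ≤ w) (hh : 1 ≤ h) (hm : w + S.ρ + 1 ≤ m) (hu : expl S w h ω = u)
    (hP : IsPi w h u P e) {y : ℤ} {z : Site}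
    (hz : Linked Adj4 (vac S ω' ∩ (Box 0 m 0 (HH S.ρ h) \ (curve S.ρ h P e ∪ ZZ S.ρ h e)))
      (m, y) z) :
    Linked Adj4 (vac S (mix (DD S w h u) ω ω') ∩ Box 0 m 0 (HH S.ρ h)) (m, y) z := by
  obtain ⟨-, hB⟩ := hBRTR S w h m u P e ω ω' hw hh hm hu hP
  have key : ∀ v : Site, Linked Adj4 (vac S ω' ∩ (Box 0 m 0 (HH S.ρ h) \
      (curve S.ρ h P e ∪ ZZ S.ρ h e))) (m, y) v →
      v ∈ vac S (mix (DD S w h u) ω ω') ∩ Box 0 m 0 (HH S.ρ h) := by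
    intro v hv
    obtain ⟨h1, h2, h3⟩ := hv.right
    refine ⟨hB v h2 (fun h => h3 (Or.inl h)) (fun h => h3 (Or.inr h)) ⟨y, ?_⟩ h1, h2⟩
    exact hv.mono (fun t ht => ⟨ht.2.1, fun h => ht.2.2 (Or.inl h)⟩)
  have h0 : Linked Adj4 (vac S ω' ∩ (Box 0 m 0 (HH S.ρ h) \
      (curve S.ρ h P e ∪ ZZ S.ρ h e))) (m, y) (m, y) := Linked.refl hz.left
  refine hz.ind (P := fun v => Linked Adj4 (vac S (mix (DD S w h u) ω ω') ∩
    Box 0 m 0 (HH S.ρ h)) (m, y) v) (Linked.refl (key _ h0)) ?_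
  intro a b ha ih hab hb
  exact ih.step hab (key b (ha.step hab hb))

/-- the curve `P` is vacant for the resampled configuration -/
theorem BRY1_.P_sub (hBRTR : Stmt_BRTR) (S : Shape) (w h m : ℤ) (u P : Set Site) (e : ℤ)
    (ω ω' : Cfg) (hw : 0 ≤ w) (hh : 1 ≤ h) (hm : w + S.ρ + 1 ≤ m) (hu : expl S w h ω = u)
    (hP : IsPi w h u P e) : P ⊆ vac S (mix (DD S w h u) ω ω') ∩ Box 0 w 0 h := by
  obtain ⟨hA, -⟩ := hBRTR S w h m u P e ω ω' hw hh hm hu hP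
  intro p hp
  exact ⟨hA p (hP.sub hp), (hP.sub hp).1⟩

theorem stmt_BRY1 (hBRTR : Stmt_BRTR) : Stmt_BRY1 := by
  intro S w h m u P e ω ω' hw hh hm hu hP hF
  have hPW := BRY1_.P_sub hBRTR S w h m u P e ω ω' hw hh hm hu hP
  obtain ⟨z, ⟨y, hz⟩, p, hp, hzp⟩ := hF
  have hz' := BRY1_.fr_linked hBRTR S w h m u P e ω ω' hw hh hm hu hP hz
  obtain ⟨x, hx⟩ := hP.foot
  have hbig : Box 0 w 0 h ⊆ Box 0 m 0 (HH S.ρ h) := by
    apply Box_mono le_rfl _ le_rfl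
    · unfold HH
      have : (0 : ℤ) ≤ (S.ρ : ℤ) := by positivity
      linarith
    · have : (0 : ℤ) ≤ (S.ρ : ℤ) := by positivity
      linarith
  have h1 : Linked Adj4 P (x, 0) (e, h) := (hP.conn _ hx).symm4
  refine ⟨x, e, y, h1.mono hPW, ?_⟩
  have h2 : Linked Adj4 P (x, 0) p := h1.trans (hP.conn _ hp)
  have h3 : Linked Adj4 (vac S (mix (DD S w h u) ω ω') ∩ Box 0 m 0 (HH S.ρ h)) (x, 0) p :=
    h2.mono (hPW.trans (Set.inter_subset_inter_right _ hbig))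
  exact (h3.step hzp.symm hz'.right).trans hz'.symm4

end Pool.Det5
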