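import Pool.Agent.Work.MP_dd5692_pr.InterfaceA

/-!
# MP_dd5692_pr, part (A), block BRY2 (helper75)
-/

set_option autoImplicit false

open MeasureTheory MPdd5692

namespace Pool.Det5

namespace BRY2_

theorem rho_pos (S : Shape) : (1:ℤ) ≤ S.ρ := by
  have h1 := S.inner ((S.ρ0:ℤ), (S.ρ0:ℤ)) (by simp) (by simp)
  have h2 := (S.outer _ h1).1
  have h3 := S.pos
  have h4 : |((S.ρ0:ℤ))| ≤ (S.ρ:ℤ) := h2
  rw [abs_of_nonneg (by omega)] at h4
  omega

end BRY2_

theorem stmt_BRY2 (hBRTR : Stmt_BRTR) (hPL1 : Stmt_PL1) (hBRC : Stmt_BRC) : Stmt_BRY2 := by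
  intro S w h m u P e ω ω' hw hh hm hu hP hF hC
  obtain ⟨hb1, hb2⟩ := hBRTR S w h m u P e ω ω' hw hh hm hu hP
  have hρ1 := BRY2_.rho_pos S
  have hPbox : ∀ v ∈ P, v ∈ Box 0 w 0 h := fun v hv => (hP.sub hv).1
  have hebox := hPbox _ hP.top
  have he0 : 0 ≤ e := hebox.1
  have hew : e ≤ w := hebox.2.1
  obtain ⟨ρ, hρ⟩ : ∃ ρ : ℤ, ρ = (S.ρ : ℤ) := ⟨_, rfl⟩
  obtain ⟨W, hW⟩ : ∃ W, W = vac S (mix (DD S w h u) ω ω') := ⟨_, rfl⟩
  obtain ⟨G, hGd⟩ : ∃ G : Set Site, G = vac S ω' ∩ (Box 0 m 0 (HH S.ρ h) \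
    (curve S.ρ h P e ∪ ZZ S.ρ h e)) := ⟨_, rfl⟩
  have hH : HH S.ρ h = 2 * h + 2 * ρ + 1 := by rw [hρ]; rfl
  -- the loop is in `G`
  have hG : ∀ v : Site, e + 1 ≤ v.1 → v.1 ≤ e + ρ + 1 → h ≤ v.2 → v.2 ≤ h + 2 * ρ + 1 →
      (v.1 = e + ρ + 1 ∨ v.2 = h ∨ v.2 = h + 2 * ρ + 1) → v ∈ G := by
    intro v h1 h2 h3 h4 h5
    rw [hGd]
    refine ⟨?_, ⟨?_, ?_⟩⟩
    · intro k hk
      have hk' := S.outer k hk
      have hk1 := abs_le.mp hk'.1
      have hk2 := abs_le.mp hk'.2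
      refine hC (v + k) ?_
      rw [mem_Box]
      have e1 : (v + k).1 = v.1 + k.1 := rfl
      have e2 : (v + k).2 = v.2 + k.2 := rfl
      rw [e1, e2]
      omega
    · rw [mem_Box, hH]; omega
    · rintro ((hp | hp | hp) | hz)
      · have h6 := hPbox v hp
        rw [mem_Box] at h6
        have h7 := hP.uniq v hp (by omega)
        omega
      · omega
      · have h6 := hPbox _ hp
        rw [mem_Box] at h6
        have e1 : (flp S.ρ h v).1 = v.1 := rfl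
        have e2 : (flp S.ρ h v).2 = HH S.ρ h - v.2 := rfl
        rw [e1, e2, hH] at h6
        have h7 := hP.uniq _ hp (by rw [e2, hH]; omega)
        rw [e1] at h7
        omega
      · have h6 : v ∈ Box e (e + S.ρ) (h + 1) (h + 2 * S.ρ) := hz
        rw [mem_Box] at h6
        omega
  obtain ⟨z, ⟨y, hl⟩, p, hp, hadj⟩ := hF
  rw [← hGd] at hl
  have hzG := hl.right
  have hzG' := hzG
  rw [hGd] at hzG'
  obtain ⟨hzX, hzR, hzn⟩ := hzG'
  have hp' : p ∈ Box e (e + S.ρ) (h + 1) (h + 2 * S.ρ) := hp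
  rw [mem_Box, ← hρ] at hp'
  have hznZ : ¬ (e ≤ z.1 ∧ z.1 ≤ e + ρ ∧ h + 1 ≤ z.2 ∧ z.2 ≤ h + 2 * ρ) := by
    intro hcon
    apply hzn
    right
    show z ∈ Box e (e + S.ρ) (h + 1) (h + 2 * S.ρ)
    rw [mem_Box, ← hρ]
    exact hcon
  rw [mem_Box, hH] at hzR
  have hcl : ∀ v, Linked Adj4 G (m, y) v → v ∈ W ∩ Box 0 m 0 (HH S.ρ h) := by
    intro v hv
    have hvG := hv.right
    have hvG' := hvG
    rw [hGd] at hvG'
    obtain ⟨hvX, hvR, hvn⟩ := hvG'
    refine ⟨?_, hvR⟩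
    rw [hW]
    refine hb2 v hvR (fun hc => hvn (Or.inl hc)) (fun hc => hvn (Or.inr hc)) ⟨y, ?_⟩ hvX
    refine hv.mono ?_
    intro x hx
    rw [hGd] at hx
    exact ⟨hx.2.1, fun hc => hx.2.2 (Or.inl hc)⟩
  -- link of `z` to the first site of the loop
  have hzl : Linked Adj4 G (e + 1, h) z := by
    have c01 : Linked Adj4 G (e + 1, h) (e + ρ + 1, h) := by
      refine lnk_hseg (by omega) fun t h1 h2 => ?_
      exact hG _ h1 h2 le_rfl (by show h ≤ h + 2 * ρ + 1; omega) (Or.inr (Or.inl rfl))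
    have hcase : (z.1 = e - 1 ∧ h + 1 ≤ z.2 ∧ z.2 ≤ h + 2 * ρ) ∨
        (z.2 = h ∧ e ≤ z.1 ∧ z.1 ≤ e + ρ) ∨ (z.2 = h + 2 * ρ + 1 ∧ e ≤ z.1 ∧ z.1 ≤ e + ρ) ∨
        (z.1 = e + ρ + 1 ∧ h + 1 ≤ z.2 ∧ z.2 ≤ h + 2 * ρ) := by
      rw [adj4_iff] at hadj
      omega
    rcases hcase with ⟨h1, h2, h3⟩ | ⟨h1, h2, h3⟩ | ⟨h1, h2, h3⟩ | ⟨h1, h2, h3⟩
    · exfalso
      have hHC : HC Adj8 (curve S.ρ h P e)ᶜ 0 m 0 (HH S.ρ h) := by
        refine ⟨z.2, y, ?_⟩
        have l1 : Linked Adj4 ((curve S.ρ h P e)ᶜ ∩ Box 0 m 0 (HH S.ρ h)) (0, z.2) (z.1, z.2) := by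
          refine lnk_hseg (by omega) fun t h4 h5 => ?_
          refine ⟨?_, ?_⟩
          · rintro (hq | hq | hq)
            · have h6 := hPbox _ hq
              rw [mem_Box] at h6
              have : z.2 ≤ h := h6.2.2.2
              omega
            · have : t = e := hq.1
              omega
            · have h6 := hPbox _ hq
              rw [mem_Box] at h6
              have h7 : HH S.ρ h - z.2 ≤ h := h6.2.2.2
              rw [hH] at h7
              omega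
          · rw [mem_Box, hH]
            show 0 ≤ t ∧ t ≤ m ∧ 0 ≤ z.2 ∧ z.2 ≤ 2 * h + 2 * ρ + 1
            omega
        have l2 : Linked Adj4 ((curve S.ρ h P e)ᶜ ∩ Box 0 m 0 (HH S.ρ h)) z (m, y) := by
          refine hl.symm4.mono ?_
          intro x hx
          rw [hGd] at hx
          exact ⟨fun hc => hx.2.2 (Or.inl hc), hx.2.1⟩
        exact (l1.trans l2).to8
      obtain ⟨v, -, h4, h5⟩ := hPL1 _ _ _ _ _ _ hHC (hBRC S.ρ w h m u P e hh (by omega) hP)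
      exact h4 h5
    · have hne : z.1 ≠ e := by
        intro hze
        apply hzn
        left; left
        have : z = (e, h) := Prod.ext hze h1
        rw [this]
        exact hP.top
      have : z = (z.1, h) := Prod.ext rfl h1
      rw [this]
      refine lnk_hseg (by omega) fun t h4 h5 => ?_
      exact hG _ h4 (by show t ≤ e + ρ + 1; omega) le_rfl (by show h ≤ h + 2 * ρ + 1; omega)
        (Or.inr (Or.inl rfl))
    · have hne : z.1 ≠ e := by
        intro hze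
        apply hzn
        left; right; right
        have : flp S.ρ h z = (e, h) := by
          refine Prod.ext hze ?_
          show HH S.ρ h - z.2 = h
          rw [hH]; omega
        rw [this]
        exact hP.top
      have c12 : Linked Adj4 G (e + ρ + 1, h) (e + ρ + 1, h + 2 * ρ + 1) := by
        refine lnk_vseg (by omega) fun t h4 h5 => ?_
        exact hG _ (by show e + 1 ≤ e + ρ + 1; omega) le_rfl h4 h5 (Or.inl rfl)
      have c3 : Linked Adj4 G (z.1, h + 2 * ρ + 1) (e + ρ + 1, h + 2 * ρ + 1) := by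
        refine lnk_hseg (by omega) fun t h4 h5 => ?_
        exact hG _ (by show e + 1 ≤ t; omega) h5 (by show h ≤ h + 2 * ρ + 1; omega) le_rfl
          (Or.inr (Or.inr rfl))
      have : z = (z.1, h + 2 * ρ + 1) := Prod.ext rfl h1
      rw [this]
      exact (c01.trans c12).trans c3.symm4
    · have : z = (e + ρ + 1, z.2) := Prod.ext h1 rfl
      rw [this]
      refine c01.trans (lnk_vseg (by omega) fun t h4 h5 => ?_)
      exact hG _ (by show e + 1 ≤ e + ρ + 1; omega) le_rfl h4 (by show t ≤ h + 2 * ρ + 1; omega)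
        (Or.inl rfl)
  have hml : Linked Adj4 G (m, y) (e + 1, h) := hl.trans hzl.symm4
  have hml' : Linked Adj4 (W ∩ Box 0 m 0 (HH S.ρ h)) (m, y) (e + 1, h) := by
    refine hml.in_cl.mono ?_
    intro v hv
    exact hcl v hv
  obtain ⟨x0, hx0⟩ := hP.foot
  have hPl : Linked Adj4 P ((x0, 0) : Site) (e, h) := (hP.conn _ hx0).symm4
  have hPW : ∀ v ∈ P, v ∈ W := by
    intro v hv
    rw [hW]
    exact hb1 v (hP.sub hv)
  refine ⟨x0, e, y, ?_, ?_⟩
  · rw [← hW]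
    exact hPl.mono fun v hv => ⟨hPW v hv, hPbox v hv⟩
  · rw [← hW]
    have hPl' : Linked Adj4 (W ∩ Box 0 m 0 (HH S.ρ h)) ((x0, 0) : Site) (e, h) := by
      refine hPl.mono fun v hv => ⟨hPW v hv, ?_⟩
      have h6 := hPbox v hv
      rw [mem_Box] at h6 ⊢
      rw [hH]
      omega
    refine (hPl'.step ?_ hml'.right).trans hml'.symm4
    rw [adj4_iff]
    right
    exact ⟨rfl, Or.inl rfl⟩

end Pool.Det5
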