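import Pool.Agent.Work.MP_dd5692_pr.InterfaceA

/-!
# MP_dd5692_pr, part (A), block CIRC: four long crossings form a circuit
-/

set_option autoImplicit false

namespace Pool.Det5

open MeasureTheory MPdd5692

namespace CIRC

/-- a horizontal path and a vertical 4-path of a box meet -/
theorem meet (h1 : Stmt_PL1) {A : Site → Site → Prop} (hA : ∀ z w, A z w → Adj8 z w)
    (hA' : ∀ z w, A z w → A (swp z) (swp w)) {X Y : Set Site} {u v u' v' : Site} {a b c d : ℤ}
    (hab : a ≤ b) (hcd : c ≤ d)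
    (hX : Linked A X u v) (hXr : ∀ z ∈ X, c ≤ z.2 ∧ z.2 ≤ d) (hu : u.1 ≤ a) (hv : b ≤ v.1)
    (hY : Linked Adj4 Y u' v') (hYc : ∀ z ∈ Y, a ≤ z.1 ∧ z.1 ≤ b) (hu' : u'.2 ≤ c) (hv' : d ≤ v'.2) :
    ∃ z, Linked A X u z ∧ Linked Adj4 Y u' z := by
  have e1 : HC A (cl A X u) a b c d :=
    subH hA hA' hX.in_cl (fun z hz => hXr z (cl_subset hz)) hu hab hv
  have e2 : VC Adj4 (cl Adj4 Y u') a b c d :=
    subV (fun z w h => h.adj8) hY.in_cl (fun z hz => hYc z (cl_subset hz)) hu' hcd hv'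
  obtain ⟨y, y', e3⟩ := e1
  obtain ⟨z, _, hz1, hz2⟩ := h1 _ _ a b c d ⟨y, y', e3.monoA hA⟩ e2
  exact ⟨z, hz1, hz2⟩

/-- a vertical path and a horizontal 4-path of a box meet -/
theorem meet' (h1 : Stmt_PL1) {A : Site → Site → Prop} (hA : ∀ z w, A z w → Adj8 z w)
    {X Y : Set Site} {u v u' v' : Site} {a b c d : ℤ}
    (hab : a ≤ b) (hcd : c ≤ d)
    (hX : Linked A X u v) (hXc : ∀ z ∈ X, a ≤ z.1 ∧ z.1 ≤ b) (hu : u.2 ≤ c) (hv : d ≤ v.2)
    (hY : Linked Adj4 Y u' v') (hYr : ∀ z ∈ Y, c ≤ z.2 ∧ z.2 ≤ d) (hu' : u'.1 ≤ a) (hv' : b ≤ v'.1) :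
    ∃ z, Linked A X u z ∧ Linked Adj4 Y u' z := by
  have e1 : VC A (cl A X u) a b c d :=
    subV hA hX.in_cl (fun z hz => hXc z (cl_subset hz)) hu hcd hv
  have e2 : HC Adj4 (cl Adj4 Y u') a b c d :=
    subH (fun z w h => h.adj8) (fun z w h => adj4_swp h) hY.in_cl
      (fun z hz => hYr z (cl_subset hz)) hu' hab hv'
  obtain ⟨x, x', e3⟩ := e1
  obtain ⟨z, _, hz1, hz2⟩ := stmt_PL1' h1 _ _ a b c d ⟨x, x', e3.monoA hA⟩ e2
  exact ⟨z, hz1, hz2⟩

end CIRC

theorem stmt_CIRC (h1 : Stmt_PL1) : Stmt_CIRC := by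
  rintro a b c d t W hab hcd ht ⟨⟨yb, yb', hB⟩, ⟨yt, yt', hT⟩, ⟨xl, xl', hL⟩, ⟨xr, xr', hR⟩⟩
  have s4 : ∀ z w, Adj4 z w → Adj8 z w := fun z w h => h.adj8
  have w4 : ∀ z w, Adj4 z w → Adj4 (swp z) (swp w) := fun z w h => adj4_swp h
  have w8 : ∀ z w, Adj8 z w → Adj8 (swp z) (swp w) := fun z w h => adj8_swp h
  -- the four boxes are in the ring
  have rB : W ∩ Box (a - t) (b + t) (c - t) c ⊆ W ∩ Ring a b c d t := by
    rintro z ⟨hz, h⟩
    rw [mem_Box] at h
    exact ⟨hz, by rw [mem_Box]; omega, by omega⟩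
  have rT : W ∩ Box (a - t) (b + t) d (d + t) ⊆ W ∩ Ring a b c d t := by
    rintro z ⟨hz, h⟩
    rw [mem_Box] at h
    exact ⟨hz, by rw [mem_Box]; omega, by omega⟩
  have rL : W ∩ Box (a - t) a (c - t) (d + t) ⊆ W ∩ Ring a b c d t := by
    rintro z ⟨hz, h⟩
    rw [mem_Box] at h
    exact ⟨hz, by rw [mem_Box]; omega, by omega⟩
  have rR : W ∩ Box b (b + t) (c - t) (d + t) ⊆ W ∩ Ring a b c d t := by
    rintro z ⟨hz, h⟩
    rw [mem_Box] at h
    exact ⟨hz, by rw [mem_Box]; omega, by omega⟩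
  -- the four crossings are joined
  have gL : Linked Adj4 (W ∩ Ring a b c d t) (a - t, yb) (xl, c - t) := by
    obtain ⟨z, e1, e2⟩ := CIRC.meet h1 s4 w4 (a := a - t) (b := a) (c := c - t) (d := c)
      (by omega) (by omega) hB (fun z hz => by have := hz.2; rw [mem_Box] at this; omega)
      (by simp) (by simp; omega) hL (fun z hz => by have := hz.2; rw [mem_Box] at this; omega)
      (by simp) (by simp; omega)
    exact (e1.mono rB).trans (e2.mono rL).symm4
  have gR : Linked Adj4 (W ∩ Ring a b c d t) (a - t, yb) (xr, c - t) := by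
    obtain ⟨z, e1, e2⟩ := CIRC.meet h1 s4 w4 (a := b) (b := b + t) (c := c - t) (d := c)
      (by omega) (by omega) hB (fun z hz => by have := hz.2; rw [mem_Box] at this; omega)
      (by simp; omega) (by simp) hR (fun z hz => by have := hz.2; rw [mem_Box] at this; omega)
      (by simp) (by simp; omega)
    exact (e1.mono rB).trans (e2.mono rR).symm4
  have gT : Linked Adj4 (W ∩ Ring a b c d t) (a - t, yb) (a - t, yt) := by
    obtain ⟨z, e1, e2⟩ := CIRC.meet h1 s4 w4 (a := a - t) (b := a) (c := d) (d := d + t)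
      (by omega) (by omega) hT (fun z hz => by have := hz.2; rw [mem_Box] at this; omega)
      (by simp) (by simp; omega) hL (fun z hz => by have := hz.2; rw [mem_Box] at this; omega)
      (by simp; omega) (by simp)
    exact gL.trans ((e2.mono rL).trans (e1.mono rT).symm4)
  refine ⟨(a - t, yb), rB hB.left, ?_⟩
  intro X u v hu hv hX
  rw [mem_Box] at hu hv
  have huC : u ∈ Box (a - t) (b + t) (c - t) (d + t) := by rw [mem_Box]; omega
  obtain ⟨x, y, hx, hxy, hyX, hyC, _⟩ := hX.exit huC (by rw [mem_Box]; exact hv)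
  have hXc : ∀ z ∈ X ∩ Box (a - t) (b + t) (c - t) (d + t), a - t ≤ z.1 ∧ z.1 ≤ b + t := by
    rintro z ⟨_, hz⟩
    rw [mem_Box] at hz
    omega
  have hXr : ∀ z ∈ X ∩ Box (a - t) (b + t) (c - t) (d + t), c - t ≤ z.2 ∧ z.2 ≤ d + t := by
    rintro z ⟨_, hz⟩
    rw [mem_Box] at hz
    omega
  have hm : X ∩ Box (a - t) (b + t) (c - t) (d + t) ⊆ X := Set.inter_subset_left
  have hx1 := abs_le.1 hxy.fst
  have hx2 := abs_le.1 hxy.snd
  have hcase : d + t ≤ x.2 ∨ x.2 ≤ c - t ∨ b + t ≤ x.1 ∨ x.1 ≤ a - t := by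
    rw [mem_Box] at hyC
    omega
  rcases hcase with h | h | h | h
  · obtain ⟨z, e1, e2⟩ := CIRC.meet' h1 (fun z w h => h) (a := a - t) (b := b + t) (c := d)
      (d := d + t) (by omega) (by omega) hx hXc (by omega) h hT
      (fun z hz => by have := hz.2; rw [mem_Box] at this; omega) (by simp) (by simp)
    exact ⟨z, gT.trans (e2.mono rT), e1.mono hm⟩
  · obtain ⟨z, e1, e2⟩ := CIRC.meet' h1 (fun z w h => h) (a := a - t) (b := b + t) (c := c - t)
      (d := c) (by omega) (by omega) hx.symm8 hXc h (by omega) hB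
      (fun z hz => by have := hz.2; rw [mem_Box] at this; omega) (by simp) (by simp)
    exact ⟨z, e2.mono rB, (hx.mono hm).trans (e1.mono hm)⟩
  · obtain ⟨z, e1, e2⟩ := CIRC.meet h1 (fun z w h => h) w8 (a := b) (b := b + t) (c := c - t)
      (d := d + t) (by omega) (by omega) hx hXr (by omega) h hR
      (fun z hz => by have := hz.2; rw [mem_Box] at this; omega) (by simp) (by simp)
    exact ⟨z, gR.trans (e2.mono rR), e1.mono hm⟩
  · obtain ⟨z, e1, e2⟩ := CIRC.meet h1 (fun z w h => h) w8 (a := a - t) (b := a) (c := c - t)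
      (d := d + t) (by omega) (by omega) hx.symm8 hXr h (by omega) hL
      (fun z hz => by have := hz.2; rw [mem_Box] at this; omega) (by simp) (by simp)
    exact ⟨z, gL.trans (e2.mono rL), (hx.mono hm).trans (e1.mono hm)⟩

end Pool.Det5
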