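import Pool.Agent.Work.MP_dd5692_pr.InterfaceA

/-!
# MP_dd5692_pr, part (A): block CYL (helper42)
-/

set_option autoImplicit false

namespace Pool.Det5

open MeasureTheory MPdd5692
open scoped ENNReal

theorem stmt_CYL : Stmt_CYL := by
  intro q D
  have hq1 : (0 : ℝ) ≤ 1 - (q : ℝ) := by linarith [q.2.2]
  have hset : {ω : Cfg | ∀ z ∈ D, ω z = false} = Set.pi (D : Set Site) (fun _ => {false}) := by
    ext ω
    simp [Set.mem_pi]
  have hb : bern q {false} = ENNReal.ofReal (1 - (q : ℝ)) := by
    unfold bern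
    simp
  unfold Measure.real mu
  rw [hset, Measure.infinitePi_pi _ (fun _ _ => MeasurableSet.singleton _)]
  simp only [hb, Finset.prod_const]
  rw [ENNReal.toReal_pow, ENNReal.toReal_ofReal hq1]

end Pool.Det5
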