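import Pool.Agent.Work.MP_dd5692_pr.InterfaceA

/-!
# MP_dd5692_pr, part (A): block EXPL (helper42)
-/

set_option autoImplicit false

namespace Pool.Det5

open MeasureTheory MPdd5692
open scoped ENNReal

theorem EXPL_dep1 (S : Shape) (w h : ℤ) (u : Set Site) (hw : 0 ≤ w) (hh : 0 ≤ h)
    (hu : u ⊆ Box 0 w 0 h) {ω ω' : Cfg} (hω : ∀ z ∈ DD S w h u, ω z = ω' z)
    (he : expl S w h ω = u) : expl S w h ω' = u := by
  have hvac : ∀ z, z ∈ u ∪ bdL u 0 w 0 h → (z ∈ vac S ω ↔ z ∈ vac S ω') := by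
    intro z hz
    constructor
    · intro h1 k hk
      rw [← hω (z + k) ⟨z, hz, k, hk, rfl⟩]; exact h1 k hk
    · intro h1 k hk
      rw [hω (z + k) ⟨z, hz, k, hk, rfl⟩]; exact h1 k hk
  have h1 : ∀ z ∈ u, z ∉ vac S ω' := by
    intro z hz hv
    have hz' := hz
    rw [← he] at hz'
    obtain ⟨y, hy⟩ := hz'
    exact hy.right.1 ((hvac z (Or.inl hz)).2 hv)
  have h2 : ∀ z ∈ bdL u 0 w 0 h, z ∈ vac S ω' := by
    intro z hz
    rw [← hvac z (Or.inr hz)]
    by_contra hv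
    obtain ⟨hzB, hzu, hz'⟩ := hz
    apply hzu
    rw [← he]
    rcases hz' with h0 | ⟨s, hs, hsz⟩
    · refine ⟨z.2, ?_⟩
      have : ((0, z.2) : Site) = z := by rw [← h0]
      rw [this]
      exact Linked.refl ⟨hv, hzB⟩
    · rw [← he] at hs
      obtain ⟨y, hy⟩ := hs
      exact ⟨y, hy.step hsz.symm ⟨hv, hzB⟩⟩
  apply Set.Subset.antisymm
  · rintro z ⟨y, hy⟩
    have key : ∀ x, x ∈ (vac S ω')ᶜ ∩ Box 0 w 0 h → (x.1 = 0 ∨ ∃ s ∈ u, Adj8 x s) → x ∈ u := by
      intro x hx hx'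
      by_contra hxu
      exact hx.1 (h2 x ⟨hx.2, hxu, hx'⟩)
    refine hy.ind (P := fun x => x ∈ u) (key _ hy.left (Or.inl rfl)) ?_
    intro x x' _ hxu hxx hx'
    exact key _ hx' (Or.inr ⟨x, hxu, hxx.symm⟩)
  · intro z hz
    have hz' := hz
    rw [← he] at hz'
    obtain ⟨y, hy⟩ := hz'
    refine ⟨y, ?_⟩
    have h3 := hy.in_cl
    refine h3.mono ?_
    intro x hx
    have hxu : x ∈ u := by rw [← he]; exact ⟨y, hx⟩
    exact ⟨h1 x hxu, hu hxu⟩

theorem stmt_EXPL (hPL1 : Stmt_PL1) (hPL2 : Stmt_PL2) : Stmt_EXPL := by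
  intro S w h hw hh
  refine ⟨?_, ?_⟩
  · intro ω
    refine ⟨?_, ?_, ?_⟩
    · rintro z ⟨y, hy⟩; exact hy.right.2
    · rintro z ⟨y, hy⟩
      refine ⟨y, hy.in_cl.mono ?_⟩
      intro x hx
      exact ⟨y, hx⟩
    · rw [(stmt_DUAL hPL1 hPL2 (vac S ω) 0 w 0 h hw hh).1]
      constructor
      · rintro hno z ⟨y, hy⟩
        by_contra hlt
        push Not at hlt
        have hzb : z.1 = w := le_antisymm hy.right.2.2.1 hlt
        apply hno
        refine ⟨y, z.2, ?_⟩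
        have : ((w, z.2) : Site) = z := by rw [← hzb]
        rw [this]; exact hy
      · rintro hall ⟨y, y', hy⟩
        have := hall (w, y') ⟨y, hy⟩
        exact absurd this (lt_irrefl _)
  · intro u hu
    refine ⟨?_, ?_⟩
    · have hB : (u ∪ bdL u 0 w 0 h).Finite := by
        have hBox : (Box 0 w 0 h).Finite := by
          rw [← coe_boxF]; exact Finset.finite_toSet _
        refine hBox.subset ?_
        rintro z (hz | hz)
        · exact hu hz
        · exact hz.1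
      have hf := Set.Finite.image2 (fun (z k : Site) => z + k) hB (S.K.finite_toSet)
      refine hf.subset ?_
      rintro y ⟨z, hz, k, hk, rfl⟩
      exact ⟨z, hz, k, hk, rfl⟩
    · intro ω ω' hω
      exact ⟨fun h1 => EXPL_dep1 S w h u hw hh hu hω h1,
        fun h1 => EXPL_dep1 S w h u hw hh hu (fun z hz => (hω z hz).symm) h1⟩

end Pool.Det5
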