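import Pool.Agent.Work.MP_dd5692_pr.InterfaceA

/-!
# MP_dd5692_pr, part (A), block EXT: easy crossings of wide windows.  helper17
-/

set_option autoImplicit false

open MeasureTheory MPdd5692

namespace Pool.Det5

namespace EXT_

/-- the family of properties: crossings of the windows, crossings of the squares -/
def Q (s d w : ℤ) (i : ℕ × Bool) (W : Set Site) : Prop :=
  if i.2 then HC Adj4 W 0 d (i.1 * s) (i.1 * s + w) else VC Adj4 W 0 d (i.1 * s) (i.1 * s + d)

lemma pr_nonneg (S : Shape) (q : unitInterval) (P : Set Site → Prop) : 0 ≤ pr S q P :=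
  measureReal_nonneg

lemma pr_mono (S : Shape) (q : unitInterval) (P P' : Set Site → Prop) (h : ∀ W, P W → P' W) :
    pr S q P ≤ pr S q P' := by
  unfold pr
  exact measureReal_mono (fun ω hω => h _ hω) (measure_ne_top _ _)

lemma pr_le_one (S : Shape) (q : unitInterval) (P : Set Site → Prop) : pr S q P ≤ 1 := by
  unfold pr
  exact measureReal_le_one

lemma pr_union (S : Shape) (q : unitInterval) {ι : Type} (s : Finset ι)
    (P : ι → Set Site → Prop) : pr S q (fun W => ∃ i ∈ s, P i W) ≤ ∑ i ∈ s, pr S q (P i) := by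
  unfold pr
  have h : {ω : Cfg | ∃ i ∈ s, P i (vac S ω)} = ⋃ i ∈ s, {ω : Cfg | P i (vac S ω)} := by
    ext ω; simp
  rw [h]
  exact measureReal_biUnion_finset_le _ _

end EXT_

open EXT_ in
theorem stmt_EXT (hEXTD : Stmt_EXTD) (hPHC : Stmt_PHC) (hFMONO : Stmt_FMONO)
    (hVHARN : Stmt_VHARN) (_hVLOC : Stmt_VLOC) (hLOCS : Stmt_LOCS) : Stmt_EXT := by
  intro S q s d w H M hs hd hw hH
  -- the family
  let I : Finset (ℕ × Bool) := Finset.range (M + 1) ×ˢ Finset.univ
  have hcard : I.card = 2 * (M + 1) := by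
    simp [I, Finset.card_product, mul_comm]
  have hprob : ∀ i : ℕ × Bool, pr S q (Q s d w i) ≤ f S q d w := by
    rintro ⟨j, b⟩
    cases b
    · have h1 := (hPHC S q 0 d (j * s) (j * s + d)).2
      have h2 : pr S q (Q s d w (j, false)) = f S q d d := by
        have : (j * s + d - j * s : ℤ) = d := by ring
        rw [this, sub_zero] at h1
        exact h1
      rw [h2]
      exact hFMONO S q d d d w hd le_rfl (by linarith)
    · have h1 := (hPHC S q 0 d (j * s) (j * s + w)).1
      have h2 : pr S q (Q s d w (j, true)) = f S q d w := by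
        have : (j * s + w - j * s : ℤ) = w := by ring
        rw [this, sub_zero] at h1
        exact h1
      exact h2.le
  have hloc : ∀ i ∈ I, LocF (Q s d w i) := by
    rintro ⟨j, b⟩ -
    cases b
    · obtain ⟨-, -, -, l, -, -, -, -, -, -, -, -, -, fB, -⟩ :=
        hLOCS Adj4 0 d (j * s) (j * s + d) 0 0 0 0 0 0
      exact ⟨_, fB, l⟩
    · obtain ⟨-, l, -, -, -, -, -, -, -, -, -, -, -, fB, -⟩ :=
        hLOCS Adj4 0 d (j * s) (j * s + w) 0 0 0 0 0 0
      exact ⟨_, fB, l⟩
  have hmono : ∀ i ∈ I, Mono (Q s d w i) := by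
    rintro ⟨j, b⟩ -
    cases b
    · obtain ⟨-, -, mo, -, -⟩ := hLOCS Adj4 0 d (j * s) (j * s + d) 0 0 0 0 0 0
      exact mo
    · obtain ⟨mo, -⟩ := hLOCS Adj4 0 d (j * s) (j * s + w) 0 0 0 0 0 0
      exact mo
  have hcov : f S q d H ≤ pr S q (fun W => ∃ i ∈ I, Q s d w i W) := by
    refine pr_mono S q _ _ fun W hW => ?_
    obtain ⟨j, hj, h⟩ := hEXTD W s d w H hs hd hw hW
    have hjM : j < M + 1 := by
      have h1 : (j : ℤ) * s < (M + 1) * s := lt_of_le_of_lt hj hH
      have h2 : (j : ℤ) < M + 1 := lt_of_mul_lt_mul_right h1 (by linarith)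
      exact_mod_cast h2
    rcases h with h | h
    · exact ⟨(j, true), by simp [I]; omega, h⟩
    · exact ⟨(j, false), by simp [I]; omega, h⟩
  have hf1 : f S q d w ≤ 1 := pr_le_one _ _ _
  constructor
  · calc f S q d H ≤ pr S q (fun W => ∃ i ∈ I, Q s d w i W) := hcov
      _ ≤ ∑ i ∈ I, pr S q (Q s d w i) := pr_union S q I _
      _ ≤ ∑ _i ∈ I, f S q d w := Finset.sum_le_sum fun i _ => hprob i
      _ = 2 * (M + 1) * f S q d w := by
          rw [Finset.sum_const, hcard, nsmul_eq_mul]; push_cast; ring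
  · have h3 := (hVHARN S q (ℕ × Bool) I (Q s d w) hloc).2.2 hmono
    calc (1 - f S q d w) ^ (2 * (M + 1)) = ∏ _i ∈ I, (1 - f S q d w) := by
          rw [Finset.prod_const, hcard]
      _ ≤ ∏ i ∈ I, (1 - pr S q (Q s d w i)) :=
          Finset.prod_le_prod (fun i _ => by linarith) fun i _ => by linarith [hprob i]
      _ ≤ 1 - pr S q (fun W => ∃ i ∈ I, Q s d w i W) := h3
      _ ≤ 1 - f S q d H := by linarith

end Pool.Det5
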