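import Pool.Agent.Work.MP_dd5692_pr.InterfaceA

/-!
# MP_dd5692_pr, part (A), block EXTD: a long crossing lies in a window or crosses a square
-/

set_option autoImplicit false

open MeasureTheory MPdd5692

namespace Pool.Det5

theorem stmt_EXTD : Stmt_EXTD := by
  classical
  intro W s d w H hs hd hw hX
  -- the largest `j` such that there is a crossing above the row `j * s`
  have hR0 : ∃ y y' : ℤ, Linked Adj4 (W ∩ Box 0 d (((0 : ℕ) : ℤ) * s) H) (0, y) (d, y') := by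
    obtain ⟨y, y', h⟩ := hX
    exact ⟨y, y', by simpa using h⟩
  have hbd : ∀ j : ℕ, (∃ y y' : ℤ, Linked Adj4 (W ∩ Box 0 d ((j : ℤ) * s) H) (0, y) (d, y')) →
      (j : ℤ) * s ≤ H := by
    rintro j ⟨y, y', h⟩
    have h1 := h.left.2.2.2.1
    have h2 := h.left.2.2.2.2
    exact h1.trans h2
  have hbd2 : ∀ j : ℕ, (∃ y y' : ℤ, Linked Adj4 (W ∩ Box 0 d ((j : ℤ) * s) H) (0, y) (d, y')) →
      j ≤ H.toNat := by
    intro j hj
    have h1 := hbd j hj
    have h2 : (j : ℤ) ≤ j * s := by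
      have : (0 : ℤ) ≤ j := Int.natCast_nonneg j
      nlinarith
    omega
  obtain ⟨j, hj, hmax⟩ : ∃ j : ℕ,
      (∃ y y' : ℤ, Linked Adj4 (W ∩ Box 0 d ((j : ℤ) * s) H) (0, y) (d, y')) ∧
      ¬ ∃ y y' : ℤ, Linked Adj4 (W ∩ Box 0 d (((j + 1 : ℕ) : ℤ) * s) H) (0, y) (d, y') := by
    by_contra hcon
    push Not at hcon
    have hall : ∀ j : ℕ, ∃ y y' : ℤ,
        Linked Adj4 (W ∩ Box 0 d ((j : ℤ) * s) H) (0, y) (d, y') := by
      intro j
      induction j with
      | zero => exact hR0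
      | succ j ih =>
        exact hcon j ih
    have := hbd2 (H.toNat + 1) (hall _)
    omega
  have hjH := hbd j hj
  obtain ⟨y, y', h⟩ := hj
  have hstep : (((j + 1 : ℕ) : ℤ)) * s = (j : ℤ) * s + s := by push_cast; ring
  -- a site of the path below the row `(j+1) * s`
  obtain ⟨u, hu, hu2⟩ : ∃ u : Site, Linked Adj4 (W ∩ Box 0 d ((j : ℤ) * s) H) (0, y) u ∧
      u.2 < (j : ℤ) * s + s := by
    by_cases h0 : y < (j : ℤ) * s + s
    · exact ⟨(0, y), Linked.refl h.left, h0⟩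
    · rcases Linked.stay_or_exit (C := {z : Site | (j : ℤ) * s + s ≤ z.2}) h (not_lt.1 h0) with h1 | h1
      · exfalso
        refine hmax ⟨y, y', ?_⟩
        refine h1.mono ?_
        rintro z ⟨⟨hz1, hz2⟩, hz3⟩
        refine ⟨hz1, hz2.1, hz2.2.1, ?_, hz2.2.2.2⟩
        rw [hstep]; exact hz3
      · obtain ⟨x, z, -, -, -, hz, hl⟩ := h1
        exact ⟨z, hl, not_le.1 hz⟩
  -- either the path stays below the row `j * s + w` or it goes above
  by_cases htop : ∃ v : Site, Linked Adj4 (W ∩ Box 0 d ((j : ℤ) * s) H) (0, y) v ∧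
      (j : ℤ) * s + w < v.2
  · obtain ⟨v, hv, hv2⟩ := htop
    have huv : Linked Adj4 (W ∩ Box 0 d ((j : ℤ) * s) H) u v := hu.symm4.trans hv
    refine ⟨j + 1, ?_, Or.inr ?_⟩
    · rw [hstep]
      have := hv.right.2.2.2.2
      omega
    · rw [hstep]
      have h3 := subV (c := (j : ℤ) * s + s) (d := (j : ℤ) * s + s + d) (fun _ _ => Adj4.adj8) huv
        (fun z hz => ⟨hz.2.1, hz.2.2.1⟩) hu2.le (by omega) (by omega)
      exact h3.mono Set.inter_subset_left
  · refine ⟨j, hjH, Or.inl ?_⟩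
    refine ⟨y, y', ?_⟩
    have h1 := h.in_cl
    refine h1.mono ?_
    intro z hz
    have hz' := Linked.right hz
    refine ⟨hz'.1, hz'.2.1, hz'.2.2.1, hz'.2.2.2.1, ?_⟩
    by_contra hc
    exact htop ⟨z, hz, not_le.1 hc⟩

end Pool.Det5
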