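import Pool.Agent.Work.MP_dd5692_pr.InterfaceA

/-!
# MP_dd5692_pr, part (A), block FMONO (helper75)
-/

set_option autoImplicit false

open MeasureTheory MPdd5692

namespace Pool.Det5

theorem stmt_FMONO : Stmt_FMONO := by
  intro S q d w d' w' h0 h1 h2
  refine measureReal_mono ?_
  intro ω h
  have h3 : HC Adj4 (vac S ω) 0 d 0 w := h
  exact (HC.shrink (fun _ _ => Adj4.adj8) (fun _ _ => adj4_swp) le_rfl h0 h1 h3).tall le_rfl h2

end Pool.Det5
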