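import Pool.Agent.Work.MP_dd5692_pr.InterfaceA

/-! Block GLUE (helper6): long crossings by gluing. -/

set_option autoImplicit false

namespace Pool.Det5

open MeasureTheory MPdd5692
open scoped ENNReal

namespace GLUE_

theorem pr_mono {S : Shape} {q : unitInterval} {P Q : Set Site → Prop} (h : ∀ W, P W → Q W) :
    pr S q P ≤ pr S q Q := by
  unfold pr
  exact measureReal_mono (fun ω hω => h _ hω)

theorem pr_nonneg (S : Shape) (q : unitInterval) (P : Set Site → Prop) : 0 ≤ pr S q P :=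
  measureReal_nonneg

theorem locF_and {P Q : Set Site → Prop} (hP : LocF P) (hQ : LocF Q) :
    LocF (fun W => P W ∧ Q W) := by
  obtain ⟨B, hB, hP⟩ := hP
  obtain ⟨C, hC, hQ⟩ := hQ
  refine ⟨B ∪ C, hB.union hC, ?_⟩
  intro W W' h
  have h1 : W ∩ B = W' ∩ B := by
    have := congrArg (fun X => X ∩ B) h
    simp only [Set.inter_assoc] at this
    rwa [Set.inter_eq_self_of_subset_right Set.subset_union_left] at this
  have h2 : W ∩ C = W' ∩ C := by
    have := congrArg (fun X => X ∩ C) h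
    simp only [Set.inter_assoc] at this
    rwa [Set.inter_eq_self_of_subset_right Set.subset_union_right] at this
  show (P W ∧ Q W) ↔ (P W' ∧ Q W')
  rw [hP _ _ h1, hQ _ _ h2]

theorem mono_and {P Q : Set Site → Prop} (hP : Mono P) (hQ : Mono Q) :
    Mono (fun W => P W ∧ Q W) :=
  fun W W' h hW => ⟨hP W W' h hW.1, hQ W W' h hW.2⟩

end GLUE_

open GLUE_ in
theorem stmt_GLUE (hDG : Stmt_DGLUE) (hVH : Stmt_VHAR) (hPHC : Stmt_PHC) (hFM : Stmt_FMONO)
    (hL : Stmt_LOCS) : Stmt_GLUE := by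
  intro S q w t hw ht k hk
  have hMH : ∀ a b c d : ℤ, Mono (fun W => HC Adj4 W a b c d) :=
    fun a b c d => (hL Adj4 a b c d 0 0 0 0 0 0).1
  have hMV : ∀ a b c d : ℤ, Mono (fun W => VC Adj4 W a b c d) :=
    fun a b c d => (hL Adj4 a b c d 0 0 0 0 0 0).2.2.1
  have hfin : ∀ a b c d : ℤ, (Box a b c d).Finite :=
    fun a b c d => (hL Adj4 a b c d 0 0 0 0 0 0).2.2.2.2.2.2.2.2.2.2.2.2.2.1
  have hLH : ∀ a b c d : ℤ, LocF (fun W => HC Adj4 W a b c d) :=
    fun a b c d => ⟨Box a b c d, hfin a b c d, (hL Adj4 a b c d 0 0 0 0 0 0).2.1⟩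
  have hLV : ∀ a b c d : ℤ, LocF (fun W => VC Adj4 W a b c d) :=
    fun a b c d => ⟨Box a b c d, hfin a b c d, (hL Adj4 a b c d 0 0 0 0 0 0).2.2.2.1⟩
  have hf0 : 0 ≤ f S q (w + t) w := pr_nonneg _ _ _
  induction k, hk using Nat.le_induction with
  | base => simp
  | succ k hk ih =>
    have h1 : f S q (w + k * t) w = pr S q (fun W => HC Adj4 W 0 (w + k * t) 0 w) := rfl
    have h2 : f S q (w + t) w = pr S q (fun W => HC Adj4 W (k * t) (w + (k + 1) * t) 0 w) := by
      have := (hPHC S q (k * t) (w + (k + 1) * t) 0 w).1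
      rw [this]
      congr 1 <;> ring
    have h3 : f S q (w + t) w ≤ pr S q (fun W => VC Adj4 W (k * t) (w + k * t) 0 w) := by
      have := (hPHC S q (k * t) (w + k * t) 0 w).2
      rw [this]
      have e1 : w - 0 = w := by ring
      have e2 : w + k * t - k * t = w := by ring
      rw [e1, e2]
      exact hFM S q (w + t) w w w hw (by linarith) le_rfl
    have hkt : 0 ≤ (k : ℤ) * t := by positivity
    have hA := (hVH S q _ _ (hLH 0 (w + k * t) 0 w) (hLH (k * t) (w + (k + 1) * t) 0 w)).1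
      (hMH _ _ _ _) (hMH _ _ _ _)
    have hB := (hVH S q _ _ (locF_and (hLH 0 (w + k * t) 0 w) (hLH (k * t) (w + (k + 1) * t) 0 w))
      (hLV (k * t) (w + k * t) 0 w)).1 (mono_and (hMH _ _ _ _) (hMH _ _ _ _)) (hMV _ _ _ _)
    have hC : pr S q (fun W => (HC Adj4 W 0 (w + k * t) 0 w ∧
        HC Adj4 W (k * t) (w + (k + 1) * t) 0 w) ∧ VC Adj4 W (k * t) (w + k * t) 0 w)
        ≤ f S q (w + (k + 1) * t) w := by
      refine pr_mono ?_
      rintro W ⟨⟨hW1, hW2⟩, hW3⟩
      exact hDG W 0 (k * t) (w + k * t) (w + (k + 1) * t) 0 w hkt (by linarith) (by nlinarith)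
        hW1 hW2 hW3
    rw [← h1, ← h2] at hA
    have hx : f S q (w + t) w ^ (2 * (k + 1) - 1)
        = f S q (w + t) w ^ (2 * k - 1) * f S q (w + t) w * f S q (w + t) w := by
      rw [← pow_succ, ← pow_succ]
      congr 1
      omega
    rw [hx]
    push_cast
    calc f S q (w + t) w ^ (2 * k - 1) * f S q (w + t) w * f S q (w + t) w
        ≤ f S q (w + k * t) w * f S q (w + t) w * f S q (w + t) w := by gcongr
      _ ≤ pr S q (fun W => HC Adj4 W 0 (w + k * t) 0 w ∧
            HC Adj4 W (k * t) (w + (k + 1) * t) 0 w) *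
          pr S q (fun W => VC Adj4 W (k * t) (w + k * t) 0 w) := by
          refine mul_le_mul hA h3 hf0 (pr_nonneg _ _ _)
      _ ≤ _ := hB
      _ ≤ _ := hC

end Pool.Det5
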