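import Pool.Agent.Work.MP_dd5692_pr.InterfaceA2

/-!
# MP_dd5692_pr, part (A): block GOOD (helper64)
-/

set_option autoImplicit false

namespace Pool.Det5

open MeasureTheory MPdd5692 ProbabilityTheory
open scoped ENNReal NNReal

namespace GOOD_

theorem crossLR_iff (A : Site → Site → Prop) (W : Set Site) (a b : ℤ) :
    CrossLR A W a b ↔ HC A W 0 a 0 b := by
  unfold CrossLR HC
  have hB : ({z : Site | 0 ≤ z.1 ∧ z.1 ≤ a ∧ 0 ≤ z.2 ∧ z.2 ≤ b} : Set Site) = Box 0 a 0 b := rfl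
  rw [hB]
  constructor
  · rintro ⟨x, y, hx, hy, h⟩
    refine ⟨x.2, y.2, ?_⟩
    have h1 : ((0, x.2) : Site) = x := Prod.ext hx.symm rfl
    have h2 : ((a, y.2) : Site) = y := Prod.ext hy.symm rfl
    rw [h1, h2]
    exact h
  · rintro ⟨y, y', h⟩
    exact ⟨(0, y), (a, y'), rfl, rfl, h⟩

theorem one_sub_qof (l : ℝ≥0) (j : ℕ) :
    1 - ((qof l j : unitInterval) : ℝ) = Real.exp (-((l : ℝ) * (1 / 4) ^ j)) := by
  unfold qof
  simp

theorem quarter (j : ℕ) : ((1 : ℝ) / 4) ^ j = ((1 / 2) ^ j) ^ 2 := by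
  rw [← pow_mul, mul_comm j 2, pow_mul]
  norm_num

end GOOD_

open GOOD_ in
theorem stmt_GOOD (hSHAPE : Stmt_SHAPE) (hLAW : Stmt_LAW) (hLOCS : Stmt_LOCS) (hPHC : Stmt_PHC)
    (hPL1 : Stmt_PL1) (hVLOC : Stmt_VLOC) : Stmt_GOOD := by
  intro r l hr hl hEV hEO
  obtain ⟨nv, hnv⟩ := hEV
  obtain ⟨no, hno⟩ := hEO
  have hlR : (0:ℝ) < l := by exact_mod_cast hl
  have hEV' : ∀ n : ℕ, ∃ j₀ : ℕ, ∀ j ≥ j₀, nv ≤ n → ENNReal.ofReal (1 / 1024) ≤ easyV r l j n := by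
    intro n
    by_cases hn : nv ≤ n
    · obtain ⟨j₀, hj⟩ := hnv n hn
      exact ⟨j₀, fun j hjj _ => hj j hjj⟩
    · exact ⟨0, fun j _ h => absurd h hn⟩
  choose J hJ using hEV'
  refine ⟨1 / 1024, Real.exp (-(30 * (l * (r + 4) ^ 2))),
    (1 - Real.exp (-(l * (r / 2) ^ 2))) ^ 8, by norm_num, Real.exp_pos _, ?_, ?_⟩
  · apply pow_pos
    have : Real.exp (-(l * (r / 2) ^ 2)) < 1 := by
      rw [Real.exp_lt_one_iff]
      have : 0 < (l : ℝ) * (r / 2) ^ 2 := by positivity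
      linarith
    linarith
  refine ⟨⌈100 * (2 * r + 9)⌉₊ + nv + no + 100, by omega, ?_⟩
  intro N
  refine ⟨∑ n ∈ Finset.range (N + 1), J n, ?_⟩
  intro j hj
  set n1 : ℕ := ⌈100 * (2 * r + 9)⌉₊ + nv + no + 100 with hn1
  have hmesh0 : (0:ℝ) < (1 / 2 : ℝ) ^ j := by positivity
  have hmesh1 : ((1:ℝ) / 2) ^ j ≤ 1 := pow_le_one₀ (by norm_num) (by norm_num)
  have hrange : range r j = r / (1 / 2 : ℝ) ^ j + 3 := rfl
  have hrange3 : 3 ≤ range r j := by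
    rw [hrange]
    have : 0 ≤ r / (1 / 2 : ℝ) ^ j := by positivity
    linarith
  have hmr : (1 / 2 : ℝ) ^ j * range r j = r + 3 * (1 / 2 : ℝ) ^ j := by
    rw [hrange, mul_add, mul_div_cancel₀ _ hmesh0.ne']
    ring
  obtain ⟨S, hS, hS1, hS2⟩ := hSHAPE (range r j) hrange3
  refine ⟨S, hS, ?_⟩
  have h2j : (0:ℝ) < (2:ℝ) ^ j := by positivity
  have hinv : (1 / 2 : ℝ) ^ j * (2:ℝ) ^ j = 1 := by
    rw [← mul_pow]; norm_num
  have hρ1 : (1 / 2 : ℝ) ^ j * (S.ρ : ℝ) ≤ r + 4 := by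
    have h1 : (1 / 2 : ℝ) ^ j * (S.ρ : ℝ) ≤ (1 / 2 : ℝ) ^ j * (range r j + 1 / 2) :=
      mul_le_mul_of_nonneg_left hS1 hmesh0.le
    have h2 : (1 / 2 : ℝ) ^ j * (range r j + 1 / 2) = r + 7 / 2 * (1 / 2 : ℝ) ^ j := by
      rw [mul_add, hmr]; ring
    linarith
  have hρ2 : r / 2 ≤ (1 / 2 : ℝ) ^ j * ((S.ρ0 : ℝ) + 1) := by
    have h1 : (1 / 2 : ℝ) ^ j * (range r j / 2) ≤ (1 / 2 : ℝ) ^ j * ((S.ρ0 : ℝ) + 1) :=
      mul_le_mul_of_nonneg_left (by linarith) hmesh0.le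
    have h2 : (1 / 2 : ℝ) ^ j * (range r j / 2) = (r + 3 * (1 / 2 : ℝ) ^ j) / 2 := by
      rw [← hmr]; ring
    linarith
  have hn1R : 100 * (2 * r + 9) ≤ (n1 : ℝ) := by
    have h1 := Nat.le_ceil (100 * (2 * r + 9))
    rw [hn1]
    push_cast
    have h2 : (0:ℝ) ≤ nv := Nat.cast_nonneg _
    have h3 : (0:ℝ) ≤ no := Nat.cast_nonneg _
    linarith
  -- the two crossing bounds
  have hkey : ∀ k : ℤ, (n1 : ℤ) * 2 ^ j ≤ 2 ^ j * k → 2 ^ j * k ≤ (N : ℤ) * 2 ^ j →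
      ∃ n : ℕ, k = n ∧ nv ≤ n ∧ no ≤ n ∧ n ≤ N := by
    intro k h1 h2
    have hp : (0:ℤ) < 2 ^ j := by positivity
    have h3 : (n1 : ℤ) ≤ k := by
      rw [mul_comm] at h1
      exact le_of_mul_le_mul_left h1 hp
    have h4 : k ≤ (N : ℤ) := by
      rw [mul_comm (N : ℤ)] at h2
      exact le_of_mul_le_mul_left h2 hp
    refine ⟨k.toNat, ?_, ?_, ?_, ?_⟩ <;> omega
  constructor
  case c1pos => norm_num
  case cbpos => exact Real.exp_pos _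
  case crpos =>
    apply pow_pos
    have : Real.exp (-(l * (r / 2) ^ 2)) < 1 := by
      rw [Real.exp_lt_one_iff]
      have : 0 < (l : ℝ) * (r / 2) ^ 2 := by positivity
      linarith
    linarith
  case c1le => norm_num
  case hcb =>
    rw [one_sub_qof, ← Real.exp_nat_mul]
    apply Real.exp_le_exp.2
    push_cast
    rw [quarter]
    have h1 : ((1 / 2 : ℝ) ^ j * (S.ρ : ℝ)) ^ 2 ≤ (r + 4) ^ 2 :=
      pow_le_pow_left₀ (by positivity) hρ1 2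
    have h2 : (l : ℝ) * ((1 / 2 : ℝ) ^ j * (S.ρ : ℝ)) ^ 2 ≤ l * (r + 4) ^ 2 :=
      mul_le_mul_of_nonneg_left h1 hlR.le
    nlinarith
  case hcr =>
    have h0 : Real.exp (-(l * (r / 2) ^ 2)) ≤ 1 := by
      rw [Real.exp_le_one_iff]
      have : 0 ≤ (l : ℝ) * (r / 2) ^ 2 := by positivity
      linarith
    apply pow_le_pow_left₀ (by linarith)
    rw [one_sub_qof, ← Real.exp_nat_mul]
    have h1 : Real.exp (((S.ρ0 + 1) ^ 2 : ℕ) * -((l : ℝ) * (1 / 4) ^ j)) ≤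
        Real.exp (-(l * (r / 2) ^ 2)) := by
      apply Real.exp_le_exp.2
      push_cast
      rw [quarter]
      have h2 : (r / 2) ^ 2 ≤ ((1 / 2 : ℝ) ^ j * ((S.ρ0 : ℝ) + 1)) ^ 2 :=
        pow_le_pow_left₀ (by positivity) hρ2 2
      have h3 : (l : ℝ) * (r / 2) ^ 2 ≤ l * ((1 / 2 : ℝ) ^ j * ((S.ρ0 : ℝ) + 1)) ^ 2 :=
        mul_le_mul_of_nonneg_left h2 hlR.le
      nlinarith
    linarith
  case gpos =>
    have : (0:ℤ) < 2 ^ j := by positivity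
    omega
  case hg =>
    have h1 : (0:ℤ) < 2 ^ j := by positivity
    have h2 : (100:ℤ) ≤ (n1 : ℤ) := by
      rw [hn1]; push_cast; omega
    exact mul_le_mul_of_nonneg_right h2 h1.le
  case hn1 =>
    have h1 : (S.ρ : ℝ) ≤ (r + 4) * 2 ^ j := by
      calc (S.ρ : ℝ) = ((1 / 2 : ℝ) ^ j * (S.ρ : ℝ)) * 2 ^ j := by
            rw [mul_right_comm, hinv, one_mul]
        _ ≤ (r + 4) * 2 ^ j := mul_le_mul_of_nonneg_right hρ1 h2j.le
    have h2 : (1:ℝ) ≤ 2 ^ j := one_le_pow₀ (by norm_num)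
    have h3 : 100 * (2 * (S.ρ : ℝ) + 1) ≤ (n1 : ℝ) * 2 ^ j := by
      have h4 : 100 * (2 * r + 9) * 2 ^ j ≤ (n1 : ℝ) * 2 ^ j :=
        mul_le_mul_of_nonneg_right hn1R h2j.le
      nlinarith
    exact_mod_cast h3
  case Ev =>
    intro k h1 h2
    obtain ⟨n, rfl, hn1', hn2', hnN⟩ := hkey k h1 h2
    have hjn : J n ≤ j := by
      refine le_trans ?_ hj
      exact Finset.single_le_sum (f := fun n => J n) (fun i _ => Nat.zero_le _)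
        (Finset.mem_range.2 (by omega))
    have h3 := hJ n j hjn hn1'
    unfold easyV at h3
    have hLoc := hLOCS Adj4 0 (2 ^ j * (n : ℤ)) 0 (3 * (2 ^ j * (n : ℤ))) 0 0 0 0 0 0
    have hL : LocF (fun W => HC Adj4 W 0 (2 ^ j * (n : ℤ)) 0 (3 * (2 ^ j * (n : ℤ)))) :=
      ⟨_, hLoc.2.2.2.2.2.2.2.2.2.2.2.2.2.1, hLoc.2.1⟩
    have hlaw := hLAW l j (range r j) S hS _ hL
    unfold f
    rw [← hlaw]
    have hset : {η : Site → ℕ | HC Adj4 (vacSites (range r j) (occ η)) 0 (2 ^ j * (n : ℤ)) 0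
        (3 * (2 ^ j * (n : ℤ)))} =
        {η | CrossLR Adj4 (vacSites (range r j) (occ η)) (n * 2 ^ j) (3 * n * 2 ^ j)} := by
      ext η
      show HC Adj4 _ 0 _ 0 _ ↔ CrossLR Adj4 _ _ _
      rw [crossLR_iff]
      have e1 : (2:ℤ) ^ j * (n : ℤ) = n * 2 ^ j := by ring
      have e2 : (3:ℤ) * (2 ^ j * (n : ℤ)) = 3 * n * 2 ^ j := by ring
      rw [e2, e1]
    rw [hset]
    have : IsProbabilityMeasure (stat l j) := by unfold stat; infer_instance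
    exact (ENNReal.ofReal_le_iff_le_toReal (measure_ne_top _ _)).1 h3
  case Eo =>
    intro k h1 h2
    obtain ⟨n, rfl, hn1', hn2', hnN⟩ := hkey k h1 h2
    have h3 := hno n hn2' j
    unfold easyO at h3
    have hLoc := hLOCS Adj4 0 (2 ^ j * (n : ℤ)) 0 (3 * (2 ^ j * (n : ℤ))) 0 0 0 0 0 0
    have hLV : LocF (fun W => VC Adj4 W 0 (2 ^ j * (n : ℤ)) 0 (3 * (2 ^ j * (n : ℤ)))) :=
      ⟨_, hLoc.2.2.2.2.2.2.2.2.2.2.2.2.2.1, hLoc.2.2.2.1⟩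
    have hLN : LocF (fun W => ¬ VC Adj4 W 0 (2 ^ j * (n : ℤ)) 0 (3 * (2 ^ j * (n : ℤ)))) :=
      ⟨_, hLoc.2.2.2.2.2.2.2.2.2.2.2.2.2.1, fun W W' h => not_congr (hLoc.2.2.2.1 W W' h)⟩
    have hlaw := hLAW l j (range r j) S hS _ hLN
    have : IsProbabilityMeasure (stat l j) := by unfold stat; infer_instance
    have h4 : (1:ℝ) / 512 ≤ (stat l j).real
        {η | ¬ VC Adj4 (vacSites (range r j) (occ η)) 0 (2 ^ j * (n : ℤ)) 0
          (3 * (2 ^ j * (n : ℤ)))} := by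
      have h5 : (1:ℝ) / 512 ≤ (stat l j).real {η | CrossLR Adj8 (vacSites (range r j) (occ η))ᶜ
          (n * 2 ^ j) (3 * n * 2 ^ j)} :=
        (ENNReal.ofReal_le_iff_le_toReal (measure_ne_top _ _)).1 h3
      refine h5.trans (measureReal_mono ?_ (measure_ne_top _ _))
      intro η hη hv
      have hη' : CrossLR Adj8 (vacSites (range r j) (occ η))ᶜ (n * 2 ^ j) (3 * n * 2 ^ j) := hη
      rw [crossLR_iff] at hη'
      have e1 : (n : ℤ) * 2 ^ j = 2 ^ j * (n : ℤ) := by ring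
      have e2 : (3:ℤ) * n * 2 ^ j = 3 * (2 ^ j * (n : ℤ)) := by ring
      rw [e2, e1] at hη'
      obtain ⟨z, -, hz1, hz2⟩ := hPL1 _ _ _ _ _ _ hη' hv
      exact hz1 hz2
    rw [hlaw] at h4
    have hmeas : MeasurableSet {ω : Cfg | VC Adj4 (vac S ω) 0 (2 ^ j * (n : ℤ)) 0
        (3 * (2 ^ j * (n : ℤ)))} :=
      (hVLOC S (fun W => VC Adj4 W 0 (2 ^ j * (n : ℤ)) 0 (3 * (2 ^ j * (n : ℤ))))).2.2.2 hLV
    have h6 := (hPHC S (qof l j) 0 (2 ^ j * (n : ℤ)) 0 (3 * (2 ^ j * (n : ℤ)))).2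
    rw [sub_zero, sub_zero] at h6
    rw [← h6]
    unfold pr at h4 ⊢
    have h7 : {ω : Cfg | ¬ VC Adj4 (vac S ω) 0 (2 ^ j * (n : ℤ)) 0 (3 * (2 ^ j * (n : ℤ)))} =
        {ω : Cfg | VC Adj4 (vac S ω) 0 (2 ^ j * (n : ℤ)) 0 (3 * (2 ^ j * (n : ℤ)))}ᶜ := rfl
    rw [h7, probReal_compl_eq_one_sub hmeas] at h4
    linarith

end Pool.Det5
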