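import Pool.Agent.Work.MP_dd5692_pr.InterfaceA

/-!
# MP_dd5692_pr, part (A), block HAR: Harris' inequality for two events with finite support.
Two copies indexed by `Bool × Site`; replace the coordinates one at a time.
-/

set_option autoImplicit false

open MeasureTheory ProbabilityTheory Set MPdd5692
open scoped ENNReal NNReal BigOperators

namespace Pool.Det5

namespace HAR_

/-- two independent copies -/
noncomputable def P2 (q : unitInterval) : Measure (Bool × Site → Bool) :=
  Measure.infinitePi (fun _ : Bool × Site => bern q)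

instance (q : unitInterval) : IsProbabilityMeasure (P2 q) := by unfold P2; infer_instance

/-- the first copy -/
def X (w : Bool × Site → Bool) : Cfg := fun i => w (true, i)

/-- the coordinates in `s` from the first copy, the others from the second one -/
def M (s : Finset Site) (w : Bool × Site → Bool) : Cfg := fun i => w (decide (i ∈ s), i)

theorem meas_X : Measurable X := by unfold X; fun_prop

theorem meas_M (s : Finset Site) : Measurable (M s) := by
  unfold M; fun_prop

theorem map_X (q : unitInterval) : (P2 q).map X = mu q :=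
  Measure.map_infinitePi_infinitePi_of_inj (P := fun _ : Bool × Site => bern q)
    (f := fun i : Site => (true, i)) (fun _ _ h => (Prod.mk.inj h).2)

theorem map_M (q : unitInterval) (s : Finset Site) : (P2 q).map (M s) = mu q :=
  Measure.map_infinitePi_infinitePi_of_inj (P := fun _ : Bool × Site => bern q)
    (f := fun i : Site => (decide (i ∈ s), i)) (fun _ _ h => (Prod.mk.inj h).2)

/-- independence of the two copies -/
theorem indep (q : unitInterval) {E F : Set Cfg} (hE : MeasurableSet E) (hF : MeasurableSet F) :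
    (P2 q).real {w | X w ∈ E ∧ M ∅ w ∈ F} = (mu q).real E * (mu q).real F := by
  have h1 : (P2 q).map (fun w => (X w, M ∅ w)) = (mu q).prod (mu q) := by
    have h2 : (P2 q).map (MeasurableEquiv.curry Bool Site Bool) =
        Measure.infinitePi fun _ : Bool => mu q := by
      unfold P2 mu
      exact Measure.infinitePi_map_curry (fun (_ : Bool) (_ : Site) => bern q)
    have h3 := Measure.infinitePi_map_eval_prod (P := fun _ : Bool => mu q)
      (i := true) (j := false) (by decide)
    rw [← h2, Measure.map_map (by fun_prop) (by fun_prop)] at h3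
    rw [← h3]
    rfl
  have h4 : (P2 q).real {w | X w ∈ E ∧ M ∅ w ∈ F} = ((mu q).prod (mu q)).real (E ×ˢ F) := by
    rw [← h1, map_measureReal_apply (meas_X.prodMk (meas_M ∅)) (hE.prod hF)]
    rfl
  rw [h4, measureReal_prod_prod]

/-- swap the coordinate `i` of the two copies -/
def sw (i : Site) (p : Bool × Site) : Bool × Site := if p.2 = i then (!p.1, p.2) else p

theorem sw_sw (i : Site) (p : Bool × Site) : sw i (sw i p) = p := by
  unfold sw
  by_cases h : p.2 = i
  · simp [h]
    rw [← h]
  · simp [h]

/-- one step -/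
theorem step (q : unitInterval) {E F : Set Cfg} (hE : MeasurableSet E) (hF : MeasurableSet F)
    (dE : VInc E) (dF : VInc F) (s : Finset Site) (i : Site) (hi : i ∉ s) :
    (P2 q).real {w | X w ∈ E ∧ M s w ∈ F} ≤ (P2 q).real {w | X w ∈ E ∧ M (insert i s) w ∈ F} := by
  set T : (Bool × Site → Bool) → (Bool × Site → Bool) := fun w p => w (sw i p) with hT
  have mT : Measurable T := by rw [hT]; fun_prop
  have hinj : Function.Injective (sw i) := fun p p' h => by
    have := congrArg (sw i) h
    rwa [sw_sw, sw_sw] at this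
  have pT : (P2 q).map T = P2 q :=
    Measure.map_infinitePi_infinitePi_of_inj (P := fun _ : Bool × Site => bern q) hinj
  have TT : ∀ w, T (T w) = w := fun w => funext fun p => by
    show w (sw i (sw i p)) = w p
    rw [sw_sw]
  set A : Set (Bool × Site → Bool) := {w | X w ∈ E} with hA
  set B : Set (Bool × Site → Bool) := {w | M (insert i s) w ∈ F} with hB
  have mA : MeasurableSet A := meas_X hE
  have mB : MeasurableSet B := meas_M _ hF
  have hMT : ∀ w, M (insert i s) (T w) = M s w := by
    intro w
    funext j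
    simp only [M, hT, sw]
    by_cases hj : j = i
    · subst hj
      simp [hi]
    · simp only [hj, if_false]
      refine congrArg w (Prod.ext ?_ rfl)
      rw [decide_eq_decide, Finset.mem_insert]
      exact ⟨fun h => h.resolve_left hj, Or.inr⟩
  have hTM : ∀ w, M s (T w) = M (insert i s) w := fun w => by rw [← hMT (T w), TT]
  have inv : ∀ C : Set (Bool × Site → Bool), MeasurableSet C →
      (P2 q).real (T ⁻¹' C) = (P2 q).real C := by
    intro C hC
    conv_rhs => rw [← pT]
    rw [map_measureReal_apply mT hC]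
  have cmp : ∀ w, (w ∈ A → w ∉ T ⁻¹' A → (w ∈ T ⁻¹' B → w ∈ B)) ∧
      (w ∈ T ⁻¹' A → w ∉ A → (w ∈ B → w ∈ T ⁻¹' B)) := by
    intro w
    have hc : (w (true, i) = true → w (false, i) = true) ∨
        (w (false, i) = true → w (true, i) = true) := by
      cases w (true, i) <;> cases w (false, i) <;> simp
    rcases hc with h | h
    · have h1 : ∀ j, X w j = true → X (T w) j = true := fun j => by
        simp only [X, hT, sw]
        by_cases hj : j = i
        · subst hj; simpa using h
        · simp [hj]
      have h2 : ∀ j, M (insert i s) w j = true → M (insert i s) (T w) j = true := fun j => by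
        simp only [M, hT, sw]
        by_cases hj : j = i
        · subst hj; simpa using h
        · simp [hj]
      exact ⟨fun _ _ h3 => dF _ _ h2 h3, fun h3 h4 => absurd (dE _ _ h1 h3) h4⟩
    · have h1 : ∀ j, X (T w) j = true → X w j = true := fun j => by
        simp only [X, hT, sw]
        by_cases hj : j = i
        · subst hj; simpa using h
        · simp [hj]
      have h2 : ∀ j, M (insert i s) (T w) j = true → M (insert i s) w j = true := fun j => by
        simp only [M, hT, sw]
        by_cases hj : j = i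
        · subst hj; simpa using h
        · simp [hj]
      exact ⟨fun h3 h4 => absurd (dE _ _ h1 h3) h4, fun _ _ h3 => dF _ _ h2 h3⟩
  have e1 : (P2 q).real {w | X w ∈ E ∧ M s w ∈ F} = (P2 q).real (A ∩ T ⁻¹' B) := by
    congr 1
    ext w
    simp only [hA, hB, Set.mem_ofPred_eq, Set.mem_inter_iff, Set.mem_preimage, hMT]
  have e2 : (P2 q).real {w | X w ∈ E ∧ M (insert i s) w ∈ F} = (P2 q).real (A ∩ B) := rfl
  have e3 : (P2 q).real (T ⁻¹' A ∩ B) = (P2 q).real (A ∩ T ⁻¹' B) := by
    rw [← inv (A ∩ T ⁻¹' B) (mA.inter (mT mB))]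
    congr 1
    ext w
    simp only [Set.mem_inter_iff, Set.mem_preimage, TT]
  have e4 : (P2 q).real (T ⁻¹' A ∩ T ⁻¹' B) = (P2 q).real (A ∩ B) := by
    rw [← inv (A ∩ B) (mA.inter mB)]
    rfl
  rw [e1, e2]
  have mTA : MeasurableSet (T ⁻¹' A) := mT mA
  have mTB : MeasurableSet (T ⁻¹' B) := mT mB
  have key : (P2 q).real (A ∩ T ⁻¹' B) + (P2 q).real (T ⁻¹' A ∩ B) ≤
      (P2 q).real (A ∩ B) + (P2 q).real (T ⁻¹' A ∩ T ⁻¹' B) := by
    rw [← measureReal_union_add_inter (mTA.inter mB), ← measureReal_union_add_inter (mTA.inter mTB)]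
    refine add_le_add (measureReal_mono ?_) (measureReal_mono ?_)
    · rintro w (⟨h1, h2⟩ | ⟨h1, h2⟩)
      · by_cases h3 : w ∈ T ⁻¹' A
        · exact Or.inr ⟨h3, h2⟩
        · exact Or.inl ⟨h1, (cmp w).1 h1 h3 h2⟩
      · by_cases h3 : w ∈ A
        · exact Or.inl ⟨h3, h2⟩
        · exact Or.inr ⟨h1, (cmp w).2 h1 h3 h2⟩
    · rintro w ⟨⟨h1, h2⟩, ⟨h3, h4⟩⟩
      exact ⟨⟨h1, h4⟩, ⟨h3, h2⟩⟩
  rw [e3, e4] at key
  linarith

theorem chain (q : unitInterval) {E F : Set Cfg} (hE : MeasurableSet E) (hF : MeasurableSet F)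
    (dE : VInc E) (dF : VInc F) (s : Finset Site) :
    (mu q).real E * (mu q).real F ≤ (P2 q).real {w | X w ∈ E ∧ M s w ∈ F} := by
  classical
  induction s using Finset.induction_on with
  | empty => exact (indep q hE hF).ge
  | insert i s hi ih => exact ih.trans (step q hE hF dE dF s i hi)

/-- events with finite support are measurable -/
theorem meas_dep {D : Set Site} (hD : D.Finite) {E : Set Cfg} (h : Dep D E) : MeasurableSet E := by
  classical
  have : Finite D := hD
  set r : Cfg → (D → Bool) := fun ω d => ω d with hr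
  have mr : Measurable r := by rw [hr]; fun_prop
  have h1 : E = r ⁻¹' (r '' E) := by
    ext ω
    refine ⟨fun hω => ⟨ω, hω, rfl⟩, ?_⟩
    rintro ⟨ω', h2, h3⟩
    exact (h ω' ω fun z hz => congrFun h3 ⟨z, hz⟩).1 h2
  rw [h1]
  exact mr (Set.toFinite _).measurableSet

end HAR_

theorem stmt_HAR : Stmt_HAR := by
  classical
  intro q D E F hD hE hF iE iF
  have mE := HAR_.meas_dep hD hE
  have mF := HAR_.meas_dep hD hF
  refine (HAR_.chain q mE mF iE iF hD.toFinset).trans ?_
  have h1 : {w : Bool × Site → Bool | HAR_.X w ∈ E ∧ HAR_.M hD.toFinset w ∈ F} =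
      HAR_.X ⁻¹' (E ∩ F) := by
    ext w
    have h2 : HAR_.M hD.toFinset w ∈ F ↔ HAR_.X w ∈ F := by
      refine hF _ _ fun z hz => ?_
      have : z ∈ hD.toFinset := hD.mem_toFinset.2 hz
      simp [HAR_.M, HAR_.X, this]
    show (HAR_.X w ∈ E ∧ HAR_.M hD.toFinset w ∈ F) ↔ (HAR_.X w ∈ E ∧ HAR_.X w ∈ F)
    rw [h2]
  rw [h1, ← HAR_.map_X q, map_measureReal_apply HAR_.meas_X (mE.inter mF)]

end Pool.Det5
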