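import Pool.Agent.Work.MP_dd5692_pr.InterfaceA

/-!
# MP_dd5692_pr, part (A): block IND (helper11)
-/

set_option autoImplicit false

namespace Pool.Det5

open MeasureTheory MPdd5692 ProbabilityTheory
open scoped ENNReal

theorem stmt_IND : Stmt_IND := by
  classical
  intro q F F' E E' hF hF' hd h h'
  have hind : iIndepFun (fun (i : Site) (ω : Cfg) => ω i) (mu q) := by
    unfold mu
    exact iIndepFun_infinitePi (X := fun _ x => x) (fun _ => measurable_id)
  have h1 := iIndepFun.indepFun_finset hF.toFinset hF'.toFinset
    (by rw [Set.Finite.disjoint_toFinset]; exact hd) hind (fun i => measurable_pi_apply i)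
  have key : ∀ (G : Finset Site) (A : Set Cfg), Dep (G : Set Site) A →
      A = (fun (ω : Cfg) (i : G) => ω i) ⁻¹' ((fun (ω : Cfg) (i : G) => ω i) '' A) := by
    intro G A hA
    ext η
    constructor
    · intro hη; exact ⟨η, hη, rfl⟩
    · rintro ⟨η', hη', he⟩
      exact (hA η' η fun i hi => congrFun he ⟨i, hi⟩).1 hη'
  rw [key hF.toFinset E (by simpa using h), key hF'.toFinset E' (by simpa using h')]
  unfold Measure.real
  rw [← ENNReal.toReal_mul]
  congr 1
  exact h1.measure_inter_preimage_eq_mul _ _ (Set.to_countable _).measurableSet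
    (Set.to_countable _).measurableSet

end Pool.Det5
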