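import Pool.Agent.Work.MP_dd5692_pr.InterfaceA

/-! MP_dd5692_pr, part (A), block INV (helper50) -/

set_option autoImplicit false

namespace Pool.Det5

open MeasureTheory MPdd5692

namespace INV_

theorem map_mu (q : unitInterval) (σ : Site ≃ Site) :
    (mu q).map (fun ω : Cfg => fun z => ω (σ z)) = mu q := by
  have hm : Measurable (fun ω : Cfg => fun z => ω (σ z)) := by fun_prop
  refine Measure.eq_infinitePi _ fun s t ht => ?_
  rw [Measure.map_apply hm (MeasurableSet.pi s.countable_toSet fun i hi => ht i)]
  have h : (fun ω : Cfg => fun z => ω (σ z)) ⁻¹' Set.pi (s : Set Site) t =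
      Set.pi ((s.map σ.toEmbedding : Finset Site) : Set Site) (fun z => t (σ.symm z)) := by
    ext ω
    simp only [Set.mem_preimage, Set.mem_pi, Finset.coe_map, Equiv.coe_toEmbedding,
      Set.mem_image, Finset.mem_coe, forall_exists_index, and_imp, forall_apply_eq_imp_iff₂,
      Equiv.symm_apply_apply]
  rw [h, mu, Measure.infinitePi_pi _ (fun i _ => ht _), Finset.prod_map]
  simp

end INV_

theorem stmt_INV : Stmt_INV := by
  intro q σ E hE
  have hm : Measurable (fun ω : Cfg => fun z => ω (σ z)) := by fun_prop
  have h := congrArg (fun ν : Measure Cfg => ν.real E) (INV_.map_mu q σ)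
  rw [← h]
  exact (map_measureReal_apply hm hE).symm

end Pool.Det5
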