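import Pool.Agent.Work.MP_dd5692_pr.InterfaceA2

/-!
# MP_dd5692_pr, part (A), block LAW: the occupied cells are independent (helper43)
-/

set_option autoImplicit false

namespace Pool.Det5

open MeasureTheory MPdd5692 ProbabilityTheory
open scoped ENNReal NNReal

namespace LAW_

/-- `true` if there is a particle -/
def occb (n : ℕ) : Bool := decide (n ≠ 0)

theorem meas_occb : Measurable occb := measurable_of_countable _

theorem poisson_zero (l : ℝ≥0) :
    poissonMeasure l {0} = ENNReal.ofReal (Real.exp (-(l : ℝ))) := by
  rw [poissonMeasure_singleton]
  simp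

/-- the law of the indicator of an occupied cell -/
theorem map_occb (l : ℝ≥0) (j : ℕ) :
    (poissonMeasure (l * (1 / 4) ^ j)).map occb = bern (qof l j) := by
  have h0 : (poissonMeasure (l * (1 / 4) ^ j)) {0} =
      ENNReal.ofReal (1 - ((qof l j : unitInterval) : ℝ)) := by
    rw [poisson_zero]
    congr 1
    unfold qof
    simp only
    push_cast
    ring
  have hf : ((poissonMeasure (l * (1 / 4) ^ j)).map occb) {false} = bern (qof l j) {false} := by
    rw [Measure.map_apply meas_occb (measurableSet_singleton _)]
    have : occb ⁻¹' {false} = {0} := by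
      ext n
      simp [occb]
    rw [this, h0]
    unfold bern
    simp
  have : IsProbabilityMeasure ((poissonMeasure (l * (1 / 4) ^ j)).map occb) :=
    Measure.isProbabilityMeasure_map meas_occb.aemeasurable
  have ht : ((poissonMeasure (l * (1 / 4) ^ j)).map occb) {true} = bern (qof l j) {true} := by
    have h1 : ({true} : Set Bool) = {false}ᶜ := by
      ext b
      cases b <;> simp
    rw [h1, prob_compl_eq_one_sub (measurableSet_singleton _),
      prob_compl_eq_one_sub (measurableSet_singleton _), hf]
  refine Measure.ext_of_singleton ?_
  intro b
  cases b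
  · exact hf
  · exact ht

theorem map_stat (l : ℝ≥0) (j : ℕ) :
    (stat l j).map (fun η => fun z : Site => occb (η z)) = mu (qof l j) := by
  unfold stat mu
  rw [Measure.infinitePi_map_pi (f := fun _ => occb) _ (fun _ => meas_occb)]
  congr 1
  funext z
  exact map_occb l j

end LAW_

open LAW_ in
theorem stmt_LAW (hVLOC : Stmt_VLOC) : Stmt_LAW := by
  intro l j ρ S hS P hP
  unfold pr
  rw [← map_stat l j]
  have hmeas := (hVLOC S P).2.2.2 hP
  have hg : Measurable (fun η : Site → ℕ => fun z : Site => occb (η z)) :=
    measurable_pi_lambda _ (fun z => meas_occb.comp (measurable_pi_apply z))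
  rw [measureReal_def, measureReal_def, Measure.map_apply hg hmeas]
  congr 2
  ext η
  have hv : vacSites ρ (occ η) = vac S (fun z => occb (η z)) := by
    ext z
    unfold vacSites vac occ
    constructor
    · intro h k hk
      by_contra hcon
      have h1 : η (z + k) ≠ 0 := by
        intro h0
        apply hcon
        simp [occb, h0]
      have h2 := h (z + k) h1
      apply h2
      rw [add_sub_cancel_left]
      exact (hS k).1 hk
    · intro h v hv hmem
      have h1 := h (v - z) ((hS _).2 hmem)
      rw [add_sub_cancel] at h1
      simp only [occb, decide_eq_false_iff_not, not_not] at h1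
      exact hv h1
  exact iff_of_eq (congrArg P hv)

end Pool.Det5
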