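import Pool.Agent.Work.MP_dd5692_pr.InterfaceA

/-!
# MP_dd5692_pr, part (A): block LOCS (helper80)
-/

set_option autoImplicit false

namespace Pool.Det5

open MeasureTheory MPdd5692

namespace LOCS_

theorem loc_of {B : Set Site} {P : Set Site → Prop} (h : ∀ W, P W ↔ P (W ∩ B)) : Loc B P := by
  intro W W' hW
  rw [h W, h W', hW]

theorem Loc.mono {B B' : Set Site} {P : Set Site → Prop} (hB : B ⊆ B') (h : Loc B P) :
    Loc B' P := by
  intro W W' hW
  apply h
  have : (W ∩ B') ∩ B = (W' ∩ B') ∩ B := by rw [hW]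
  rwa [Set.inter_assoc, Set.inter_assoc, Set.inter_eq_self_of_subset_right hB] at this

theorem Loc.and {B : Set Site} {P Q : Set Site → Prop} (h : Loc B P) (h' : Loc B Q) :
    Loc B (fun W => P W ∧ Q W) := by
  intro W W' hW
  simp only [h W W' hW, h' W W' hW]

theorem Loc.not {B : Set Site} {P : Set Site → Prop} (h : Loc B P) :
    Loc B (fun W => ¬ P W) := by
  intro W W' hW
  simp only [h W W' hW]

theorem fin_box (a b c d : ℤ) : (Box a b c d).Finite := by
  rw [← coe_boxF]; exact Finset.finite_toSet _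

theorem fin_ring (a b c d t : ℤ) : (Ring a b c d t).Finite :=
  (fin_box (a - t) (b + t) (c - t) (d + t)).subset (fun _ h => h.1)

theorem loc_HC (A : Site → Site → Prop) (a b c d : ℤ) :
    Loc (Box a b c d) (fun W => HC A W a b c d) := by
  intro W W' hW
  show HC A W a b c d ↔ HC A W' a b c d
  unfold HC
  rw [hW]

theorem loc_VC (A : Site → Site → Prop) (a b c d : ℤ) :
    Loc (Box a b c d) (fun W => VC A W a b c d) := by
  intro W W' hW
  show VC A W a b c d ↔ VC A W' a b c d
  unfold VC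
  rw [hW]

theorem inter_of {B B' W W' : Set Site} (hB : B ⊆ B') (hW : W ∩ B' = W' ∩ B') : W ∩ B = W' ∩ B := by
  have : (W ∩ B') ∩ B = (W' ∩ B') ∩ B := by rw [hW]
  rwa [Set.inter_assoc, Set.inter_assoc, Set.inter_eq_self_of_subset_right hB] at this

end LOCS_

open LOCS_

theorem stmt_LOCS80 : Stmt_LOCS := by
  intro A a b c d t w h m H x0
  have hbig : ∀ {P : Set Site → Prop} {B : Set Site}, B.Finite → Loc B P → LocF P :=
    fun hB hP => ⟨_, hB, hP⟩
  refine ⟨fun W W' hW h => h.mono hW, loc_HC A a b c d, fun W W' hW h => h.mono hW,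
    loc_VC A a b c d, ?_, ?_, ?_, ?_, ?_, ?_, ?_, ?_, ?_, fin_box a b c d, fin_ring a b c d t⟩
  · rintro W W' hW ⟨x, x', y, h1, h2⟩
    exact ⟨x, x', y, h1.mono (Set.inter_subset_inter_left _ hW),
      h2.mono (Set.inter_subset_inter_left _ hW)⟩
  · refine ⟨Box 0 w 0 h ∪ Box 0 m 0 H, (fin_box _ _ _ _).union (fin_box _ _ _ _), ?_⟩
    intro W W' hW
    unfold YY
    rw [inter_of (Set.subset_union_left) hW, inter_of (Set.subset_union_right) hW]
  · rintro W W' hW ⟨x, x', y, h1, h2⟩
    exact ⟨x, x', y, h1.mono (Set.inter_subset_inter_left _ hW),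
      h2.mono (Set.inter_subset_inter_left _ hW)⟩
  · refine ⟨Box x0 (x0 + w) 0 h ∪ Box (x0 + w - m) (x0 + w) 0 H,
      (fin_box _ _ _ _).union (fin_box _ _ _ _), ?_⟩
    intro W W' hW
    unfold YS
    rw [inter_of (Set.subset_union_left) hW, inter_of (Set.subset_union_right) hW]
  · rintro W W' hW ⟨h1, h2, h3, h4⟩
    exact ⟨h1.mono hW, h2.mono hW, h3.mono hW, h4.mono hW⟩
  · refine ⟨Box (a - t) (b + t) (c - t) c ∪ Box (a - t) (b + t) d (d + t) ∪
      (Box (a - t) a (c - t) (d + t) ∪ Box b (b + t) (c - t) (d + t)),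
      ((fin_box _ _ _ _).union (fin_box _ _ _ _)).union
        ((fin_box _ _ _ _).union (fin_box _ _ _ _)), ?_⟩
    intro W W' hW
    unfold Circ HC VC
    rw [inter_of (Set.subset_union_left.trans Set.subset_union_left) hW,
      inter_of (Set.subset_union_right.trans Set.subset_union_left) hW,
      inter_of (Set.subset_union_left.trans Set.subset_union_right) hW,
      inter_of (Set.subset_union_right.trans Set.subset_union_right) hW]
  · rintro W W' hW ⟨h1, h2, h3, h4⟩
    exact ⟨fun h => h1 (h.mono hW), fun h => h2 (h.mono hW), fun h => h3 (h.mono hW),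
      fun h => h4 (h.mono hW)⟩
  · refine ⟨Box (a - t) (b + t) (c - t) c ∪ Box (a - t) (b + t) d (d + t) ∪
      (Box (a - t) a (c - t) (d + t) ∪ Box b (b + t) (c - t) (d + t)),
      ((fin_box _ _ _ _).union (fin_box _ _ _ _)).union
        ((fin_box _ _ _ _).union (fin_box _ _ _ _)), ?_⟩
    intro W W' hW
    unfold NoX HC VC
    rw [inter_of (Set.subset_union_left.trans Set.subset_union_left) hW,
      inter_of (Set.subset_union_right.trans Set.subset_union_left) hW,
      inter_of (Set.subset_union_left.trans Set.subset_union_right) hW,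
      inter_of (Set.subset_union_right.trans Set.subset_union_right) hW]
  · intro hab hcd ht W W' hW
    have e1 : Box (a - t) (b + t) (c - t) c ⊆ Ring a b c d t := by
      rintro z ⟨h1, h2, h3, h4⟩
      exact ⟨⟨h1, h2, h3, by omega⟩, by omega⟩
    have e2 : Box (a - t) (b + t) d (d + t) ⊆ Ring a b c d t := by
      rintro z ⟨h1, h2, h3, h4⟩
      exact ⟨⟨h1, h2, by omega, h4⟩, by omega⟩
    have e3 : Box (a - t) a (c - t) (d + t) ⊆ Ring a b c d t := by
      rintro z ⟨h1, h2, h3, h4⟩
      exact ⟨⟨h1, by omega, h3, h4⟩, by omega⟩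
    have e4 : Box b (b + t) (c - t) (d + t) ⊆ Ring a b c d t := by
      rintro z ⟨h1, h2, h3, h4⟩
      exact ⟨⟨by omega, h2, h3, h4⟩, by omega⟩
    unfold NoX HC VC
    rw [inter_of e1 hW, inter_of e2 hW, inter_of e3 hW, inter_of e4 hW]

end Pool.Det5
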