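import Pool.Agent.Work.MP_dd5692_pr.InterfaceA

/-! MP_dd5692_pr, part (A), block MEAS (helper50) -/

set_option autoImplicit false

namespace Pool.Det5

open MeasureTheory MPdd5692

theorem stmt_MEAS : Stmt_MEAS := by
  intro D E hD hE
  have : Finite D := hD
  let r : Cfg → (D → Bool) := fun ω z => ω z.1
  have hr : Measurable r := by fun_prop
  have h : E = r ⁻¹' (r '' E) := by
    ext ω
    constructor
    · exact fun h => ⟨ω, h, rfl⟩
    · rintro ⟨ω', h', he⟩
      exact (hE ω' ω fun z hz => congrFun he ⟨z, hz⟩).1 h'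
  rw [h]
  exact hr (Set.toFinite _).measurableSet

end Pool.Det5
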