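import Pool.Agent.Work.MP_dd5692_pr.InterfaceA

/-!
# MP_dd5692_pr, part (A), block NOX: no short crossings, no crossing of the ring (helper43)
-/

set_option autoImplicit false

namespace Pool.Det5

open MeasureTheory MPdd5692

theorem stmt_NOX : Stmt_NOX := by
  intro a b c d t W hab hcd ht hno u hu v hv hlink
  obtain ⟨hn1, hn2, hn3, hn4⟩ := hno
  have huB : u ∈ Box (a - t) (b + t) (c - t) (d + t) := by
    rw [mem_Box] at hu ⊢
    omega
  obtain ⟨x, y, hux, hxy, -, hyC, -⟩ := hlink.exit huB hv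
  have hxB := hux.right.2
  have hxu := hux.symm4
  have hAs : ∀ z w, Adj4 z w → Adj4 (swp z) (swp w) := fun z w h => adj4_swp h
  have hA8 : ∀ z w, Adj4 z w → Adj8 z w := fun z w h => h.adj8
  have hcol : ∀ z ∈ W ∩ Box (a - t) (b + t) (c - t) (d + t), a - t ≤ z.1 ∧ z.1 ≤ b + t :=
    fun z hz => ⟨hz.2.1, hz.2.2.1⟩
  have hrow : ∀ z ∈ W ∩ Box (a - t) (b + t) (c - t) (d + t), c - t ≤ z.2 ∧ z.2 ≤ d + t :=
    fun z hz => ⟨hz.2.2.2.1, hz.2.2.2.2⟩
  rw [mem_Box] at hu hxB hyC
  have h8 := hxy.adj8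
  have hs1 := abs_le.1 h8.fst
  have hs2 := abs_le.1 h8.snd
  have hcase : x.2 = c - t ∨ x.2 = d + t ∨ x.1 = a - t ∨ x.1 = b + t := by
    by_contra hcon
    push Not at hcon
    apply hyC
    omega
  rcases hcase with h | h | h | h
  · exact hn1 ((subV hA8 hxu hcol (by omega) (by omega) (by omega)).mono Set.inter_subset_left)
  · exact hn2 ((subV hA8 hux hcol (by omega) (by omega) (by omega)).mono Set.inter_subset_left)
  · exact hn3 ((subH hA8 hAs hxu hrow (by omega) (by omega) (by omega)).mono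
      Set.inter_subset_left)
  · exact hn4 ((subH hA8 hAs hux hrow (by omega) (by omega) (by omega)).mono
      Set.inter_subset_left)

end Pool.Det5
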