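import Pool.Agent.Work.MP_dd5692_pr.InterfaceA

/-!
# MP_dd5692_pr, part (A): block PHC (helper80)
-/

set_option autoImplicit false

namespace Pool.Det5

open MeasureTheory MPdd5692

namespace PHC_

/-- translation -/
def tr (t : Site) : Site ≃ Site := Equiv.addRight t

theorem tr_sym (t : Site) : IsSym (tr t) := by
  intro z w
  left
  simp [tr]

/-- exchange of the coordinates as an equivalence -/
def sw : Site ≃ Site := ⟨swp, swp, fun _ => rfl, fun _ => rfl⟩

theorem sw_sym : IsSym sw := by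
  intro z w
  right
  exact ⟨rfl, rfl⟩

theorem adj4_add {z w : Site} (t : Site) (h : Adj4 z w) : Adj4 (z + t) (w + t) := by
  unfold Adj4 at *
  simpa using h

theorem HC_tr (W : Set Site) (a b c d x y : ℤ) :
    HC Adj4 ((tr (x, y)) ⁻¹' W) a b c d ↔ HC Adj4 W (a + x) (b + x) (c + y) (d + y) := by
  constructor
  · rintro ⟨u, v, h⟩
    refine ⟨u + y, v + y, ?_⟩
    have := h.map (W' := W ∩ Box (a + x) (b + x) (c + y) (d + y)) (fun z => z + (x, y))
      (fun z w => adj4_add (x, y)) ?_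
    · simpa using this
    · rintro z ⟨hz, h1, h2, h3, h4⟩
      refine ⟨hz, ?_⟩
      simp only [mem_Box, Prod.fst_add, Prod.snd_add]
      omega
  · rintro ⟨u, v, h⟩
    refine ⟨u - y, v - y, ?_⟩
    have := h.map (W' := (tr (x, y)) ⁻¹' W ∩ Box a b c d) (fun z => z + (-x, -y))
      (fun z w => adj4_add (-x, -y)) ?_
    · simpa [sub_eq_add_neg] using this
    · rintro z ⟨hz, h1, h2, h3, h4⟩
      refine ⟨?_, ?_⟩
      · simp only [Set.mem_preimage, tr, Equiv.coe_addRight]
        have : z + (-x, -y) + (x, y) = z := by ext <;> simp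
        rw [this]; exact hz
      · simp only [mem_Box, Prod.fst_add, Prod.snd_add]
        omega

end PHC_

open PHC_

theorem stmt_PHC80 (hVSYM : Stmt_VSYM) (hLOCS : Stmt_LOCS) : Stmt_PHC := by
  intro S q
  have key : ∀ a b c d : ℤ, pr S q (fun W => HC Adj4 W a b c d) = f S q (b - a) (d - c) := by
    intro a b c d
    have hl : LocF (fun W => HC Adj4 W 0 (b - a) 0 (d - c)) := by
      have h := hLOCS Adj4 0 (b - a) 0 (d - c) 0 0 0 0 0 0
      exact ⟨_, h.2.2.2.2.2.2.2.2.2.2.2.2.2.1, h.2.1⟩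
    have h := hVSYM S q (tr (a, c)) (fun W => HC Adj4 W 0 (b - a) 0 (d - c)) (tr_sym _) hl
    unfold f
    rw [← h]
    unfold pr
    congr 1
    ext ω
    simp only [Set.mem_ofPred_eq]
    rw [HC_tr]
    simp
  intro a b c d
  refine ⟨key a b c d, ?_⟩
  have hl : LocF (fun W => HC Adj4 W c d a b) := by
    have h := hLOCS Adj4 c d a b 0 0 0 0 0 0
    exact ⟨_, h.2.2.2.2.2.2.2.2.2.2.2.2.2.1, h.2.1⟩
  have h := hVSYM S q sw (fun W => HC Adj4 W c d a b) sw_sym hl
  rw [← key c d a b, ← h]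
  unfold pr
  congr 1
  ext ω
  simp only [Set.mem_ofPred_eq]
  rw [VC_iff_swp (A := Adj4) (fun _ _ h => adj4_swp h)]
  rfl

end Pool.Det5
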