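import Pool.Agent.Work.MP_dd5692_pr.InterfaceA

/-! Block RES: resampling off `D` (helper48). -/

set_option autoImplicit false

namespace Pool.Det5

open MeasureTheory MPdd5692
open scoped ENNReal

namespace RES_

open Classical in
theorem measurable_mix (D : Set Site) :
    Measurable (fun p : Cfg × Cfg => mix D p.1 p.2) := by
  refine measurable_pi_lambda _ fun z => ?_
  unfold mix
  by_cases hz : z ∈ D
  · simp only [hz, if_true]
    exact (measurable_pi_apply z).comp measurable_fst
  · simp only [hz, if_false]
    exact (measurable_pi_apply z).comp measurable_snd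

open Classical in
theorem map_mix (q : unitInterval) (D : Set Site) :
    ((mu q).prod (mu q)).map (fun p : Cfg × Cfg => mix D p.1 p.2) = mu q := by
  conv_rhs => unfold mu
  refine Measure.eq_infinitePi _ fun s t ht => ?_
  have hms : MeasurableSet (Set.pi (s : Set Site) t) :=
    MeasurableSet.pi s.countable_toSet fun z _ => ht z
  rw [Measure.map_apply (measurable_mix D) hms]
  have hset : (fun p : Cfg × Cfg => mix D p.1 p.2) ⁻¹' (Set.pi (s : Set Site) t) =
      (Set.pi ((s.filter (· ∈ D) : Finset Site) : Set Site) t) ×ˢ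
        (Set.pi ((s.filter (· ∉ D) : Finset Site) : Set Site) t) := by
    ext p
    simp only [Set.mem_preimage, Set.mem_pi, Finset.mem_coe, Set.mem_prod, Finset.mem_filter]
    constructor
    · intro h
      refine ⟨fun z hz => ?_, fun z hz => ?_⟩
      · have := h z hz.1
        simpa [mix, hz.2] using this
      · have := h z hz.1
        simpa [mix, hz.2] using this
    · intro h z hz
      by_cases hD : z ∈ D
      · simpa [mix, hD] using h.1 z ⟨hz, hD⟩
      · simpa [mix, hD] using h.2 z ⟨hz, hD⟩
  rw [hset, Measure.prod_prod]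
  unfold mu
  rw [Measure.infinitePi_pi _ (fun z _ => ht z), Measure.infinitePi_pi _ (fun z _ => ht z)]
  exact Finset.prod_filter_mul_prod_filter_not s (· ∈ D) _

end RES_

theorem stmt_RES (hMEAS : Stmt_MEAS) : Stmt_RES := by
  intro q D A E Y hD hA hE hY h
  have hAm : MeasurableSet A := hMEAS D A hD hA
  rw [measureReal_def, measureReal_def, measureReal_def, ← ENNReal.toReal_mul]
  refine ENNReal.toReal_mono (measure_ne_top _ _) ?_
  calc (mu q) A * (mu q) E = ((mu q).prod (mu q)) (A ×ˢ E) := (Measure.prod_prod _ _).symm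
    _ ≤ ((mu q).prod (mu q)) ((fun p : Cfg × Cfg => mix D p.1 p.2) ⁻¹' (A ∩ Y)) := by
        refine measure_mono ?_
        rintro ⟨ω, ω'⟩ ⟨h1, h2⟩
        refine ⟨?_, h ω ω' h1 h2⟩
        refine (hA ω (mix D ω ω') fun z hz => ?_).1 h1
        simp [mix, hz]
    _ = (mu q) (A ∩ Y) := by
        rw [← Measure.map_apply (RES_.measurable_mix D) (hAm.inter hY), RES_.map_mix]

end Pool.Det5
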