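import Pool.Agent.Work.MP_dd5692_pr.InterfaceA

/-! Block RSWH (helper51): the high probability version of the RSW step. -/

set_option autoImplicit false

namespace Pool.Det5

open MeasureTheory MPdd5692
open scoped ENNReal

namespace RSWH_

theorem pr_nonneg (S : Shape) (q : unitInterval) (P : Set Site → Prop) : 0 ≤ pr S q P :=
  measureReal_nonneg

theorem pr_le_one (S : Shape) (q : unitInterval) (P : Set Site → Prop) : pr S q P ≤ 1 :=
  measureReal_le_one

theorem pr_mono (S : Shape) (q : unitInterval) {P Q : Set Site → Prop} (h : ∀ W, P W → Q W) :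
    pr S q P ≤ pr S q Q := by
  unfold pr
  refine measureReal_mono ?_ (measure_ne_top _ _)
  intro ω hω
  exact h _ hω

theorem pr_not (hVLOC : Stmt_VLOC) (S : Shape) (q : unitInterval) (P : Set Site → Prop)
    (hP : LocF P) : pr S q (fun W => ¬ P W) = 1 - pr S q P := by
  unfold pr
  have hm := (hVLOC S P).2.2.2 hP
  rw [← probReal_compl_eq_one_sub hm]
  rfl

theorem locF_not {P : Set Site → Prop} (hP : LocF P) : LocF (fun W => ¬ P W) := by
  obtain ⟨B, hB, hL⟩ := hP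
  exact ⟨B, hB, fun W W' h => not_congr (hL W W' h)⟩

theorem anti_not {P : Set Site → Prop} (hP : Mono P) : Anti (fun W => ¬ P W) :=
  fun W W' h h1 h2 => h1 (hP W W' h h2)

theorem pr_and_ge (hVLOC : Stmt_VLOC) (S : Shape) (q : unitInterval) (P Q : Set Site → Prop)
    (hQ : LocF Q) : pr S q P + pr S q Q - 1 ≤ pr S q (fun W => P W ∧ Q W) := by
  unfold pr
  have hm := (hVLOC S Q).2.2.2 hQ
  have h1 := measureReal_union_add_inter (μ := mu q) (s := {ω | P (vac S ω)})
    (t := {ω | Q (vac S ω)}) hm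
  have h2 : (mu q).real ({ω | P (vac S ω)} ∪ {ω | Q (vac S ω)}) ≤ 1 := measureReal_le_one
  have h3 : {ω | P (vac S ω) ∧ Q (vac S ω)} = {ω | P (vac S ω)} ∩ {ω | Q (vac S ω)} := rfl
  rw [h3]
  linarith

end RSWH_

open RSWH_ in
theorem stmt_RSWH (hBRHIGH : Stmt_BRHIGH) (hSHIFT : Stmt_SHIFT) (hYSYM : Stmt_YSYM)
    (hVHAR : Stmt_VHAR) (hPHC : Stmt_PHC) (hFMONO : Stmt_FMONO) (hLOCS : Stmt_LOCS)
    (hVLOC : Stmt_VLOC) : Stmt_RSWH := by
  intro S q cr δ s hcr hcr8 hδ hs h1 h2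
  have hρ : (0:ℤ) ≤ (S.ρ : ℤ) := Int.natCast_nonneg _
  -- the probability of Y
  have hB := hBRHIGH S q cr (22 * s) (20 * s) (38 * s) hcr hcr8 (by omega) (by omega) (by omega)
  have hHH : HH S.ρ (20 * s) = 40 * s + 2 * S.ρ + 1 := by unfold HH; ring
  set H := HH S.ρ (20 * s) with hH
  set u := pr S q (YY (22 * s) (20 * s) (38 * s) H) with hu
  have hmH : 1 - δ ≤ f S q (38 * s) H :=
    le_trans h2 (hFMONO S q (38 * s) (40 * s) (38 * s) H (by omega) le_rfl (by omega))
  have hsq : Real.sqrt ((1 - f S q (38 * s) H) / cr) ≤ Real.sqrt (δ / cr) := by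
    refine Real.sqrt_le_sqrt ?_
    gcongr
    linarith
  have hf0 : 0 ≤ f S q (20 * s) (22 * s) := pr_nonneg _ _ _
  have hf1 : f S q (20 * s) (22 * s) ≤ 1 := pr_le_one _ _ _
  have hb0 : 0 ≤ Real.sqrt (δ / cr) := Real.sqrt_nonneg _
  have hu1 : 1 - Real.sqrt (δ / cr) - δ ≤ u := by
    have h3 : (1 - Real.sqrt (δ / cr)) * f S q (20 * s) (22 * s) ≤ u := by
      refine le_trans ?_ hB
      exact mul_le_mul_of_nonneg_right (by linarith) hf0
    refine le_trans ?_ h3
    rcases le_total (Real.sqrt (δ / cr)) 1 with hle | hle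
    · nlinarith
    · nlinarith
  -- both Y and its mirror image
  have hL := hLOCS Adj4 (4 * s + 22 * s - 38 * s) (38 * s) 0 H 0 (22 * s) (20 * s) (38 * s) H
    (4 * s)
  obtain ⟨mHC, lHC, -, -, -, -, -, lYS, -, -, -, -, -, fB, -⟩ := hL
  have hL2 := hLOCS Adj4 (4 * s) (22 * s) 0 (20 * s) 0 (22 * s) (20 * s) (38 * s) H (4 * s)
  obtain ⟨-, -, mVC, lVC, -, -, -, -, -, -, -, -, -, fB2, -⟩ := hL2
  have hboth := pr_and_ge hVLOC S q (YY (22 * s) (20 * s) (38 * s) H)
    (YS (22 * s) (20 * s) (38 * s) H (4 * s)) lYS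
  rw [hYSYM S q (22 * s) (20 * s) (38 * s) H (4 * s)] at hboth
  -- the two crossings
  set P1 : Set Site → Prop := fun W => HC Adj4 W (4 * s + 22 * s - 38 * s) (38 * s) 0 H with hP1
  set P2 : Set Site → Prop := fun W => VC Adj4 W (4 * s) (22 * s) 0 (20 * s) with hP2
  have lP1 : LocF P1 := ⟨_, fB, lHC⟩
  have lP2 : LocF P2 := ⟨_, fB2, lVC⟩
  have hor : pr S q (fun W => YY (22 * s) (20 * s) (38 * s) H W ∧
      YS (22 * s) (20 * s) (38 * s) H (4 * s) W) ≤ pr S q (fun W => ¬ (¬ P1 W ∧ ¬ P2 W)) := by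
    refine pr_mono S q fun W hW => ?_
    have := hSHIFT W (22 * s) (20 * s) (38 * s) H (4 * s) (by omega) (by omega) (by omega)
      (by omega) hW.1 hW.2
    rintro ⟨h3, h4⟩
    rcases this with h5 | h5
    · exact h3 h5
    · exact h4 h5
  have lN : LocF (fun W => ¬ P1 W ∧ ¬ P2 W) := by
    obtain ⟨B1, hB1, hL1⟩ := locF_not lP1
    obtain ⟨B2, hB2, hL2⟩ := locF_not lP2
    refine ⟨B1 ∪ B2, hB1.union hB2, fun W W' h => ?_⟩
    have e1 : W ∩ B1 = W' ∩ B1 := by
      have := congrArg (fun X => X ∩ B1) h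
      simpa [Set.inter_assoc, Set.union_inter_cancel_left] using this
    have e2 : W ∩ B2 = W' ∩ B2 := by
      have := congrArg (fun X => X ∩ B2) h
      simpa [Set.inter_assoc, Set.union_inter_cancel_right] using this
    exact and_congr (hL1 W W' e1) (hL2 W W' e2)
  rw [pr_not hVLOC S q _ lN] at hor
  have hanti := (hVHAR S q _ _ (locF_not lP1) (locF_not lP2)).2.1 (anti_not mHC) (anti_not mVC)
  rw [pr_not hVLOC S q _ lP1, pr_not hVLOC S q _ lP2] at hanti
  have e1 : pr S q P1 = f S q (50 * s) H := by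
    have := (hPHC S q (4 * s + 22 * s - 38 * s) (38 * s) 0 H).1
    rw [hP1, this]
    congr 1 <;> ring
  have e2 : pr S q P2 = f S q (20 * s) (18 * s) := by
    have := (hPHC S q (4 * s) (22 * s) 0 (20 * s)).2
    rw [hP2, this]
    congr 1 <;> ring
  rw [e1, e2] at hanti
  have h50 : f S q (50 * s) H ≤ f S q (50 * s) (41 * s) :=
    hFMONO S q (50 * s) H (50 * s) (41 * s) (by omega) le_rfl (by omega)
  have h18 : f S q (20 * s) (18 * s) ≤ 1 := pr_le_one _ _ _
  have hfin : (1 - f S q (50 * s) (41 * s)) * (1 - f S q (20 * s) (18 * s)) ≤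
      (1 - f S q (50 * s) H) * (1 - f S q (20 * s) (18 * s)) :=
    mul_le_mul_of_nonneg_right (by linarith) (by linarith)
  linarith

end Pool.Det5
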