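import Pool.Agent.Work.MP_dd5692_pr.InterfaceA

/-! Block RSWL (helper9): the low-probability RSW step. -/

set_option autoImplicit false

namespace Pool.Det5

open MeasureTheory MPdd5692
open scoped ENNReal

namespace RSWL_

theorem pr_mono (S : Shape) (q : unitInterval) (P Q : Set Site → Prop) (h : ∀ W, P W → Q W) :
    pr S q P ≤ pr S q Q :=
  measureReal_mono (fun ω hω => h _ hω)

theorem pr_or (S : Shape) (q : unitInterval) (P Q : Set Site → Prop) :
    pr S q (fun W => P W ∨ Q W) ≤ pr S q P + pr S q Q :=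
  measureReal_union_le {ω | P (vac S ω)} {ω | Q (vac S ω)}

theorem pr_nonneg (S : Shape) (q : unitInterval) (P : Set Site → Prop) : 0 ≤ pr S q P :=
  measureReal_nonneg

end RSWL_

theorem stmt_RSWL (hBRLOW : Stmt_BRLOW) (hSHIFT : Stmt_SHIFT) (hYSYM : Stmt_YSYM)
    (hEXT : Stmt_EXT) (hVHAR : Stmt_VHAR) (hPHC : Stmt_PHC) (hFMONO : Stmt_FMONO)
    (hLOCS : Stmt_LOCS) : Stmt_RSWL := by
  intro S q c1 cb cr g n1 N k hG hρ h20 h38
  set s : ℤ := g * k with hs
  have hρ0 : (0 : ℤ) ≤ (S.ρ : ℤ) := Int.natCast_nonneg _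
  have hs1 : 1 ≤ s := by omega
  have hHH : HH S.ρ (20 * s) = 40 * s + 2 * S.ρ + 1 := by
    unfold HH; ring
  -- easy crossings
  have e1 : c1 ≤ f S q (20 * s) (60 * s) := by
    have := hG.Ev (20 * k) (by rw [hs] at h20; linarith) (by rw [hs] at h38 hs1; linarith)
    have h1 : g * (20 * k) = 20 * s := by rw [hs]; ring
    rw [h1] at this
    have h2 : 3 * (20 * s) = 60 * s := by ring
    rw [h2] at this
    exact this
  have e2 : c1 ≤ f S q (38 * s) (114 * s) := by
    have := hG.Ev (38 * k) (by rw [hs] at h20 hs1; linarith) (by rw [hs] at h38; linarith)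
    have h1 : g * (38 * k) = 38 * s := by rw [hs]; ring
    rw [h1] at this
    have h2 : 3 * (38 * s) = 114 * s := by ring
    rw [h2] at this
    exact this
  have e3 : f S q (20 * s) (60 * s) ≤ 122 * f S q (20 * s) (22 * s) := by
    have := (hEXT S q s (20 * s) (22 * s) (60 * s) 60 hs1 (by omega) (by omega)
      (by push_cast; omega)).1
    norm_num at this
    linarith
  have e4 : f S q (38 * s) (114 * s) ≤ 230 * f S q (38 * s) (40 * s) := by
    have := (hEXT S q s (38 * s) (40 * s) (114 * s) 114 hs1 (by omega) (by omega)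
      (by push_cast; omega)).1
    norm_num at this
    linarith
  have e5 : f S q (38 * s) (40 * s) ≤ f S q (38 * s) (HH S.ρ (20 * s)) :=
    hFMONO S q _ _ _ _ (by omega) le_rfl (by rw [hHH]; omega)
  -- the bridge
  have e6 := hBRLOW S q cb (22 * s) (20 * s) (38 * s) hG.cbpos hG.hcb (by omega) (by omega)
    (by omega)
  set u : ℝ := pr S q (YY (22 * s) (20 * s) (38 * s) (HH S.ρ (20 * s))) with hu
  have hc1 := hG.c1pos
  have hcb := hG.cbpos
  have e7 : c1 / 122 ≤ f S q (20 * s) (22 * s) := by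
    rw [div_le_iff₀ (by norm_num)]; linarith
  have e8 : c1 / 230 ≤ f S q (38 * s) (HH S.ρ (20 * s)) := by
    rw [div_le_iff₀ (by norm_num)]; linarith
  have e9 : cb * c1 ^ 2 / (4 * 122 * 230) ≤ u := by
    calc cb * c1 ^ 2 / (4 * 122 * 230) = cb / 4 * (c1 / 230) * (c1 / 122) := by ring
      _ ≤ cb / 4 * f S q (38 * s) (HH S.ρ (20 * s)) * f S q (20 * s) (22 * s) := by
          refine mul_le_mul (mul_le_mul_of_nonneg_left e8 (by positivity)) e7 (by positivity) ?_
          exact mul_nonneg (by positivity) (RSWL_.pr_nonneg _ _ _)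
      _ ≤ u := e6
  -- Harris and the shift
  have hL := hLOCS Adj4 0 0 0 0 0 (22 * s) (20 * s) (38 * s) (HH S.ρ (20 * s)) (4 * s)
  obtain ⟨-, -, -, -, hm1, hl1, hm2, hl2, -⟩ := hL
  have e10 := (hVHAR S q _ _ hl1 hl2).1 hm1 hm2
  rw [hYSYM S q (22 * s) (20 * s) (38 * s) (HH S.ρ (20 * s)) (4 * s)] at e10
  have e11 : u * u ≤ f S q (50 * s) (41 * s) + f S q (20 * s) (18 * s) := by
    refine e10.trans ?_
    refine (RSWL_.pr_mono S q _ (fun W => HC Adj4 W (4 * s + 22 * s - 38 * s) (38 * s) 0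
      (HH S.ρ (20 * s)) ∨ VC Adj4 W (4 * s) (22 * s) 0 (20 * s)) ?_).trans ?_
    · rintro W ⟨h1, h2⟩
      exact hSHIFT W _ _ _ _ _ (by omega) (by omega) (by omega) (by rw [hHH]; omega) h1 h2
    · refine (RSWL_.pr_or S q _ _).trans ?_
      rw [(hPHC S q _ _ _ _).1, (hPHC S q _ _ _ _).2]
      have h1 : 38 * s - (4 * s + 22 * s - 38 * s) = 50 * s := by ring
      have h2 : 20 * s - 0 = 20 * s := by ring
      have h3 : 22 * s - 4 * s = 18 * s := by ring
      rw [h1, h2, h3]
      have h4 : f S q (50 * s) (HH S.ρ (20 * s) - 0) ≤ f S q (50 * s) (41 * s) :=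
        hFMONO S q _ _ _ _ (by omega) le_rfl (by rw [hHH]; omega)
      linarith
  have e12 : (cb * c1 ^ 2 / (4 * 122 * 230)) ^ 2 ≤ u * u := by
    rw [sq]
    exact mul_le_mul e9 e9 (by positivity) ((by positivity : (0:ℝ) ≤ _).trans e9)
  have e13 := le_max_left (f S q (20 * s) (18 * s)) (f S q (50 * s) (41 * s))
  have e14 := le_max_right (f S q (20 * s) (18 * s)) (f S q (50 * s) (41 * s))
  linarith

end Pool.Det5
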