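import Pool.Agent.Work.MP_dd5692_pr.InterfaceA

/-! # MP_dd5692_pr (A): block SH1 -/

set_option autoImplicit false

namespace Pool.Det5

open MeasureTheory MPdd5692

theorem stmt_SH1 (hPL1 : Stmt_PL1) : Stmt_SH1 := by
  intro A B w m H x0 x x' y y' h0 hm hdis hA hB hAl hBl
  by_contra hcon
  push Not at hcon
  have hxA := hA hAl.left
  have hxB := hB hBl.left
  have hyB := hB hBl.right
  rw [mem_Box] at hxA hxB hyB
  simp only at hxA hxB hyB
  have hne : x ≠ x' := by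
    rintro rfl
    exact Set.disjoint_left.1 hdis hAl.left hBl.left
  have hlt : x < x' := lt_of_le_of_ne hcon hne
  set a : ℤ := x0 + w - m - 1 with ha
  set X : Set Site := A ∪ {z | z.2 = -1 ∧ z.1 ≤ x} with hX
  set Y : Set Site := B ∪ {z | z.2 = -1 ∧ z.1 = x'} ∪ {z | z.1 = a ∧ 0 ≤ z.2} with hY
  have hAX : A ⊆ X ∩ Box a m (-1) H := by
    intro z hz
    have := hA hz
    rw [mem_Box] at this
    refine ⟨Or.inl hz, ?_⟩
    rw [mem_Box]; omega
  have hBY : B ⊆ Y ∩ Box a m (-1) H := by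
    intro z hz
    have := hB hz
    rw [mem_Box] at this
    refine ⟨Or.inl (Or.inl hz), ?_⟩
    rw [mem_Box]; omega
  have h1 : HC Adj8 X a m (-1) H := by
    refine ⟨-1, y, ?_⟩
    have s1 : Linked Adj4 (X ∩ Box a m (-1) H) (a, -1) (x, -1) := by
      refine lnk_hseg (by omega) (fun t ht1 ht2 => ⟨Or.inr ⟨rfl, ht2⟩, ?_⟩)
      rw [mem_Box]; simp only; omega
    have s2 : Linked Adj4 (X ∩ Box a m (-1) H) (a, -1) (x, 0) := by
      refine s1.step ?_ (hAX hAl.left)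
      rw [adj4_iff]; left; exact ⟨rfl, Or.inl (by norm_num)⟩
    exact (s2.trans (hAl.mono hAX)).to8
  have h2 : VC Adj4 Y a m (-1) H := by
    refine ⟨x', a, ?_⟩
    have s1 : Linked Adj4 (Y ∩ Box a m (-1) H) (x', -1) (x', 0) := by
      refine Linked.single ⟨Or.inl (Or.inr ⟨rfl, rfl⟩), ?_⟩ (hBY hBl.left) ?_
      · rw [mem_Box]; simp only; omega
      · rw [adj4_iff]; left; exact ⟨rfl, Or.inl (by norm_num)⟩
    have s2 := s1.trans (hBl.mono hBY)
    have s3 : Linked Adj4 (Y ∩ Box a m (-1) H) (x', -1) (a, y') := by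
      refine s2.step ?_ ⟨Or.inr ⟨rfl, hyB.2.2.1⟩, ?_⟩
      · rw [adj4_iff]; right; exact ⟨rfl, Or.inr (by simp only [ha])⟩
      · rw [mem_Box]; simp only; omega
    refine s3.trans (lnk_vseg hyB.2.2.2 (fun t ht1 ht2 => ⟨Or.inr ⟨rfl, ?_⟩, ?_⟩))
    · show (0 : ℤ) ≤ t
      omega
    · rw [mem_Box]; simp only; omega
  obtain ⟨z, -, hzX, hzY⟩ := hPL1 X Y a m (-1) H h1 h2
  rcases hzX with hzX | ⟨e1, e2⟩
  · have hzb := hA hzX
    rw [mem_Box] at hzb
    rcases hzY with (hzY | ⟨e3, e4⟩) | ⟨e3, e4⟩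
    · exact Set.disjoint_left.1 hdis hzX hzY
    · omega
    · omega
  · rcases hzY with (hzY | ⟨e3, e4⟩) | ⟨e3, e4⟩
    · have hzb := hB hzY
      rw [mem_Box] at hzb
      omega
    · omega
    · omega

end Pool.Det5
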