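import Pool.Agent.Work.MP_dd5692_pr.InterfaceA

/-! # MP_dd5692_pr (A): block SH2 -/

set_option autoImplicit false

namespace Pool.Det5

open MeasureTheory MPdd5692

theorem stmt_SH2 (hPL1 : Stmt_PL1) : Stmt_SH2 := by
  intro A B w h x0 x x1 x' x2 h0 hh hdis hA hB hlt hAl hBl
  have hxA := hA hAl.left
  have hxB := hB hBl.left
  rw [mem_Box] at hxA hxB
  simp only at hxA hxB
  set C : Set Site := {z | x0 ≤ z.1} with hC
  have hAC : A ∩ C ⊆ A ∩ Box x0 w 0 h := by
    rintro z ⟨hz, hzC⟩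
    have := hA hz
    rw [mem_Box] at this
    refine ⟨hz, ?_⟩
    rw [mem_Box]
    have hzC' : x0 ≤ z.1 := hzC
    omega
  rcases hAl.stay_or_exit (C := C) (show x0 ≤ x by omega) with hs | ⟨p, q, hp, hpq, hq, hqC, -⟩
  · exact ⟨x, x1, hs.mono hAC⟩
  · exfalso
    have hpC : x0 ≤ p.1 := hp.right.2
    have hqC' : q.1 < x0 := by
      by_contra hc
      push Not at hc
      exact hqC hc
    have hp1 : p.1 = x0 := by
      have := abs_le.1 hpq.adj8.fst
      omega
    set X : Set Site := (A ∩ C) ∪ {z | z.2 = -1 ∧ x ≤ z.1} with hX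
    set Y : Set Site := B ∪ {z | z.2 = -1 ∧ z.1 = x'} with hY
    have hAX : A ∩ C ⊆ X ∩ Box x0 (x0 + w) (-1) h := by
      intro z hz
      have := hA hz.1
      rw [mem_Box] at this
      have hzC : x0 ≤ z.1 := hz.2
      refine ⟨Or.inl hz, ?_⟩
      rw [mem_Box]; omega
    have hBY : B ⊆ Y ∩ Box x0 (x0 + w) (-1) h := by
      intro z hz
      have := hB hz
      rw [mem_Box] at this
      refine ⟨Or.inl hz, ?_⟩
      rw [mem_Box]; omega
    have h1 : HC Adj8 X x0 (x0 + w) (-1) h := by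
      refine ⟨p.2, -1, ?_⟩
      have hpp : ((x0, p.2) : Site) = p := by rw [← hp1]
      rw [hpp]
      have s1 : Linked Adj4 (X ∩ Box x0 (x0 + w) (-1) h) p (x, 0) := (hp.mono hAX).symm4
      have s2 : Linked Adj4 (X ∩ Box x0 (x0 + w) (-1) h) p (x, -1) := by
        refine s1.step ?_ ⟨Or.inr ⟨rfl, le_rfl⟩, ?_⟩
        · rw [adj4_iff]; left; exact ⟨rfl, Or.inr (by norm_num)⟩
        · rw [mem_Box]; simp only; omega
      refine (s2.trans (lnk_hseg (by omega) (fun t ht1 ht2 => ⟨Or.inr ⟨rfl, ht1⟩, ?_⟩))).to8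
      rw [mem_Box]; simp only; omega
    have h2 : VC Adj4 Y x0 (x0 + w) (-1) h := by
      refine ⟨x', x2, ?_⟩
      have s1 : Linked Adj4 (Y ∩ Box x0 (x0 + w) (-1) h) (x', -1) (x', 0) := by
        refine Linked.single ⟨Or.inr ⟨rfl, rfl⟩, ?_⟩ (hBY hBl.left) ?_
        · rw [mem_Box]; simp only; omega
        · rw [adj4_iff]; left; exact ⟨rfl, Or.inl (by norm_num)⟩
      exact s1.trans (hBl.mono hBY)
    obtain ⟨z, -, hzX, hzY⟩ := hPL1 X Y x0 (x0 + w) (-1) h h1 h2
    rcases hzX with hzX | ⟨e1, e2⟩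
    · have hzb := hA hzX.1
      rw [mem_Box] at hzb
      rcases hzY with hzY | ⟨e3, e4⟩
      · exact Set.disjoint_left.1 hdis hzX.1 hzY
      · omega
    · rcases hzY with hzY | ⟨e3, e4⟩
      · have hzb := hB hzY
        rw [mem_Box] at hzb
        omega
      · omega

end Pool.Det5
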