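import Pool.Agent.Work.MP_dd5692_pr.InterfaceA2

/-!
# MP_dd5692_pr, part (A), block SHAPE: the offsets of the mesh model form a shape (helper43)
-/

set_option autoImplicit false

namespace Pool.Det5

open MeasureTheory MPdd5692

namespace SHAPE_

theorem offd_nonneg (a : ℤ) : 0 ≤ offd a := le_max_right _ _

theorem offd_mono {a b : ℤ} (h : |a| ≤ |b|) : offd a ≤ offd b := by
  unfold offd
  have : |(a : ℝ)| ≤ |(b : ℝ)| := by
    rw [← Int.cast_abs, ← Int.cast_abs]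
    exact_mod_cast h
  exact max_le_max (by linarith) le_rfl

theorem mem_solid {ρ : ℝ} {z w : Site} (hz : z ∈ offs ρ) (h1 : |w.1| ≤ |z.1|)
    (h2 : |w.2| ≤ |z.2|) : w ∈ offs ρ := by
  unfold offs at *
  simp only [Set.mem_setOf_eq] at *
  have a1 := offd_mono h1
  have a2 := offd_mono h2
  have b1 := offd_nonneg w.1
  have b2 := offd_nonneg w.2
  have c1 : offd w.1 ^ 2 ≤ offd z.1 ^ 2 := pow_le_pow_left₀ b1 a1 2
  have c2 : offd w.2 ^ 2 ≤ offd z.2 ^ 2 := pow_le_pow_left₀ b2 a2 2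
  linarith

theorem outer_aux {ρ : ℝ} (hρ : 0 ≤ ρ) {a : ℤ} (h : offd a ^ 2 ≤ ρ ^ 2) :
    |a| ≤ ((⌊ρ + 1 / 2⌋₊ : ℕ) : ℤ) := by
  have h1 : offd a ≤ ρ := by
    exact (pow_le_pow_iff_left₀ (offd_nonneg a) hρ (by norm_num)).1 h
  have h2 : |(a : ℝ)| ≤ ρ + 1 / 2 := by
    have : |(a : ℝ)| - 1 / 2 ≤ offd a := le_max_left _ _
    linarith
  have h3 : ((a.natAbs : ℕ) : ℝ) ≤ ρ + 1 / 2 := by
    rw [Nat.cast_natAbs, Int.cast_abs]
    exact h2
  have h4 : a.natAbs ≤ ⌊ρ + 1 / 2⌋₊ := Nat.le_floor h3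
  rw [Int.abs_eq_natAbs]
  exact_mod_cast h4

end SHAPE_

open SHAPE_ in
theorem stmt_SHAPE : Stmt_SHAPE := by
  classical
  intro ρ hρ
  have hρ0 : (0 : ℝ) ≤ ρ := by linarith
  set R : ℕ := ⌊ρ + 1 / 2⌋₊ with hR
  set R0 : ℕ := ⌊ρ / 2⌋₊ + 1 with hR0
  have hRle : (R : ℝ) ≤ ρ + 1 / 2 := Nat.floor_le (by linarith)
  have hR0lt : ρ / 2 < (R0 : ℝ) := by
    rw [hR0]
    push_cast
    exact Nat.lt_floor_add_one _
  have hR0le : (R0 : ℝ) ≤ ρ / 2 + 1 := by
    rw [hR0]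
    push_cast
    have := Nat.floor_le (show (0 : ℝ) ≤ ρ / 2 by linarith)
    linarith
  have hout : ∀ z : Site, z ∈ offs ρ → |z.1| ≤ (R : ℤ) ∧ |z.2| ≤ (R : ℤ) := by
    intro z hz
    unfold offs at hz
    simp only [Set.mem_setOf_eq] at hz
    have s1 := sq_nonneg (offd z.1)
    have s2 := sq_nonneg (offd z.2)
    exact ⟨outer_aux hρ0 (by linarith), outer_aux hρ0 (by linarith)⟩
  let K : Finset Site := (boxF (-(R : ℤ)) R (-(R : ℤ)) R).filter (fun z => z ∈ offs ρ)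
  have hK : ∀ z : Site, z ∈ K ↔ z ∈ offs ρ := by
    intro z
    rw [Finset.mem_filter, mem_boxF, mem_Box]
    constructor
    · exact fun h => h.2
    · intro h
      obtain ⟨h1, h2⟩ := hout z h
      have h1' := abs_le.1 h1
      have h2' := abs_le.1 h2
      exact ⟨⟨h1'.1, h1'.2, h2'.1, h2'.2⟩, h⟩
  have hinner : ∀ z : Site, |z.1| ≤ (R0 : ℤ) → |z.2| ≤ (R0 : ℤ) → z ∈ K := by
    intro z h1 h2
    rw [hK]
    unfold offs
    simp only [Set.mem_setOf_eq]
    have key : ∀ a : ℤ, |a| ≤ (R0 : ℤ) → offd a ^ 2 ≤ ((ρ + 1) / 2) ^ 2 := by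
      intro a ha
      have ha' : |(a : ℝ)| ≤ (R0 : ℝ) := by
        rw [← Int.cast_abs]
        exact_mod_cast ha
      have h3 : offd a ≤ (ρ + 1) / 2 := by
        unfold offd
        exact max_le (by linarith) (by linarith)
      exact pow_le_pow_left₀ (offd_nonneg a) h3 2
    have k1 := key _ h1
    have k2 := key _ h2
    nlinarith
  let S : Shape :=
    { K := K
      ρ := R
      ρ0 := R0
      pos := by rw [hR0]; omega
      le := by
        have h1 : (R : ℝ) < 2 * (R0 : ℝ) + 1 := by linarith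
        have h2 : R < 2 * R0 + 1 := by exact_mod_cast h1
        omega
      inner := hinner
      outer := fun z hz => hout z ((hK z).1 hz)
      solid := fun z hz w h1 h2 => (hK w).2 (mem_solid ((hK z).1 hz) h1 h2)
      swap := by
        intro z hz
        rw [hK] at hz ⊢
        unfold offs at *
        simp only [Set.mem_setOf_eq] at *
        linarith }
  exact ⟨S, hK, hRle, hR0lt.le⟩

end Pool.Det5
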