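import Pool.Agent.Work.MP_dd5692_pr.InterfaceA2

/-!
# MP_dd5692_pr, part (A), block STARM: one-arm lower bound in units of s-cells
-/

set_option autoImplicit false

namespace Pool.Det5

open MeasureTheory MPdd5692 ProbabilityTheory
open scoped ENNReal NNReal

namespace STARM

/-- the inner box -/
theorem inner {q a : ℕ} (hq : 2 ≤ q) {x : Site}
    (hx : x ∈ Bx (((q : ℤ) / 2, (q : ℤ) / 2) : Site) ((a : ℤ) * q + (q : ℤ) / 2 - 1)) :
    x ∈ cbox q 0 a := by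
  unfold Bx at hx
  rw [mem_Box] at hx
  obtain ⟨h1, h2, h3, h4⟩ := hx
  have hq0 : (0 : ℤ) < q := by omega
  have key : ∀ t : ℤ, (q : ℤ) / 2 - ((a : ℤ) * q + (q : ℤ) / 2 - 1) ≤ t →
      t ≤ (q : ℤ) / 2 + ((a : ℤ) * q + (q : ℤ) / 2 - 1) → |t / (q : ℤ)| ≤ a := by
    intro t h5 h6
    rw [abs_le]
    constructor
    · rw [Int.le_ediv_iff_mul_le hq0]
      have : -(a : ℤ) * q = -((a : ℤ) * q) := by ring
      omega
    · have : t / (q : ℤ) < (a : ℤ) + 1 := by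
        rw [Int.ediv_lt_iff_lt_mul hq0]
        have : ((a : ℤ) + 1) * q = (a : ℤ) * q + q := by ring
        omega
      omega
  unfold cbox box cidx nrm
  simp only [Set.mem_ofPred_eq, sub_zero]
  exact max_le (key _ h1 h2) (key _ h3 h4)

/-- the outer box -/
theorem outer {q b : ℕ} (hq : 2 ≤ q) {R : ℤ} (hR : ((b : ℤ) + 1) * q ≤ R) {x : Site}
    (hx : x ∈ cbox q 0 b) : x ∈ Bx (((q : ℤ) / 2, (q : ℤ) / 2) : Site) R := by
  have hq0 : (0 : ℤ) < q := by omega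
  unfold cbox box cidx nrm at hx
  simp only [Set.mem_ofPred_eq, sub_zero] at hx
  have h1 := le_trans (le_max_left _ _) hx
  have h2 := le_trans (le_max_right _ _) hx
  have key : ∀ t : ℤ, |t / (q : ℤ)| ≤ b → (q : ℤ) / 2 - R ≤ t ∧ t ≤ (q : ℤ) / 2 + R := by
    intro t ht
    rw [abs_le] at ht
    have e1 : -(b : ℤ) * q ≤ t := (Int.le_ediv_iff_mul_le hq0).1 ht.1
    have e2 : t < ((b : ℤ) + 1) * q := by
      rw [← Int.ediv_lt_iff_lt_mul hq0]
      omega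
    have e3 : -(b : ℤ) * q = -((b : ℤ) * q) := by ring
    have e4 : ((b : ℤ) + 1) * q = (b : ℤ) * q + q := by ring
    constructor <;> omega
  unfold Bx
  rw [mem_Box]
  exact ⟨(key _ h1).1, (key _ h1).2, (key _ h2).1, (key _ h2).2⟩

/-- real arithmetic -/
theorem arith {c θ : ℝ} (hc : 0 < c) (hθ1 : 1 / 4 < θ) (hθ2 : θ < 1) {n a b : ℕ}
    (hn : (4 : ℝ) ^ n * (2 * a + 1) ≤ 16 * (2 * b + 1)) :
    c / 16 * ((2 * (a : ℝ) + 1) / (2 * b + 1)) ^ (Real.logb 4 (4 * θ)) ≤ c * (4 * θ) ^ (-(n : ℤ)) := by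
  set κ := Real.logb 4 (4 * θ) with hκ
  have hκ0 : 0 < κ := Real.logb_pos (by norm_num) (by linarith)
  have hκ1 : κ < 1 := by
    rw [hκ, Real.logb_lt_iff_lt_rpow (by norm_num) (by linarith), Real.rpow_one]
    linarith
  have h4 : (4 : ℝ) ^ κ = 4 * θ := Real.rpow_logb (by norm_num) (by norm_num) (by linarith)
  have ha : (0 : ℝ) < 2 * (a : ℝ) + 1 := by positivity
  have hb : (0 : ℝ) < 2 * (b : ℝ) + 1 := by positivity
  have e1 : (4 * θ) ^ n = ((4 : ℝ) ^ n) ^ κ := by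
    rw [← h4, ← Real.rpow_natCast ((4 : ℝ) ^ κ) n, ← Real.rpow_mul (by norm_num), mul_comm κ,
      Real.rpow_mul (by norm_num), Real.rpow_natCast]
  have e2 : ((4 : ℝ) ^ n) ^ κ ≤ 16 * ((2 * (b : ℝ) + 1) / (2 * a + 1)) ^ κ := by
    calc ((4 : ℝ) ^ n) ^ κ ≤ (16 * ((2 * (b : ℝ) + 1) / (2 * a + 1))) ^ κ := by
          refine Real.rpow_le_rpow (by positivity) ?_ hκ0.le
          rw [← mul_div_assoc, le_div_iff₀ ha]
          exact hn
      _ = 16 ^ κ * ((2 * (b : ℝ) + 1) / (2 * a + 1)) ^ κ := Real.mul_rpow (by norm_num) (by positivity)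
      _ ≤ 16 * ((2 * (b : ℝ) + 1) / (2 * a + 1)) ^ κ := by
          refine mul_le_mul_of_nonneg_right ?_ (by positivity)
          calc (16 : ℝ) ^ κ ≤ 16 ^ (1 : ℝ) := Real.rpow_le_rpow_of_exponent_le (by norm_num) hκ1.le
            _ = 16 := Real.rpow_one _
  have e3 : ((2 * (a : ℝ) + 1) / (2 * b + 1)) ^ κ = (((2 * (b : ℝ) + 1) / (2 * a + 1)) ^ κ)⁻¹ := by
    rw [← Real.inv_rpow (by positivity), inv_div]
  rw [zpow_neg, zpow_natCast, e1, e3]
  have p1 : 0 < ((4 : ℝ) ^ n) ^ κ := by positivity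
  have p2 : 0 < ((2 * (b : ℝ) + 1) / (2 * a + 1)) ^ κ := by positivity
  rw [div_mul_eq_mul_div, ← div_eq_mul_inv, div_div, ← div_eq_mul_inv]
  refine div_le_div_of_nonneg_left hc.le p1 ?_
  linarith

end STARM

theorem stmt_STARM (hALLOW : Stmt_ALLOW) (hARML : Stmt_ARML) (hVSYM : Stmt_VSYM)
    (hLAW : Stmt_LAW) : Stmt_STARM := by
  intro c1 cb hc1 hcb
  obtain ⟨c, θ, hc, hθ1, hθ2, hA⟩ := hALLOW c1 cb hc1 hcb
  have hκ0 : 0 < Real.logb 4 (4 * θ) := Real.logb_pos (by norm_num) (by linarith)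
  have hκ1 : Real.logb 4 (4 * θ) < 1 := by
    rw [Real.logb_lt_iff_lt_rpow (by norm_num) (by linarith), Real.rpow_one]
    linarith
  refine ⟨c / 16, 1 - Real.logb 4 (4 * θ), by positivity, by linarith, by linarith, ?_⟩
  intro l j ρ S cr g n1 N hS hG q a b hq hab hN
  have hn1 : 100 ≤ n1 := by
    have := hG.hn1
    have h0 : (0 : ℤ) ≤ S.ρ := Int.natCast_nonneg _
    omega
  have hq2 : 2 ≤ q := by
    have : (2 : ℤ) ≤ q := by omega
    exact_mod_cast this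
  have hq0 : (0 : ℤ) < q := by omega
  set r1 : ℤ := (a : ℤ) * q + (q : ℤ) / 2 - 1 with hr1
  have haq : (0 : ℤ) ≤ (a : ℤ) * q := by positivity
  have hr1n : 4 * n1 ≤ r1 := by omega
  have hr1p : 0 < r1 := by omega
  have habq : (a : ℤ) * q ≤ (b : ℤ) * q := by
    refine mul_le_mul_of_nonneg_right ?_ hq0.le
    exact_mod_cast hab
  have hbq : ((b : ℤ) + 1) * q = (b : ℤ) * q + q := by ring
  -- the scale
  have hex : ∃ n : ℕ, ((b : ℤ) + 1) * q ≤ 4 ^ n * r1 := by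
    refine ⟨(b + 1) * q, ?_⟩
    have h1 : (b + 1) * q < 4 ^ ((b + 1) * q) := Nat.lt_pow_self (by norm_num)
    have h2 : (((b + 1) * q : ℕ) : ℤ) ≤ ((4 ^ ((b + 1) * q) : ℕ) : ℤ) := by exact_mod_cast h1.le
    push_cast at h2
    have h3 : (4 : ℤ) ^ ((b + 1) * q) * 1 ≤ 4 ^ ((b + 1) * q) * r1 :=
      mul_le_mul_of_nonneg_left (by omega) (by positivity)
    linarith
  classical
  set n := Nat.find hex with hn
  have hn1' : ((b : ℤ) + 1) * q ≤ 4 ^ n * r1 := Nat.find_spec hex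
  have hn2 : 4 ^ n * r1 ≤ 4 * (((b : ℤ) + 1) * q) := by
    rcases Nat.eq_zero_or_pos n with h0 | h0
    · rw [h0, pow_zero, one_mul]
      omega
    · have h1 := Nat.find_min hex (m := n - 1) (by rw [← hn]; omega)
      push Not at h1
      have h2 : (4 : ℤ) ^ n = 4 * 4 ^ (n - 1) := by
        rw [← pow_succ', Nat.sub_add_cancel h0]
      rw [h2, mul_assoc]
      exact (mul_lt_mul_of_pos_left h1 (by norm_num)).le
  have hN4 : 4 ^ n * r1 ≤ N := by
    refine le_trans hn2 (le_trans ?_ hN)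
    have : (0 : ℤ) ≤ ((b : ℤ) + 1) * q := by positivity
    linarith
  have hlow := hA S (qof l j) cr g n1 N hG n r1 hr1n hN4
  -- translation
  set z0 : Site := ((q : ℤ) / 2, (q : ℤ) / 2) with hz0
  set gg : Site ≃ Site := Equiv.addRight z0 with hgg
  have hsym : IsSym gg := by
    intro z w
    left
    simp [hgg]
  have hle : r1 ≤ 4 ^ n * r1 := by
    have : (1 : ℤ) ≤ 4 ^ n := one_le_pow₀ (by norm_num)
    nlinarith
  have hloc : LocF (arm r1 (4 ^ n * r1)) := (hARML r1 (4 ^ n * r1)).2.2 hle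
  have hloc' : LocF (fun W => arm r1 (4 ^ n * r1) (gg ⁻¹' W)) := by
    obtain ⟨B, hB, hL⟩ := hloc
    refine ⟨gg '' B, hB.image _, ?_⟩
    intro W W' hWW
    refine hL _ _ ?_
    ext z
    have h1 : z ∈ B ↔ gg z ∈ gg '' B := by
      rw [Set.mem_image]
      constructor
      · intro h; exact ⟨z, h, rfl⟩
      · rintro ⟨y, hy, hyz⟩
        rwa [← gg.injective hyz]
    rw [Set.mem_inter_iff, Set.mem_inter_iff, Set.mem_preimage, Set.mem_preimage, h1]
    have h2 : gg z ∈ W ∩ gg '' B ↔ gg z ∈ W' ∩ gg '' B := by rw [hWW]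
    exact h2
  have heq := hVSYM S (qof l j) gg (arm r1 (4 ^ n * r1)) hsym hloc
  have hlaw := hLAW l j ρ S hS (fun W => arm r1 (4 ^ n * r1) (gg ⁻¹' W)) hloc'
  have : IsProbabilityMeasure (stat l j) := by
    unfold stat
    infer_instance
  have hmono : (stat l j).real {η | arm r1 (4 ^ n * r1) (gg ⁻¹' (vacSites ρ (occ η)))} ≤
      alpha ρ q l j a b := by
    unfold alpha SP
    refine measureReal_mono ?_ (measure_ne_top _ _)
    intro η hη
    obtain ⟨u, hu, v, hv, huv⟩ := hη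
    show Wired Adj4 (vacSites ρ (occ η)) (cbox q 0 a) (cbox q 0 b)ᶜ
    refine ⟨u + z0, ?_, v + z0, ?_, ?_⟩
    · refine STARM.inner hq2 ?_
      unfold Bx at hu ⊢
      rw [mem_Box] at hu ⊢
      simp only [hz0, Prod.fst_add, Prod.snd_add, Prod.fst_zero, Prod.snd_zero] at hu ⊢
      omega
    · intro hcon
      apply hv
      have h1 := STARM.outer hq2 hn1' hcon
      unfold Bx at h1 ⊢
      rw [mem_Box] at h1 ⊢
      simp only [hz0, Prod.fst_add, Prod.snd_add, Prod.fst_zero, Prod.snd_zero] at h1 ⊢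
      omega
    · have h1 : Linked Adj4 (vacSites ρ (occ η)) (gg u) (gg v) := by
        refine huv.map gg ?_ (fun z hz => hz)
        intro z w hzw
        unfold Adj4 at hzw ⊢
        simpa [hgg] using hzw
      exact h1.mono (fun z hz => Or.inl (Or.inl hz))
  have hfin : al S (qof l j) r1 (4 ^ n * r1) ≤ alpha ρ q l j a b := by
    rw [hlaw, heq] at hmono
    exact hmono
  refine le_trans ?_ (le_trans hlow hfin)
  have hexp : (1 : ℝ) - (1 - Real.logb 4 (4 * θ)) = Real.logb 4 (4 * θ) := by ring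
  rw [hexp]
  refine STARM.arith hc hθ1 hθ2 ?_
  -- 4 ^ n (2 a + 1) ≤ 16 (2 b + 1)
  have hr1low : (4 * (a : ℤ) + 1) * q ≤ 4 * r1 := by
    have : (4 * (a : ℤ) + 1) * q = 4 * ((a : ℤ) * q) + q := by ring
    omega
  have h5 : (4 : ℤ) ^ n * ((4 * a + 1) * q) ≤ 16 * (((b : ℤ) + 1) * q) := by
    calc (4 : ℤ) ^ n * ((4 * a + 1) * q) ≤ 4 ^ n * (4 * r1) :=
          mul_le_mul_of_nonneg_left hr1low (by positivity)
      _ = 4 * (4 ^ n * r1) := by ring
      _ ≤ 4 * (4 * (((b : ℤ) + 1) * q)) := mul_le_mul_of_nonneg_left hn2 (by norm_num)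
      _ = 16 * (((b : ℤ) + 1) * q) := by ring
  have h6 : (4 : ℤ) ^ n * (4 * a + 1) ≤ 16 * ((b : ℤ) + 1) := by
    have : ((4 : ℤ) ^ n * (4 * a + 1)) * q ≤ (16 * ((b : ℤ) + 1)) * q := by linarith
    exact le_of_mul_le_mul_right this hq0
  have h7 : (4 : ℝ) ^ n * (4 * a + 1) ≤ 16 * ((b : ℝ) + 1) := by exact_mod_cast h6
  have h8 : (4 : ℝ) ^ n * (2 * a + 1) ≤ 4 ^ n * (4 * a + 1) :=
    mul_le_mul_of_nonneg_left (by linarith [Nat.cast_nonneg (α := ℝ) a]) (by positivity)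
  have h9 : (0 : ℝ) ≤ b := Nat.cast_nonneg _
  linarith

end Pool.Det5
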