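import Pool.Agent.Work.MP_dd5692_pr.InterfaceA2

/-!
# MP_dd5692_pr, part (A): block STATA (helper80)
-/

set_option autoImplicit false

namespace Pool.Det5

open MeasureTheory MPdd5692 ProbabilityTheory
open scoped ENNReal NNReal

theorem stmt_STATA (hGOOD : Stmt_GOOD) (hSTU : Stmt_STU) (hSTN : Stmt_STN) (hSTARM : Stmt_STARM) :
    Stmt_STATA := by
  intro r l hr hl hEV hEO
  obtain ⟨c1, cb, cr, hc1, hcb, hcr, n1, hn1, hG⟩ := hGOOD r l hr hl hEV hEO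
  obtain ⟨cU, hcU, hU⟩ := hSTU c1 cb hc1 hcb
  obtain ⟨cN, hcN, hN⟩ := hSTN c1 cr hc1 hcr
  obtain ⟨cA, e, hcA, he, he1, hA⟩ := hSTARM c1 cb hc1 hcb
  refine ⟨min cA (min cU cN), e, by positivity, he, he1, max (20 * n1) (Nat.ceil (20 * (r + 5))),
    ?_⟩
  intro s hs nmax
  obtain ⟨j0, hj0⟩ := hG (16 * (nmax + 1) * s)
  refine ⟨j0, fun j hj => ?_⟩
  obtain ⟨S, hS, hgood⟩ := hj0 j hj
  have hs1 : 20 * n1 ≤ s := le_trans (le_max_left _ _) hs
  have hs2 : 20 * (r + 5) ≤ (s : ℝ) := by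
    have h1 : Nat.ceil (20 * (r + 5)) ≤ s := le_trans (le_max_right _ _) hs
    exact le_trans (Nat.le_ceil _) (by exact_mod_cast h1)
  have hpow : (1 : ℤ) ≤ 2 ^ j := one_le_pow₀ (by norm_num)
  have hpow' : (1 : ℝ) ≤ 2 ^ j := one_le_pow₀ (by norm_num)
  have hrange : range r j = r * 2 ^ j + 3 := by
    unfold range mesh
    rw [one_div, inv_pow, div_inv_eq_mul]
  have hq20 : 20 * ((n1 : ℤ) * 2 ^ j) ≤ ((s * 2 ^ j : ℕ) : ℤ) := by
    push_cast
    have : (20 * n1 : ℤ) ≤ s := by exact_mod_cast hs1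
    nlinarith
  have hq5 : 5 * ((n1 : ℤ) * 2 ^ j) ≤ ((s * 2 ^ j : ℕ) : ℤ) := by
    refine le_trans ?_ hq20
    have : (0 : ℤ) ≤ (n1 : ℤ) * 2 ^ j := by positivity
    linarith
  have hNs : ∀ b : ℕ, b ≤ nmax →
      16 * ((b : ℤ) + 1) * ((s * 2 ^ j : ℕ) : ℤ) ≤ ((16 * (nmax + 1) * s : ℕ) : ℤ) * 2 ^ j := by
    intro b hb
    push_cast
    have h1 : (b : ℤ) ≤ nmax := by exact_mod_cast hb
    have h2 : (0 : ℤ) ≤ (s : ℤ) * 2 ^ j := by positivity
    nlinarith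
  have hNs' : ∀ b : ℕ, b ≤ nmax →
      2 * (b : ℤ) * ((s * 2 ^ j : ℕ) : ℤ) ≤ ((16 * (nmax + 1) * s : ℕ) : ℤ) * 2 ^ j := by
    intro b hb
    refine le_trans ?_ (hNs b hb)
    have h2 : (0 : ℤ) ≤ ((s * 2 ^ j : ℕ) : ℤ) := by positivity
    have h3 : (0 : ℤ) ≤ (b : ℤ) := by positivity
    nlinarith
  refine ⟨by positivity, he, he1, ?_, ?_, ?_, ?_, ?_⟩
  · rw [hrange]
    have : 0 ≤ r * 2 ^ j := by positivity
    linarith
  · rw [hrange]
    push_cast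
    have h1 : 20 * (r + 5) * 2 ^ j ≤ (s : ℝ) * 2 ^ j := by gcongr
    nlinarith
  · intro a b hab hb
    refine le_trans (le_trans (min_le_right _ _) (min_le_left _ _)) ?_
    exact hU l j (range r j) S cr _ _ _ hS hgood _ a b hq5 hab (hNs' b hb)
  · intro a b hab hb
    refine le_trans (le_trans (min_le_right _ _) (min_le_right _ _)) ?_
    exact hN l j (range r j) S cb _ _ _ hS hgood _ a b hq5 hab (hNs' b hb)
  · intro a b hab hb
    refine le_trans ?_ (hA l j (range r j) S cr _ _ _ hS hgood _ a b hq20 hab (hNs b hb))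
    apply mul_le_mul_of_nonneg_right (min_le_left _ _)
    apply Real.rpow_nonneg
    positivity

end Pool.Det5
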