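import Pool.Agent.Work.MP_dd5692_pr.InterfaceA2

/-!
# MP_dd5692_pr, part (A), block STN: occupied circuits in the rings of StaticOK (helper43)
-/

set_option autoImplicit false

namespace Pool.Det5

open MeasureTheory MPdd5692 ProbabilityTheory
open scoped ENNReal NNReal

namespace STN_

theorem mem_cbox {q : ℕ} (hq : 1 ≤ q) (a : ℕ) (x : Site) :
    x ∈ cbox q 0 a ↔ (-(a : ℤ) * q ≤ x.1 ∧ x.1 ≤ (a + 1) * q - 1) ∧
      (-(a : ℤ) * q ≤ x.2 ∧ x.2 ≤ (a + 1) * q - 1) := by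
  have hq' : (0 : ℤ) < q := by exact_mod_cast hq
  have key : ∀ y : ℤ, |y / (q : ℤ)| ≤ (a : ℤ) ↔ (-(a : ℤ) * q ≤ y ∧ y ≤ (a + 1) * q - 1) := by
    intro y
    rw [abs_le, Int.le_ediv_iff_mul_le hq']
    have h2 : y / (q : ℤ) ≤ (a : ℤ) ↔ y ≤ ((a : ℤ) + 1) * q - 1 := by
      rw [← Int.lt_add_one_iff, Int.ediv_lt_iff_lt_mul hq']
      omega
    rw [h2]
  unfold cbox box cidx nrm
  simp only [Set.mem_setOf_eq, sub_zero, max_le_iff]
  rw [key, key]

/-- a wired connection contains a free connection from the neighbourhood of the block to the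
neighbourhood of the complement -/
theorem extract {q : ℕ} (hq : 1 ≤ q) {a b : ℕ} (hab : a < b) {S : Set Site}
    (h : Wired Adj4 S (cbox q 0 a) (cbox q 0 b)ᶜ) :
    ∃ u ∈ Box (-(a * q) - 1) ((a + 1) * q) (-(a * q) - 1) ((a + 1) * q),
    ∃ v, v ∉ Box (-(a * q) - 1 - (((b : ℤ) - a) * q - 2)) ((a + 1) * q + (((b : ℤ) - a) * q - 2))
      (-(a * q) - 1 - (((b : ℤ) - a) * q - 2)) ((a + 1) * q + (((b : ℤ) - a) * q - 2)) ∧
      Linked Adj4 S u v := by
  have hq' : (1 : ℤ) ≤ q := by exact_mod_cast hq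
  have hab' : (a : ℤ) + 1 ≤ b := by exact_mod_cast hab
  have habq : ((a : ℤ) + 1) * q ≤ b * q := mul_le_mul_of_nonneg_right hab' (by omega)
  obtain ⟨u, hu, v, hv, hl⟩ := h
  have huC : u ∈ cbox q 0 b := by
    rw [mem_cbox hq] at hu ⊢
    obtain ⟨⟨h1, h2⟩, h3, h4⟩ := hu
    have e1 : -(b : ℤ) * q = -(b * q) := by ring
    have e2 : -(a : ℤ) * q = -(a * q) := by ring
    have e3 : ((b : ℤ) + 1) * q = b * q + q := by ring
    have e4 : ((a : ℤ) + 1) * q = a * q + q := by ring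
    rw [e1, e3]
    rw [e2] at h1 h3
    rw [e4] at h2 h4 habq
    refine ⟨⟨?_, ?_⟩, ?_, ?_⟩ <;> omega
  obtain ⟨x, y, hux, hxy, -, hyC, -⟩ := hl.exit huC hv
  have hxu := hux.symm4
  have hxC := hux.right.2
  -- x is next to the complement of the block b
  have hxy1 := abs_le.1 hxy.adj8.fst
  have hxy2 := abs_le.1 hxy.adj8.snd
  have hxout : x ∉ Box (-(a * q) - 1 - (((b : ℤ) - a) * q - 2))
      ((a + 1) * q + (((b : ℤ) - a) * q - 2))
      (-(a * q) - 1 - (((b : ℤ) - a) * q - 2)) ((a + 1) * q + (((b : ℤ) - a) * q - 2)) := by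
    intro hx
    rw [mem_Box] at hx
    apply hyC
    rw [mem_cbox hq]
    have e1 : -(b : ℤ) * q = -(b * q) := by ring
    have e3 : ((b : ℤ) + 1) * q = b * q + q := by ring
    have e4 : ((a : ℤ) + 1) * q = a * q + q := by ring
    have e5 : ((b : ℤ) - a) * q = b * q - a * q := by ring
    rw [e1, e3]
    rw [e4, e5] at hx
    obtain ⟨h1, h2, h3, h4⟩ := hx
    refine ⟨⟨?_, ?_⟩, ?_, ?_⟩ <;> omega
  have hxA : x ∈ (cbox q 0 a)ᶜ := by
    intro hxa
    apply hxout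
    rw [mem_cbox hq] at hxa
    rw [mem_Box]
    obtain ⟨⟨h1, h2⟩, h3, h4⟩ := hxa
    have e2 : -(a : ℤ) * q = -(a * q) := by ring
    have e4 : ((a : ℤ) + 1) * q = a * q + q := by ring
    have e5 : ((b : ℤ) - a) * q = b * q - a * q := by ring
    rw [e2] at h1 h3
    rw [e4] at h2 h4 habq
    rw [e4, e5]
    refine ⟨?_, ?_, ?_, ?_⟩ <;> omega
  have huA : u ∉ (cbox q 0 a)ᶜ := fun hh => hh hu
  obtain ⟨x', y', hxx', hxy', -, hyA, -⟩ := hxu.exit hxA huA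
  have hxx1 := abs_le.1 hxy'.adj8.fst
  have hxx2 := abs_le.1 hxy'.adj8.snd
  have hyA' : y' ∈ cbox q 0 a := by
    by_contra hh
    exact hyA hh
  have hx'Q : x' ∈ Box (-(a * q : ℤ) - 1) ((a + 1) * q) (-(a * q) - 1) ((a + 1) * q) := by
    rw [mem_cbox hq] at hyA'
    rw [mem_Box]
    obtain ⟨⟨h1, h2⟩, h3, h4⟩ := hyA'
    have e2 : -(a : ℤ) * q = -(a * q) := by ring
    have e4 : ((a : ℤ) + 1) * q = a * q + q := by ring
    rw [e2] at h1 h3
    rw [e4] at h2 h4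
    rw [e4]
    refine ⟨?_, ?_, ?_, ?_⟩ <;> omega
  refine ⟨x', hx'Q, x, hxout, ?_⟩
  refine Linked.mono ?_ hxx'.symm4
  rintro z ⟨⟨hz1, hz2⟩, hz3⟩
  rcases hz1 with (hz1 | hz1) | hz1
  · exact hz1
  · exact absurd hz1 hz3
  · exact absurd hz2 hz1

end STN_

open STN_ in
theorem stmt_STN (hA2N : Stmt_A2N) (hNOX : Stmt_NOX) (hLAW : Stmt_LAW) (hLOCS : Stmt_LOCS) :
    Stmt_STN := by
  intro c1 cr hc1 hcr
  obtain ⟨δ, hδ, hA⟩ := hA2N c1 cr hc1 hcr
  refine ⟨δ 21, hδ 21, ?_⟩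
  intro l j ρ S cb g n1 N hS hG q a b hq hab hN
  have hρ0 : (0 : ℤ) ≤ S.ρ := Int.natCast_nonneg _
  have hn1 : 100 ≤ n1 := by
    have := hG.hn1
    linarith
  have hq1 : 1 ≤ q := by
    have h1 : (500 : ℤ) ≤ q := by linarith
    omega
  have hqz : (500 : ℤ) ≤ q := by linarith
  have hablt : a < b := by omega
  have habz : (a : ℤ) + 1 ≤ b := by exact_mod_cast hablt
  have h20 : 2 * (a : ℤ) + 1 ≤ 20 * ((b : ℤ) - a) := by
    have h1 : 11 * (2 * (a : ℤ) + 1) ≤ 10 * (2 * b + 1) := by exact_mod_cast hab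
    linarith
  set t : ℤ := ((b : ℤ) - a) * q - 2 with ht
  have hqba : (q : ℤ) ≤ ((b : ℤ) - a) * q := by nlinarith
  have hprod : (2 * (a : ℤ) + 1) * q ≤ 20 * (((b : ℤ) - a) * q) := by
    have := mul_le_mul_of_nonneg_right h20 (show (0 : ℤ) ≤ q by linarith)
    linarith
  have hA' := hA S (qof l j) cb g n1 N hG 21 (-(a * q) - 1) ((a + 1) * q) (-(a * q) - 1)
    ((a + 1) * q) t
    (by nlinarith) (by nlinarith)
    (by push_cast; nlinarith) (by push_cast; nlinarith)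
    (by linarith) (by nlinarith)
  refine hA'.trans ?_
  have hloc := (hLOCS Adj4 (-(a * q) - 1) ((a + 1) * q) (-(a * q) - 1) ((a + 1) * q) t
    0 0 0 0 0).2.2.2.2.2.2.2.2.2.2.2.1
  rw [← hLAW l j ρ S hS _ hloc]
  unfold SP
  have : IsProbabilityMeasure (stat l j) := by
    unfold stat
    infer_instance
  refine measureReal_mono ?_ (measure_ne_top _ _)
  intro η hη
  simp only [Set.mem_setOf_eq] at hη ⊢
  intro hW
  obtain ⟨u, hu, v, hv, hl⟩ := extract hq1 hablt hW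
  exact hNOX _ _ _ _ t _ (by nlinarith) (by nlinarith) (by linarith) hη u hu v hv hl

end Pool.Det5
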