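import Pool.Agent.Work.MP_dd5692_pr.InterfaceA2

/-!
# MP_dd5692_pr, part (A): block STU (helper42)
-/

set_option autoImplicit false

namespace Pool.Det5

open MeasureTheory MPdd5692 ProbabilityTheory
open scoped ENNReal NNReal

namespace STU

theorem mem_cbox {q a : ℕ} (hq : 0 < q) (x : Site) : x ∈ cbox q 0 a ↔
    x ∈ Box (-((a : ℤ) * q)) ((a + 1) * q - 1) (-((a : ℤ) * q)) ((a + 1) * q - 1) := by
  have hq' : (0 : ℤ) < q := by exact_mod_cast hq
  have key : ∀ t : ℤ, |t / (q : ℤ)| ≤ a ↔ -((a : ℤ) * q) ≤ t ∧ t ≤ (a + 1) * q - 1 := by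
    intro t
    rw [abs_le]
    constructor
    · rintro ⟨h1, h2⟩
      constructor
      · have := (Int.le_ediv_iff_mul_le hq').1 h1
        linarith
      · have : t / (q : ℤ) < a + 1 := by omega
        have := (Int.ediv_lt_iff_lt_mul hq').1 this
        omega
    · rintro ⟨h1, h2⟩
      constructor
      · rw [Int.le_ediv_iff_mul_le hq']; linarith
      · have : t / (q : ℤ) < a + 1 := by
          rw [Int.ediv_lt_iff_lt_mul hq']; omega
        omega
  unfold cbox cidx box nrm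
  simp only [Set.mem_ofPred_eq, sub_zero, max_le_iff]
  rw [key, key, mem_Box]
  tauto

theorem circ_UU (hCIRC : Stmt_CIRC) {ρ : ℝ} {q a b : ℕ} (hq : 3 ≤ q) (hab : a < b) (O : Set Site)
    (h : Circ (-((a : ℤ) * q) - 1) ((a + 1) * q) (-((a : ℤ) * q) - 1) ((a + 1) * q)
      (((b : ℤ) - a) * q - 2) (vacSites ρ O)) : UU ρ q O 0 a b := by
  have hq0 : 0 < q := by omega
  have hq' : (3 : ℤ) ≤ q := by exact_mod_cast hq
  have hab' : (a : ℤ) + 1 ≤ b := by exact_mod_cast hab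
  have ha0 : (0 : ℤ) ≤ a * q := by positivity
  have e1 : ((a : ℤ) + 1) * q = a * q + q := by ring
  have e2 : ((b : ℤ) + 1) * q = b * q + q := by ring
  have e3 : ((b : ℤ) - a) * q = b * q - a * q := by ring
  have e4 : (a : ℤ) * q + q ≤ b * q := by nlinarith
  rintro ⟨u, hu, v, hv, hl⟩
  rw [mem_cbox hq0, mem_Box] at hu
  rw [Set.mem_compl_iff, mem_cbox hq0, mem_Box] at hv
  obtain ⟨g, -, hg⟩ := hCIRC _ _ _ _ _ _ (by rw [e1]; omega) (by rw [e1]; omega)
    (by rw [e3]; omega) h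
  obtain ⟨p, hp1, hp2⟩ := hg _ u v (by rw [mem_Box]; rw [e1] at hu ⊢; omega)
    (by
      intro hvB
      apply hv
      rw [mem_Box, e1, e3] at hvB
      rw [e2]
      omega) hl
  obtain ⟨hpv, hpB, hpR⟩ := hp1.right
  rw [mem_Box, e1, e3] at hpB
  rw [e1] at hpR
  rcases hp2.right with (h1 | h1) | h1
  · exact h1 hpv
  · rw [mem_cbox hq0, mem_Box, e1] at h1
    omega
  · rw [Set.mem_compl_iff, mem_cbox hq0, mem_Box, e2] at h1
    apply h1
    omega

end STU

open STU in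
theorem stmt_STU (hA1C : Stmt_A1C) (hCIRC : Stmt_CIRC) (hLAW : Stmt_LAW) (hLOCS : Stmt_LOCS) :
    Stmt_STU := by
  intro c1 cb hc1 hcb
  obtain ⟨c, hc, hA⟩ := hA1C c1 cb hc1 hcb
  refine ⟨c 21, hc 21, ?_⟩
  intro l j ρ S cr g n1 N hS hG q a b hq hab hN
  have hg := hG.gpos
  have hg1 := hG.hg
  have hab1 : a < b := by omega
  have hab' : (a : ℤ) + 1 ≤ b := by exact_mod_cast hab1
  have hq500 : (500 : ℤ) ≤ q := by linarith
  have hq3 : 3 ≤ q := by
    have : (3 : ℤ) ≤ q := by linarith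
    exact_mod_cast this
  have h20 : (2 * (a : ℤ) + 1) ≤ 20 * ((b : ℤ) - a) := by
    have : 11 * (2 * (a : ℤ) + 1) ≤ 10 * (2 * b + 1) := by exact_mod_cast hab
    linarith
  have hd1 : (1 : ℤ) ≤ (b : ℤ) - a := by omega
  have hqd : (q : ℤ) ≤ ((b : ℤ) - a) * q := by nlinarith
  have hx := hA S (qof l j) cr g n1 N hG 21 (-((a : ℤ) * q) - 1) ((a + 1) * q)
    (-((a : ℤ) * q) - 1) ((a + 1) * q) (((b : ℤ) - a) * q - 2)
    (by nlinarith) (by nlinarith) (by push_cast; nlinarith) (by push_cast; nlinarith) (by linarith)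
    (by nlinarith)
  have hlocF : LocF (Circ (-((a : ℤ) * q) - 1) ((a + 1) * q) (-((a : ℤ) * q) - 1) ((a + 1) * q)
      (((b : ℤ) - a) * q - 2)) := by
    have := hLOCS Adj4 (-((a : ℤ) * q) - 1) ((a + 1) * q) (-((a : ℤ) * q) - 1) ((a + 1) * q)
      (((b : ℤ) - a) * q - 2) 0 0 0 0 0
    exact this.2.2.2.2.2.2.2.2.2.1
  refine hx.trans ?_
  rw [← hLAW l j ρ S hS _ hlocF]
  unfold SP
  have : IsProbabilityMeasure (stat l j) := by unfold stat; infer_instance
  refine measureReal_mono ?_ (by finiteness)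
  intro η hη
  exact circ_UU hCIRC hq3 hab1 (occ η) hη

end Pool.Det5
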