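import Pool.Agent.Work.MP_dd5692_pr.InterfaceA

/-!
# MP_dd5692_pr, part (A), block VHARN: Harris for finite families, square root trick
-/

set_option autoImplicit false

namespace Pool.Det5

open MeasureTheory MPdd5692
open scoped ENNReal

namespace VHARN_

theorem Loc.bigger {B B' : Set Site} {P : Set Site → Prop} (h : Loc B P) (hB : B ⊆ B') :
    Loc B' P := by
  intro W W' hW
  refine h W W' ?_
  have e1 : W ∩ B = (W ∩ B') ∩ B := by
    ext z
    constructor
    · rintro ⟨h1, h2⟩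
      exact ⟨⟨h1, hB h2⟩, h2⟩
    · rintro ⟨⟨h1, -⟩, h2⟩
      exact ⟨h1, h2⟩
  have e2 : W' ∩ B = (W' ∩ B') ∩ B := by
    ext z
    constructor
    · rintro ⟨h1, h2⟩
      exact ⟨⟨h1, hB h2⟩, h2⟩
    · rintro ⟨⟨h1, -⟩, h2⟩
      exact ⟨h1, h2⟩
  rw [e1, e2, hW]

theorem locF_and {P Q : Set Site → Prop} (hP : LocF P) (hQ : LocF Q) :
    LocF (fun W => P W ∧ Q W) := by
  obtain ⟨B, hB, h1⟩ := hP
  obtain ⟨B', hB', h2⟩ := hQ
  refine ⟨B ∪ B', hB.union hB', ?_⟩
  intro W W' hW
  have a1 := Loc.bigger h1 (Set.subset_union_left (s := B) (t := B')) W W' hW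
  have a2 := Loc.bigger h2 (Set.subset_union_right (s := B) (t := B')) W W' hW
  exact and_congr a1 a2

theorem locF_not {P : Set Site → Prop} (hP : LocF P) : LocF (fun W => ¬ P W) := by
  obtain ⟨B, hB, h1⟩ := hP
  exact ⟨B, hB, fun W W' hW => not_congr (h1 W W' hW)⟩

theorem locF_true : LocF (fun _ => True) :=
  ⟨∅, Set.finite_empty, fun _ _ _ => Iff.rfl⟩

theorem locF_all {ι : Type} (s : Finset ι) (P : ι → Set Site → Prop)
    (h : ∀ i ∈ s, LocF (P i)) : LocF (fun W => ∀ i ∈ s, P i W) := by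
  classical
  induction s using Finset.induction_on with
  | empty => exact ⟨∅, Set.finite_empty, fun _ _ _ => by simp⟩
  | insert a s ha ih =>
    have h1 : LocF (P a) := h a (Finset.mem_insert_self a s)
    have h2 := ih (fun i hi => h i (Finset.mem_insert_of_mem hi))
    obtain ⟨B, hB, h3⟩ := locF_and h1 h2
    refine ⟨B, hB, fun W W' hW => ?_⟩
    have := h3 W W' hW
    simp only [Finset.forall_mem_insert]
    exact this

theorem mono_all {ι : Type} (s : Finset ι) (P : ι → Set Site → Prop)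
    (h : ∀ i ∈ s, Mono (P i)) : Mono (fun W => ∀ i ∈ s, P i W) :=
  fun W W' hW hP i hi => h i hi W W' hW (hP i hi)

theorem anti_all {ι : Type} (s : Finset ι) (P : ι → Set Site → Prop)
    (h : ∀ i ∈ s, Anti (P i)) : Anti (fun W => ∀ i ∈ s, P i W) :=
  fun W W' hW hP i hi => h i hi W W' hW (hP i hi)

theorem pr_nonneg (S : Shape) (q : unitInterval) (P : Set Site → Prop) : 0 ≤ pr S q P :=
  measureReal_nonneg

theorem pr_insert {ι : Type} [DecidableEq ι] (S : Shape) (q : unitInterval) (a : ι)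
    (s : Finset ι) (P : ι → Set Site → Prop) :
    pr S q (fun W => ∀ i ∈ insert a s, P i W) =
      pr S q (fun W => P a W ∧ ∀ i ∈ s, P i W) := by
  have : (fun W => ∀ i ∈ insert a s, P i W) = (fun W => P a W ∧ ∀ i ∈ s, P i W) := by
    funext W
    simp only [Finset.forall_mem_insert]
  rw [this]

theorem pr_empty {ι : Type} (S : Shape) (q : unitInterval) (P : ι → Set Site → Prop) :
    pr S q (fun W => ∀ i ∈ (∅ : Finset ι), P i W) = 1 := by
  unfold pr
  have : {ω : Cfg | ∀ i ∈ (∅ : Finset ι), P i (vac S ω)} = Set.univ := by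
    ext ω
    simp
  rw [this]
  simp

theorem part1 (hVHAR : Stmt_VHAR) (S : Shape) (q : unitInterval) {ι : Type} (s : Finset ι)
    (P : ι → Set Site → Prop) (hL : ∀ i ∈ s, LocF (P i)) (hM : ∀ i ∈ s, Mono (P i)) :
    ∏ i ∈ s, pr S q (P i) ≤ pr S q (fun W => ∀ i ∈ s, P i W) := by
  classical
  induction s using Finset.induction_on with
  | empty => rw [pr_empty]; simp
  | insert a s ha ih =>
    rw [Finset.prod_insert ha, pr_insert]
    have hLs : ∀ i ∈ s, LocF (P i) := fun i hi => hL i (Finset.mem_insert_of_mem hi)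
    have hMs : ∀ i ∈ s, Mono (P i) := fun i hi => hM i (Finset.mem_insert_of_mem hi)
    have h1 := ih hLs hMs
    have h2 := (hVHAR S q (P a) (fun W => ∀ i ∈ s, P i W) (hL a (Finset.mem_insert_self a s))
      (locF_all s P hLs)).1 (hM a (Finset.mem_insert_self a s)) (mono_all s P hMs)
    exact le_trans (mul_le_mul_of_nonneg_left h1 (pr_nonneg S q (P a))) h2

theorem part2 (hVHAR : Stmt_VHAR) (S : Shape) (q : unitInterval) {ι : Type} (s : Finset ι)
    (P : ι → Set Site → Prop) (hL : ∀ i ∈ s, LocF (P i)) (hM : ∀ i ∈ s, Anti (P i)) :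
    ∏ i ∈ s, pr S q (P i) ≤ pr S q (fun W => ∀ i ∈ s, P i W) := by
  classical
  induction s using Finset.induction_on with
  | empty => rw [pr_empty]; simp
  | insert a s ha ih =>
    rw [Finset.prod_insert ha, pr_insert]
    have hLs : ∀ i ∈ s, LocF (P i) := fun i hi => hL i (Finset.mem_insert_of_mem hi)
    have hMs : ∀ i ∈ s, Anti (P i) := fun i hi => hM i (Finset.mem_insert_of_mem hi)
    have h1 := ih hLs hMs
    have h2 := (hVHAR S q (P a) (fun W => ∀ i ∈ s, P i W) (hL a (Finset.mem_insert_self a s))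
      (locF_all s P hLs)).2.1 (hM a (Finset.mem_insert_self a s)) (anti_all s P hMs)
    exact le_trans (mul_le_mul_of_nonneg_left h1 (pr_nonneg S q (P a))) h2

theorem pr_not (hVLOC : Stmt_VLOC) (S : Shape) (q : unitInterval) (P : Set Site → Prop)
    (hL : LocF P) : pr S q (fun W => ¬ P W) = 1 - pr S q P := by
  have hm : MeasurableSet {ω : Cfg | P (vac S ω)} := (hVLOC S P).2.2.2 hL
  unfold pr
  have e : {ω : Cfg | ¬ P (vac S ω)} = {ω : Cfg | P (vac S ω)}ᶜ := by
    ext ω
    simp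
  rw [e, measureReal_compl hm]
  simp

end VHARN_

open VHARN_

theorem stmt_VHARN (hVHAR : Stmt_VHAR) (hVLOC : Stmt_VLOC) : Stmt_VHARN := by
  intro S q ι s P hL
  refine ⟨fun hM => part1 hVHAR S q s P hL hM, fun hM => part2 hVHAR S q s P hL hM, fun hM => ?_⟩
  have hLn : ∀ i ∈ s, LocF (fun W => ¬ P i W) := fun i hi => locF_not (hL i hi)
  have hAn : ∀ i ∈ s, Anti (fun W => ¬ P i W) :=
    fun i hi W W' hW hn hp => hn (hM i hi W W' hW hp)
  have h1 := part2 hVHAR S q s (fun i W => ¬ P i W) hLn hAn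
  have h2 : ∏ i ∈ s, pr S q (fun W => ¬ P i W) = ∏ i ∈ s, (1 - pr S q (P i)) :=
    Finset.prod_congr rfl (fun i hi => pr_not hVLOC S q (P i) (hL i hi))
  have h3 : pr S q (fun W => ∀ i ∈ s, ¬ P i W) = 1 - pr S q (fun W => ∃ i ∈ s, P i W) := by
    have hLex : LocF (fun W => ∃ i ∈ s, P i W) := by
      obtain ⟨B, hB, h4⟩ := locF_all s (fun i W => ¬ P i W) hLn
      refine ⟨B, hB, fun W W' hW => ?_⟩
      have h5 := h4 W W' hW
      constructor
      · rintro ⟨i, hi, hp⟩
        by_contra hcon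
        have : ∀ j ∈ s, ¬ P j W' := fun j hj hpj => hcon ⟨j, hj, hpj⟩
        exact (h5.2 this) i hi hp
      · rintro ⟨i, hi, hp⟩
        by_contra hcon
        have : ∀ j ∈ s, ¬ P j W := fun j hj hpj => hcon ⟨j, hj, hpj⟩
        exact (h5.1 this) i hi hp
    rw [← pr_not hVLOC S q (fun W => ∃ i ∈ s, P i W) hLex]
    have : (fun W => ∀ i ∈ s, ¬ P i W) = (fun W => ¬ ∃ i ∈ s, P i W) := by
      funext W
      apply propext
      constructor
      · rintro h ⟨i, hi, hp⟩
        exact h i hi hp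
      · intro h i hi hp
        exact h ⟨i, hi, hp⟩
    rw [this]
  rw [h2, h3] at h1
  exact h1

end Pool.Det5
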