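import Pool.Agent.Work.MP_dd5692_pr.InterfaceA

/-! Block VIND: independence of properties of separated regions. -/

set_option autoImplicit false

namespace Pool.Det5

open MeasureTheory MPdd5692

theorem stmt_VIND (hIND : Stmt_IND) (hVLOC : Stmt_VLOC) : Stmt_VIND := by
  intro S q B B' P Q hB hB' hP hQ hsep
  have hdis : Disjoint {y : Site | ∃ z ∈ B, ∃ k ∈ S.K, y = z + k}
      {y : Site | ∃ z ∈ B', ∃ k ∈ S.K, y = z + k} := by
    rw [Set.disjoint_left]
    rintro y ⟨z, hz, k, hk, hy⟩ ⟨z', hz', k', hk', hy'⟩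
    have e : z + k = z' + k' := hy.symm.trans hy'
    have e1 : z.1 + k.1 = z'.1 + k'.1 := congrArg Prod.fst e
    have e2 : z.2 + k.2 = z'.2 + k'.2 := congrArg Prod.snd e
    have h1 := S.outer k hk
    have h2 := S.outer k' hk'
    obtain ⟨h11, h12⟩ := h1
    obtain ⟨h21, h22⟩ := h2
    rw [abs_le] at h11 h12 h21 h22
    rcases hsep z hz z' hz' with h | h
    · have : |z.1 - z'.1| ≤ 2 * (S.ρ : ℤ) := by
        rw [abs_le]
        constructor <;> omega
      omega
    · have : |z.2 - z'.2| ≤ 2 * (S.ρ : ℤ) := by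
        rw [abs_le]
        constructor <;> omega
      omega
  exact hIND q _ _ {ω | P (vac S ω)} {ω | Q (vac S ω)} ((hVLOC S P).2.1 B hB)
    ((hVLOC S Q).2.1 B' hB') hdis ((hVLOC S P).1 B hP) ((hVLOC S Q).1 B' hQ)

end Pool.Det5
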