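import Pool.Agent.Work.MP_dd5692_pr.InterfaceA

/-! Block VINDN: independence of properties of `n` separated regions. -/

set_option autoImplicit false

namespace Pool.Det5

open MeasureTheory MPdd5692

theorem stmt_VINDN (hVIND : Stmt_VIND) : Stmt_VINDN := by
  intro S q n
  induction n with
  | zero =>
    intro B P _ _ _
    have : (fun W : Set Site => ∀ i < 0, P i W) = fun _ => True := by
      funext W
      simp
    rw [this]
    simp [pr]
  | succ n ih =>
    intro B P hB hP hsep
    have ih' := ih B P (fun i hi => hB i (Nat.lt_succ_of_lt hi))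
      (fun i hi => hP i (Nat.lt_succ_of_lt hi))
      (fun i hi j hj => hsep i (Nat.lt_succ_of_lt hi) j hj)
    rw [Finset.prod_range_succ, ← ih']
    have e : (fun W : Set Site => ∀ i < n + 1, P i W) =
        fun W => (∀ i < n, P i W) ∧ P n W := by
      funext W
      apply propext
      constructor
      · intro h
        exact ⟨fun i hi => h i (Nat.lt_succ_of_lt hi), h n (Nat.lt_succ_self n)⟩
      · rintro ⟨h1, h2⟩ i hi
        rcases Nat.lt_succ_iff_lt_or_eq.mp hi with h | h
        · exact h1 i h
        · rw [h]; exact h2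
    rw [e]
    refine hVIND S q (⋃ i ∈ Finset.range n, B i) (B n) (fun W => ∀ i < n, P i W) (P n) ?_
      (hB n (Nat.lt_succ_self n)) ?_ (hP n (Nat.lt_succ_self n)) ?_
    · exact Set.Finite.biUnion (Finset.finite_toSet _)
        fun i hi => hB i (Nat.lt_succ_of_lt (Finset.mem_range.mp (by exact_mod_cast hi)))
    · intro W W' hW
      have key : ∀ i < n, (P i W ↔ P i W') := by
        intro i hi
        refine hP i (Nat.lt_succ_of_lt hi) W W' ?_
        ext z
        have hz := Set.ext_iff.mp hW z
        constructor
        · rintro ⟨h1, h2⟩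
          exact ⟨(hz.mp ⟨h1, Set.mem_biUnion (by simpa using hi) h2⟩).1, h2⟩
        · rintro ⟨h1, h2⟩
          exact ⟨(hz.mpr ⟨h1, Set.mem_biUnion (by simpa using hi) h2⟩).1, h2⟩
      exact ⟨fun h i hi => (key i hi).mp (h i hi), fun h i hi => (key i hi).mpr (h i hi)⟩
    · intro z hz z' hz'
      rw [Set.mem_iUnion₂] at hz
      obtain ⟨i, hi, hzi⟩ := hz
      rw [Finset.mem_range] at hi
      have := hsep n (Nat.lt_succ_self n) i hi z' hz' z hzi
      rw [abs_sub_comm z.1, abs_sub_comm z.2]
      exact this

end Pool.Det5
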