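import Pool.Agent.Work.MP_dd5692_pr.InterfaceA

/-!
# MP_dd5692_pr, part (A): block VLOC (helper42)
-/

set_option autoImplicit false

namespace Pool.Det5

open MeasureTheory MPdd5692
open scoped ENNReal

theorem VLOC_dep (S : Shape) (P : Set Site → Prop) (B : Set Site) (h : Loc B P) :
    Dep {y | ∃ z ∈ B, ∃ k ∈ S.K, y = z + k} {ω | P (vac S ω)} := by
  intro ω ω' hω
  have : vac S ω ∩ B = vac S ω' ∩ B := by
    ext z
    constructor
    · rintro ⟨h1, h2⟩
      exact ⟨fun k hk => by rw [← hω (z + k) ⟨z, h2, k, hk, rfl⟩]; exact h1 k hk, h2⟩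
    · rintro ⟨h1, h2⟩
      exact ⟨fun k hk => by rw [hω (z + k) ⟨z, h2, k, hk, rfl⟩]; exact h1 k hk, h2⟩
  exact h _ _ this

theorem VLOC_fin (S : Shape) (B : Set Site) (hB : B.Finite) :
    ({y | ∃ z ∈ B, ∃ k ∈ S.K, y = z + k} : Set Site).Finite := by
  have h := Set.Finite.image2 (fun (z k : Site) => z + k) hB (S.K.finite_toSet)
  refine h.subset ?_
  rintro y ⟨z, hz, k, hk, rfl⟩
  exact ⟨z, hz, k, hk, rfl⟩

theorem stmt_VLOC (hMEAS : Stmt_MEAS) : Stmt_VLOC := by
  intro S P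
  refine ⟨fun B h => VLOC_dep S P B h, fun B hB => VLOC_fin S B hB, ?_, ?_⟩
  · intro hM ω ω' hω h
    refine hM _ _ ?_ h
    intro z hz k hk
    have h1 : ω (z + k) = false := hz k hk
    by_contra h2
    have h3 : ω' (z + k) = true := by
      cases h4 : ω' (z + k)
      · exact absurd h4 h2
      · rfl
    rw [hω _ h3] at h1
    exact absurd h1 (by decide)
  · rintro ⟨B, hB, hL⟩
    exact hMEAS _ _ (VLOC_fin S B hB) (VLOC_dep S P B hL)

end Pool.Det5
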