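import Pool.Agent.Work.MP_dd5692_pr.InterfaceA

/-! Block VSYM: invariance under the symmetries of the mesh. helper89 -/

set_option autoImplicit false

namespace Pool.Det5

open MeasureTheory MPdd5692

namespace VSYM_

lemma step (S : Shape) (g : Site ≃ Site) (hg : IsSym g) (z k : Site) (hk : k ∈ S.K) :
    g (z + k) - g z ∈ S.K := by
  have h := hg (z + k) z
  have e1 : (z + k).1 - z.1 = k.1 := by simp
  have e2 : (z + k).2 - z.2 = k.2 := by simp
  rw [e1, e2] at h
  have f1 : (g (z + k) - g z).1 = (g (z + k)).1 - (g z).1 := rfl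
  have f2 : (g (z + k) - g z).2 = (g (z + k)).2 - (g z).2 := rfl
  rcases h with ⟨h1, h2⟩ | ⟨h1, h2⟩
  · exact S.solid k hk _ (by rw [f1, h1]) (by rw [f2, h2])
  · exact S.solid _ (S.swap k hk) _ (by rw [f1, h1]) (by rw [f2, h2])

lemma vac_pre (S : Shape) (g : Site ≃ Site) (hg : IsSym g) (ω : Cfg) :
    g ⁻¹' (vac S ω) = vac S (fun z => ω (g z)) := by
  ext z
  constructor
  · intro h k hk
    have h1 := h _ (step S g hg z k hk)
    rw [add_sub_cancel] at h1
    exact h1
  · intro h k hk
    have hinj : Function.Injective (fun k : Site => g (z + k) - g z) := by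
      intro a b hab
      have h1 : g (z + a) = g (z + b) := sub_left_injective hab
      exact add_left_cancel (g.injective h1)
    have hsurj := Finset.surjOn_of_injOn_of_card_le (s := S.K) (t := S.K)
      (fun k : Site => g (z + k) - g z) (fun a ha => step S g hg z a ha)
      (hinj.injOn) le_rfl
    obtain ⟨k', hk', he⟩ := hsurj hk
    have he' : g (z + k') - g z = k := he
    have h1 : ω (g (z + k')) = false := h k' hk'
    rw [← he', add_sub_cancel]
    exact h1

end VSYM_

theorem stmt_VSYM (hINV : Stmt_INV) (hVLOC : Stmt_VLOC) : Stmt_VSYM := by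
  intro S q g P hg hP
  have hE : MeasurableSet {ω | P (vac S ω)} := (hVLOC S P).2.2.2 hP
  have h := hINV q g _ hE
  unfold pr
  rw [← h]
  congr 1
  ext ω
  show P (g ⁻¹' (vac S ω)) ↔ P (vac S (fun z => ω (g z)))
  rw [VSYM_.vac_pre S g hg ω]

end Pool.Det5
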