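import Pool.Agent.Work.MP_dd5692_pr.InterfaceA

/-!
# MP_dd5692_pr, part (A), block YSYM (helper45)
-/

set_option autoImplicit false

open MeasureTheory MPdd5692

namespace Pool.Det5

namespace YSYM_

/-- the reflection `x ↦ c - x` of the first coordinate -/
def rf (c : ℤ) : Site ≃ Site where
  toFun z := (c - z.1, z.2)
  invFun z := (c - z.1, z.2)
  left_inv z := by ext <;> simp
  right_inv z := by ext <;> simp

theorem rf_apply (c : ℤ) (z : Site) : rf c z = (c - z.1, z.2) := rfl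

theorem rf_sym (c : ℤ) : IsSym (rf c) := by
  intro z w
  left
  constructor
  · rw [rf_apply, rf_apply]
    show |c - z.1 - (c - w.1)| = |z.1 - w.1|
    rw [show c - z.1 - (c - w.1) = -(z.1 - w.1) by ring, abs_neg]
  · rfl

theorem rf_adj (c : ℤ) {z w : Site} (h : Adj4 z w) : Adj4 (rf c z) (rf c w) := by
  rw [adj4_iff] at *
  simp only [rf_apply]
  omega

theorem rf_lnk (c : ℤ) {W : Set Site} {a b e d : ℤ} {u v : Site}
    (h : Linked Adj4 (rf c ⁻¹' W ∩ Box a b e d) u v) :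
    Linked Adj4 (W ∩ Box (c - b) (c - a) e d) (rf c u) (rf c v) := by
  refine h.map (rf c) (fun _ _ h => rf_adj c h) ?_
  rintro z ⟨hz, h1, h2, h3, h4⟩
  refine ⟨hz, ?_, ?_, ?_, ?_⟩
  · show c - b ≤ c - z.1
    omega
  · show c - z.1 ≤ c - a
    omega
  · exact h3
  · exact h4

theorem rf_lnk' (c : ℤ) {W : Set Site} {a b e d : ℤ} {u v : Site}
    (h : Linked Adj4 (W ∩ Box (c - b) (c - a) e d) u v) :
    Linked Adj4 (rf c ⁻¹' W ∩ Box a b e d) (rf c u) (rf c v) := by
  refine h.map (rf c) (fun _ _ h => rf_adj c h) ?_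
  rintro z ⟨hz, h1, h2, h3, h4⟩
  refine ⟨?_, ?_, ?_, ?_, ?_⟩
  · show rf c (rf c z) ∈ W
    have : rf c (rf c z) = z := by
      simp only [rf_apply]
      ext
      · simp
      · rfl
    rw [this]
    exact hz
  · show a ≤ c - z.1
    omega
  · show c - z.1 ≤ b
    omega
  · exact h3
  · exact h4

theorem key (w h m H x0 : ℤ) (W : Set Site) :
    YS w h m H x0 W ↔ YY w h m H (rf (x0 + w) ⁻¹' W) := by
  constructor
  · rintro ⟨x, x', y, h1, h2⟩
    refine ⟨x0 + w - x, x0 + w - x', y, ?_, ?_⟩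
    · have h3 : Linked Adj4 (W ∩ Box (x0 + w - w) (x0 + w - 0) 0 h) (x, 0) (x', h) := by
        rw [show x0 + w - w = x0 by ring, show x0 + w - 0 = x0 + w by ring]
        exact h1
      exact rf_lnk' (x0 + w) h3
    · have h3 : Linked Adj4 (W ∩ Box (x0 + w - m) (x0 + w - 0) 0 H) (x, 0) (x0 + w - m, y) := by
        rw [show x0 + w - 0 = x0 + w by ring]
        exact h2
      have h4 := rf_lnk' (x0 + w) h3
      simp only [rf_apply] at h4
      rw [show x0 + w - (x0 + w - m) = m by ring] at h4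
      exact h4
  · rintro ⟨x, x', y, h1, h2⟩
    refine ⟨x0 + w - x, x0 + w - x', y, ?_, ?_⟩
    · have h4 := rf_lnk (x0 + w) h1
      rw [show x0 + w - w = x0 by ring, show x0 + w - 0 = x0 + w by ring] at h4
      exact h4
    · have h4 := rf_lnk (x0 + w) h2
      rw [show x0 + w - 0 = x0 + w by ring] at h4
      exact h4

end YSYM_

theorem stmt_YSYM (hVSYM : Stmt_VSYM) (hLOCS : Stmt_LOCS) : Stmt_YSYM := by
  intro S q w h m H x0
  have h1 := hVSYM S q (YSYM_.rf (x0 + w)) (YY w h m H) (YSYM_.rf_sym _)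
    (hLOCS Adj4 0 0 0 0 0 w h m H x0).2.2.2.2.2.1
  rw [← h1]
  congr 1
  funext W
  exact propext (YSYM_.key w h m H x0 W)

end Pool.Det5
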