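import Pool.Agent.Work.MP_dd5692_pr.InterfaceF
import Pool.Agent.Work.MP_dd5692_pr.PL1
import Pool.Agent.Work.MP_dd5692_pr.PL2
import Pool.Agent.Work.MP_dd5692_pr.A.MEAS
import Pool.Agent.Work.MP_dd5692_pr.A.INV
import Pool.Agent.Work.MP_dd5692_pr.A.HAR
import Pool.Agent.Work.MP_dd5692_pr.A.IND
import Pool.Agent.Work.MP_dd5692_pr.A.RES
import Pool.Agent.Work.MP_dd5692_pr.A.CYL
import Pool.Agent.Work.MP_dd5692_pr.A.VLOC
import Pool.Agent.Work.MP_dd5692_pr.A.VHAR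
import Pool.Agent.Work.MP_dd5692_pr.A.VHARN
import Pool.Agent.Work.MP_dd5692_pr.A.VIND
import Pool.Agent.Work.MP_dd5692_pr.A.VINDN
import Pool.Agent.Work.MP_dd5692_pr.A.VSYM
import Pool.Agent.Work.MP_dd5692_pr.A.PHC80
import Pool.Agent.Work.MP_dd5692_pr.A.FMONO
import Pool.Agent.Work.MP_dd5692_pr.A.LOCS80
import Pool.Agent.Work.MP_dd5692_pr.A.EXTD
import Pool.Agent.Work.MP_dd5692_pr.A.EXT
import Pool.Agent.Work.MP_dd5692_pr.A.DGLUE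
import Pool.Agent.Work.MP_dd5692_pr.A.GLUE
import Pool.Agent.Work.MP_dd5692_pr.A.BRP
import Pool.Agent.Work.MP_dd5692_pr.A.BRC
import Pool.Agent.Work.MP_dd5692_pr.A.BRKEY
import Pool.Agent.Work.MP_dd5692_pr.A.BRCOV
import Pool.Agent.Work.MP_dd5692_pr.A.BRO
import Pool.Agent.Work.MP_dd5692_pr.A.BRTR
import Pool.Agent.Work.MP_dd5692_pr.A.BRY1
import Pool.Agent.Work.MP_dd5692_pr.A.BRY2
import Pool.Agent.Work.MP_dd5692_pr.A.BRF13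
import Pool.Agent.Work.MP_dd5692_pr.A.BRLOC
import Pool.Agent.Work.MP_dd5692_pr.A.BRCB
import Pool.Agent.Work.MP_dd5692_pr.A.BRCR
import Pool.Agent.Work.MP_dd5692_pr.A.EXPL
import Pool.Agent.Work.MP_dd5692_pr.A.BRSUM
import Pool.Agent.Work.MP_dd5692_pr.A.BRLOW
import Pool.Agent.Work.MP_dd5692_pr.A.BRHIGH
import Pool.Agent.Work.MP_dd5692_pr.A.SH1
import Pool.Agent.Work.MP_dd5692_pr.A.SH2
import Pool.Agent.Work.MP_dd5692_pr.A.SHIFT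
import Pool.Agent.Work.MP_dd5692_pr.A.YSYM
import Pool.Agent.Work.MP_dd5692_pr.A.RSWL
import Pool.Agent.Work.MP_dd5692_pr.A.RSWH
import Pool.Agent.Work.MP_dd5692_pr.A.A1
import Pool.Agent.Work.MP_dd5692_pr.A.A2
import Pool.Agent.Work.MP_dd5692_pr.A.CIRC
import Pool.Agent.Work.MP_dd5692_pr.A.NOX
import Pool.Agent.Work.MP_dd5692_pr.A.A1C
import Pool.Agent.Work.MP_dd5692_pr.A.A2N
import Pool.Agent.Work.MP_dd5692_pr.A.HALF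
import Pool.Agent.Work.MP_dd5692_pr.A.ARML
import Pool.Agent.Work.MP_dd5692_pr.A.ALLOW
import Pool.Agent.Work.MP_dd5692_pr.A.SHAPE
import Pool.Agent.Work.MP_dd5692_pr.A.LAW
import Pool.Agent.Work.MP_dd5692_pr.A.GOOD
import Pool.Agent.Work.MP_dd5692_pr.A.STU
import Pool.Agent.Work.MP_dd5692_pr.A.STN
import Pool.Agent.Work.MP_dd5692_pr.A.STARM
import Pool.Agent.Work.MP_dd5692_pr.A.STATA

/-!
# MP_dd5692_pr, part (A): assembly (helper80)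
-/

set_option autoImplicit false

namespace Pool.Det5

open MPdd5692

theorem dMEAS : Stmt_MEAS := stmt_MEAS
theorem dINV : Stmt_INV := stmt_INV
theorem dHAR : Stmt_HAR := stmt_HAR
theorem dIND : Stmt_IND := stmt_IND
theorem dRES : Stmt_RES := stmt_RES dMEAS
theorem dCYL : Stmt_CYL := stmt_CYL
theorem dVLOC : Stmt_VLOC := stmt_VLOC dMEAS
theorem dVHAR : Stmt_VHAR := stmt_VHAR dHAR dVLOC
theorem dVHARN : Stmt_VHARN := stmt_VHARN dVHAR dVLOC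
theorem dVIND : Stmt_VIND := stmt_VIND dIND dVLOC
theorem dVINDN : Stmt_VINDN := stmt_VINDN dVIND
theorem dVSYM : Stmt_VSYM := stmt_VSYM dINV dVLOC
theorem dLOCS : Stmt_LOCS := stmt_LOCS80
theorem dPHC : Stmt_PHC := stmt_PHC80 dVSYM dLOCS
theorem dFMONO : Stmt_FMONO := stmt_FMONO
theorem dPL1 : Stmt_PL1 := blk_PL1
theorem dPL2 : Stmt_PL2 := blk_PL2
theorem dEXTD : Stmt_EXTD := stmt_EXTD
theorem dEXT : Stmt_EXT := stmt_EXT dEXTD dPHC dFMONO dVHARN dVLOC dLOCS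
theorem dDGLUE : Stmt_DGLUE := stmt_DGLUE dPL1
theorem dGLUE : Stmt_GLUE := stmt_GLUE dDGLUE dVHAR dPHC dFMONO dLOCS
theorem dBRP : Stmt_BRP := stmt_BRP dPL2
theorem dBRC : Stmt_BRC := stmt_BRC
theorem dBRKEY : Stmt_BRKEY := stmt_BRKEY dPL1 dBRC
theorem dBRCOV : Stmt_BRCOV := stmt_BRCOV dPL1 dBRC
theorem dBRO : Stmt_BRO := stmt_BRO dPL1 dBRC
theorem dBRTR : Stmt_BRTR := stmt_BRTR dBRKEY
theorem dBRY1 : Stmt_BRY1 := stmt_BRY1 dBRTR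
theorem dBRY2 : Stmt_BRY2 := stmt_BRY2 dBRTR dPL1 dBRC
theorem dBRLOC : Stmt_BRLOC := stmt_BRLOC
theorem dBRF13 : Stmt_BRF13 := stmt_BRF13 dVSYM dBRLOC
theorem dBRCB : Stmt_BRCB := stmt_BRCB dCYL
theorem dBRCR : Stmt_BRCR := stmt_BRCR dCYL dHAR
theorem dEXPL : Stmt_EXPL := stmt_EXPL dPL1 dPL2
theorem dBRSUM : Stmt_BRSUM := stmt_BRSUM dEXPL dRES dMEAS dLOCS dVLOC dPHC
theorem dBRLOW : Stmt_BRLOW :=
  stmt_BRLOW dBRSUM dBRP dBRCOV dBRY1 dBRY2 dBRF13 dBRLOC dBRCB dVLOC dHAR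
theorem dBRHIGH : Stmt_BRHIGH :=
  stmt_BRHIGH dBRSUM dBRP dBRCOV dBRY1 dBRO dBRF13 dBRLOC dBRCR dVLOC dVHAR dPHC dLOCS dMEAS
theorem dSH1 : Stmt_SH1 := stmt_SH1 dPL1
theorem dSH2 : Stmt_SH2 := stmt_SH2 dPL1
theorem dSHIFT : Stmt_SHIFT := stmt_SHIFT dSH1 dSH2
theorem dYSYM : Stmt_YSYM := stmt_YSYM dVSYM dLOCS
theorem dRSWL : Stmt_RSWL := stmt_RSWL dBRLOW dSHIFT dYSYM dEXT dVHAR dPHC dFMONO dLOCS
theorem dRSWH : Stmt_RSWH := stmt_RSWH dBRHIGH dSHIFT dYSYM dVHAR dPHC dFMONO dLOCS dVLOC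
theorem dA1 : Stmt_A1 := stmt_A1 dRSWL dGLUE dFMONO
theorem dA2 : Stmt_A2 := stmt_A2 dRSWH dGLUE dEXT dFMONO
theorem dCIRC : Stmt_CIRC := stmt_CIRC dPL1
theorem dNOX : Stmt_NOX := stmt_NOX
theorem dA1C : Stmt_A1C := stmt_A1C dA1 dVHAR dPHC dFMONO dLOCS
theorem dA2N : Stmt_A2N := stmt_A2N dA2 dVHAR dPHC dFMONO dLOCS dVLOC
theorem dHALF : Stmt_HALF := stmt_HALF dPL1
theorem dARML : Stmt_ARML := stmt_ARML
theorem dALLOW : Stmt_ALLOW :=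
  stmt_ALLOW dA1 dHALF dVINDN dVHAR dVSYM dPHC dFMONO dLOCS dARML dVLOC
theorem dSHAPE : Stmt_SHAPE := stmt_SHAPE
theorem dLAW : Stmt_LAW := stmt_LAW dVLOC
theorem dGOOD : Stmt_GOOD := stmt_GOOD dSHAPE dLAW dLOCS dPHC dPL1 dVLOC
theorem dSTU : Stmt_STU := stmt_STU dA1C dCIRC dLAW dLOCS
theorem dSTN : Stmt_STN := stmt_STN dA2N dNOX dLAW dLOCS
theorem dSTARM : Stmt_STARM := stmt_STARM dALLOW dARML dVSYM dLAW
theorem dSTATA : Stmt_STATA := stmt_STATA dGOOD dSTU dSTN dSTARM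

end Pool.Det5

namespace MPdd5692

/-- part (A) -/
theorem stmt_A : Stmt_A := Pool.Det5.dSTATA

end MPdd5692
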