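import Pool.Agent.Work.MP_dd5692_pr.InterfaceA

/-!
# MP_dd5692_pr, part (A): block BRF13 (helper13)
-/

set_option autoImplicit false

namespace Pool.Det5

open MeasureTheory MPdd5692

namespace BRF13_

variable (ρ : ℕ) (h m e : ℤ) (P : Set Site)

theorem flp_flp (z : Site) : flp ρ h (flp ρ h z) = z := by
  unfold flp
  ext <;> simp

/-- the flip as a bijection -/
def flE : Site ≃ Site where
  toFun := flp ρ h
  invFun := flp ρ h
  left_inv := flp_flp ρ h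
  right_inv := flp_flp ρ h

theorem flE_sym : IsSym (flE ρ h) := by
  intro z w
  left
  refine ⟨rfl, ?_⟩
  show |(HH ρ h - z.2) - (HH ρ h - w.2)| = |z.2 - w.2|
  rw [show (HH ρ h - z.2) - (HH ρ h - w.2) = w.2 - z.2 by ring, abs_sub_comm]

theorem adj_flp {z w : Site} (hzw : Adj4 z w) : Adj4 (flp ρ h z) (flp ρ h w) := by
  unfold Adj4 at *
  show |z.1 - w.1| + |(HH ρ h - z.2) - (HH ρ h - w.2)| = 1
  rw [show (HH ρ h - z.2) - (HH ρ h - w.2) = w.2 - z.2 by ring, abs_sub_comm w.2]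
  exact hzw

theorem box_flp {z : Site} (hz : z ∈ Box 0 m 0 (HH ρ h)) : flp ρ h z ∈ Box 0 m 0 (HH ρ h) := by
  rw [mem_Box] at *
  show 0 ≤ z.1 ∧ z.1 ≤ m ∧ 0 ≤ HH ρ h - z.2 ∧ HH ρ h - z.2 ≤ HH ρ h
  omega

theorem curve_flp {z : Site} (hz : flp ρ h z ∈ curve ρ h P e) : z ∈ curve ρ h P e := by
  rcases hz with hz | ⟨h1, h2, h3⟩ | hz
  · exact Or.inr (Or.inr hz)
  · right; left
    have h2' : h < HH ρ h - z.2 := h2
    have h3' : HH ρ h - z.2 < h + 2 * ρ + 1 := h3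
    unfold HH at h2' h3'
    exact ⟨h1, by linarith, by linarith⟩
  · left
    rw [flp_flp] at hz
    exact hz

theorem ZZ_flp {z : Site} (hz : flp ρ h z ∈ ZZ ρ h e) : z ∈ ZZ ρ h e := by
  unfold ZZ at *
  rw [mem_Box] at *
  obtain ⟨h1, h2, h3, h4⟩ := hz
  have h3' : h + 1 ≤ HH ρ h - z.2 := h3
  have h4' : HH ρ h - z.2 ≤ h + 2 * ρ := h4
  unfold HH at h3' h4'
  exact ⟨h1, h2, by linarith, by linarith⟩

theorem Fr_flp {X : Set Site} {z : Site} (hz : z ∈ Fr ρ h m P e (flp ρ h ⁻¹' X)) :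
    flp ρ h z ∈ Fr ρ h m P e X := by
  obtain ⟨y, hy⟩ := hz
  refine ⟨HH ρ h - y, ?_⟩
  have := hy.map (A' := Adj4)
    (W' := X ∩ (Box 0 m 0 (HH ρ h) \ (curve ρ h P e ∪ ZZ ρ h e))) (flp ρ h)
    (fun _ _ h' => adj_flp ρ h h') ?_
  · exact this
  · rintro t ⟨h1, h2, h3⟩
    refine ⟨h1, box_flp ρ h m h2, ?_⟩
    rintro (h4 | h4)
    · exact h3 (Or.inl (curve_flp ρ h e P h4))
    · exact h3 (Or.inr (ZZ_flp ρ h e h4))

theorem F13 (X : Set Site) : F1 ρ h m P e (flp ρ h ⁻¹' X) ↔ F3 ρ h m P e X := by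
  constructor
  · rintro ⟨z, hz, p, hp, hzp⟩
    refine ⟨flp ρ h z, Fr_flp ρ h m e P hz, flp ρ h p, ?_, adj_flp ρ h hzp⟩
    rw [flp_flp]
    exact hp
  · rintro ⟨z, hz, p, hp, hzp⟩
    refine ⟨flp ρ h z, ?_, flp ρ h p, hp, adj_flp ρ h hzp⟩
    apply Fr_flp
    have : flp ρ h ⁻¹' (flp ρ h ⁻¹' X) = X := by
      ext t
      simp only [Set.mem_preimage, flp_flp]
    rw [this]
    exact hz

end BRF13_

theorem stmt_BRF13 (hVSYM : Stmt_VSYM) (hBRLOC : Stmt_BRLOC) : Stmt_BRF13 := by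
  intro S q h m P e
  have hloc : LocF (F1 S.ρ h m P e) := (hBRLOC S.ρ h m P e).1.2
  have h1 := hVSYM S q (BRF13_.flE S.ρ h) (F1 S.ρ h m P e) (BRF13_.flE_sym S.ρ h) hloc
  rw [← h1]
  congr 1
  funext W
  exact propext (BRF13_.F13 S.ρ h m e P W)

end Pool.Det5
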