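import Pool.Agent.Work.MP_dd5692_pr.InterfaceA

/-! Block DGLUE: glueing of two horizontal crossings. helper89 -/

set_option autoImplicit false

namespace Pool.Det5

open MeasureTheory MPdd5692

theorem stmt_DGLUE (hPL1 : Stmt_PL1) : Stmt_DGLUE := by
  intro W a a' b b' c d h1 h2 h3 hH1 hH2 hV
  obtain ⟨y1, y1', k1⟩ := hH1
  obtain ⟨y2, y2', k2⟩ := hH2
  obtain ⟨x3, x3', k3⟩ := hV
  -- the cluster of the vertical path
  have hY : VC Adj4 (cl Adj4 (W ∩ Box a' b c d) (x3, c)) a' b c d :=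
    ⟨x3, x3', k3.in_cl.mono (fun z hz => ⟨hz, (cl_subset hz).2⟩)⟩
  have hX1 : HC Adj8 (cl Adj4 (W ∩ Box a b c d) (a, y1)) a' b c d := by
    refine HC.to8 ?_
    have h : HC Adj4 (cl Adj4 (W ∩ Box a b c d) (a, y1)) a b c d :=
      ⟨y1, y1', k1.in_cl.mono (fun z hz => ⟨hz, (cl_subset hz).2⟩)⟩
    exact h.shrink (fun _ _ h => h.adj8) (fun _ _ h => adj4_swp h) h1 h2 le_rfl
  have hX2 : HC Adj8 (cl Adj4 (W ∩ Box a' b' c d) (a', y2)) a' b c d := by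
    refine HC.to8 ?_
    have h : HC Adj4 (cl Adj4 (W ∩ Box a' b' c d) (a', y2)) a' b' c d :=
      ⟨y2, y2', k2.in_cl.mono (fun z hz => ⟨hz, (cl_subset hz).2⟩)⟩
    exact h.shrink (fun _ _ h => h.adj8) (fun _ _ h => adj4_swp h) le_rfl h2 h3
  obtain ⟨z, -, hz1, hz3⟩ := hPL1 _ _ a' b c d hX1 hY
  obtain ⟨z', -, hz2, hz3'⟩ := hPL1 _ _ a' b c d hX2 hY
  have m1 : W ∩ Box a b c d ⊆ W ∩ Box a b' c d :=
    Set.inter_subset_inter_right _ (Box_mono le_rfl h3 le_rfl le_rfl)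
  have m2 : W ∩ Box a' b' c d ⊆ W ∩ Box a b' c d :=
    Set.inter_subset_inter_right _ (Box_mono h1 le_rfl le_rfl le_rfl)
  have m3 : W ∩ Box a' b c d ⊆ W ∩ Box a b' c d :=
    Set.inter_subset_inter_right _ (Box_mono h1 h3 le_rfl le_rfl)
  have p1 : Linked Adj4 (W ∩ Box a b' c d) (a, y1) z := (mem_cl.1 hz1).mono m1
  have p2 : Linked Adj4 (W ∩ Box a b' c d) (x3, c) z := (mem_cl.1 hz3).mono m3
  have p3 : Linked Adj4 (W ∩ Box a b' c d) (x3, c) z' := (mem_cl.1 hz3').mono m3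
  have p4 : Linked Adj4 (W ∩ Box a b' c d) (a', y2) z' := (mem_cl.1 hz2).mono m2
  have p5 : Linked Adj4 (W ∩ Box a b' c d) (a', y2) (b', y2') := k2.mono m2
  exact ⟨y1, y2', (((p1.trans p2.symm4).trans p3).trans p4.symm4).trans p5⟩

end Pool.Det5
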