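import Pool.Agent.Work.MP_dd5692_pr.InterfaceA

/-! Block HALF (helper94): a path below a half circuit that reaches height `2a` meets it. -/

set_option autoImplicit false

namespace Pool.Det5

open MeasureTheory MPdd5692
open scoped ENNReal

theorem stmt_HALF (hPL1 : Stmt_PL1) : Stmt_HALF := by
  intro x a R lo hi W u v ha hR hlo hhi hHalf hu1 hu1' hu2 hv hL
  obtain ⟨⟨l, l', hl⟩, ⟨p, p', hp⟩, ⟨y, y', hy⟩⟩ := hHalf
  set T : Set Site := W ∩ Box lo hi 0 R with hT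
  -- clusters of the three crossings
  set CL : Set Site := cl Adj4 (W ∩ Box (x - 2 * a) (x - a) 0 (2 * a)) (l, 0) with hCL
  set CR : Set Site := cl Adj4 (W ∩ Box (x + a) (x + 2 * a) 0 (2 * a)) (p, 0) with hCR
  set CH : Set Site := cl Adj4 (W ∩ Box (x - 2 * a) (x + 2 * a) a (2 * a)) (x - 2 * a, y) with hCH
  have bL : ∀ z ∈ CL, x - 2 * a ≤ z.1 ∧ z.1 ≤ x - a ∧ 0 ≤ z.2 ∧ z.2 ≤ 2 * a :=
    fun z hz => (cl_subset hz).2
  have bR : ∀ z ∈ CR, x + a ≤ z.1 ∧ z.1 ≤ x + 2 * a ∧ 0 ≤ z.2 ∧ z.2 ≤ 2 * a :=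
    fun z hz => (cl_subset hz).2
  have bH : ∀ z ∈ CH, x - 2 * a ≤ z.1 ∧ z.1 ≤ x + 2 * a ∧ a ≤ z.2 ∧ z.2 ≤ 2 * a :=
    fun z hz => (cl_subset hz).2
  have sL : W ∩ Box (x - 2 * a) (x - a) 0 (2 * a) ⊆ T :=
    Set.inter_subset_inter_right _ (Box_mono (by omega) (by omega) le_rfl hR)
  have sR : W ∩ Box (x + a) (x + 2 * a) 0 (2 * a) ⊆ T :=
    Set.inter_subset_inter_right _ (Box_mono (by omega) (by omega) le_rfl hR)
  have sH : W ∩ Box (x - 2 * a) (x + 2 * a) a (2 * a) ⊆ T :=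
    Set.inter_subset_inter_right _ (Box_mono (by omega) (by omega) ha hR)
  have hL8 : ∀ z w, Adj4 z w → Adj8 z w := fun _ _ h => h.adj8
  have hLs : ∀ z w, Adj4 z w → Adj4 (swp z) (swp w) := fun _ _ h => adj4_swp h
  -- the top crossing meets both legs
  have mRH : ∃ z, z ∈ CH ∧ z ∈ CR := by
    have h1 : HC Adj4 CH (x + a) (x + 2 * a) a (2 * a) :=
      subH hL8 hLs hy.in_cl (fun z hz => ⟨(bH z hz).2.2.1, (bH z hz).2.2.2⟩)
        (by show x - 2 * a ≤ x + a; omega) (by omega) (le_refl (x + 2 * a))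
    have h2 : VC Adj4 CR (x + a) (x + 2 * a) a (2 * a) :=
      subV hL8 hp.in_cl (fun z hz => ⟨(bR z hz).1, (bR z hz).2.1⟩)
        (show (0:ℤ) ≤ a from ha) (by omega) (le_refl (2 * a))
    obtain ⟨z, -, hz1, hz2⟩ := hPL1 _ _ _ _ _ _ h1.to8 h2
    exact ⟨z, hz1, hz2⟩
  have mLH : ∃ z, z ∈ CH ∧ z ∈ CL := by
    have h1 : HC Adj4 CH (x - 2 * a) (x - a) a (2 * a) :=
      subH hL8 hLs hy.in_cl (fun z hz => ⟨(bH z hz).2.2.1, (bH z hz).2.2.2⟩)
        (le_refl (x - 2 * a)) (by omega) (by show x - a ≤ x + 2 * a; omega)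
    have h2 : VC Adj4 CL (x - 2 * a) (x - a) a (2 * a) :=
      subV hL8 hl.in_cl (fun z hz => ⟨(bL z hz).1, (bL z hz).2.1⟩)
        (show (0:ℤ) ≤ a from ha) (by omega) (le_refl (2 * a))
    obtain ⟨z, -, hz1, hz2⟩ := hPL1 _ _ _ _ _ _ h1.to8 h2
    exact ⟨z, hz1, hz2⟩
  -- everything is linked to `(p, 0)` in `T`
  have kR : ∀ z ∈ CR, Linked Adj4 T (p, 0) z := fun z hz => Linked.mono sR hz
  have kH : ∀ z ∈ CH, Linked Adj4 T (p, 0) z := by
    intro z hz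
    obtain ⟨z0, h1, h2⟩ := mRH
    have h3 : Linked Adj4 T (x - 2 * a, y) z0 := Linked.mono sH h1
    have h4 : Linked Adj4 T (x - 2 * a, y) z := Linked.mono sH hz
    exact ((kR z0 h2).trans h3.symm4).trans h4
  have kL : ∀ z ∈ CL, Linked Adj4 T (p, 0) z := by
    intro z hz
    obtain ⟨z0, h1, h2⟩ := mLH
    have h3 : Linked Adj4 T (l, 0) z0 := Linked.mono sL h2
    have h4 : Linked Adj4 T (l, 0) z := Linked.mono sL hz
    exact ((kH z0 h1).trans h3.symm4).trans h4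
  have hp0 := bR (p, 0) (Linked.refl hp.1)
  refine ⟨p, hp0.1, hp0.2.1, ?_⟩
  -- it is enough to find a common site
  suffices hz : ∃ z, Linked Adj4 T u z ∧ Linked Adj4 T (p, 0) z by
    obtain ⟨z, h1, h2⟩ := hz
    exact (h2.trans h1.symm4).trans hL
  set B0 : Set Site := Box (x - 2 * a) (x + 2 * a) 0 (2 * a) with hB0
  have huB : u ∈ B0 := by
    rw [hB0, mem_Box]
    omega
  set Cu : Set Site := cl Adj4 (T ∩ B0) u with hCu
  have bu : ∀ z ∈ Cu, x - 2 * a ≤ z.1 ∧ z.1 ≤ x + 2 * a ∧ 0 ≤ z.2 ∧ z.2 ≤ 2 * a :=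
    fun z hz => (cl_subset hz).2
  have ku : ∀ z ∈ Cu, Linked Adj4 T u z := fun z hz => Linked.mono Set.inter_subset_left hz
  -- a site at height `2a`
  have top : ∀ w : Site, Linked Adj4 (T ∩ B0) u w → 2 * a ≤ w.2 →
      ∃ z, Linked Adj4 T u z ∧ Linked Adj4 T (p, 0) z := by
    intro w hw hw2
    have h1 : HC Adj4 CH (x - 2 * a) (x + 2 * a) a (2 * a) :=
      subH hL8 hLs hy.in_cl (fun z hz => ⟨(bH z hz).2.2.1, (bH z hz).2.2.2⟩)
        (le_refl (x - 2 * a)) (by omega) (le_refl (x + 2 * a))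
    have h2 : VC Adj4 Cu (x - 2 * a) (x + 2 * a) a (2 * a) :=
      subV hL8 hw.in_cl (fun z hz => ⟨(bu z hz).1, (bu z hz).2.1⟩)
        (by omega) (by omega) hw2
    obtain ⟨z, -, hz1, hz2⟩ := hPL1 _ _ _ _ _ _ h1.to8 h2
    exact ⟨z, ku z hz2, kH z hz1⟩
  rcases hL.stay_or_exit (C := B0) huB with h | ⟨x1, y1, h1, h2, h3, h4, -⟩
  · exact top v h hv
  · have hx1 := h1.right.2
    have hy1 := h3.2
    rw [hB0, mem_Box] at hx1
    rw [mem_Box] at hy1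
    rw [hB0, mem_Box] at h4
    have h8 := h2.adj8
    have e1 := abs_le.1 h8.fst
    have e2 := abs_le.1 h8.snd
    by_cases c1 : 2 * a < y1.2
    · exact top x1 h1 (by omega)
    · by_cases c2 : y1.1 < x - 2 * a
      · -- exit to the left
        have g1 : HC Adj4 Cu (x - 2 * a) (x - a) 0 (2 * a) :=
          subH hL8 hLs h1.in_cl.symm4 (fun z hz => ⟨(bu z hz).2.2.1, (bu z hz).2.2.2⟩)
            (by omega) (by omega) hu1
        have g2 : VC Adj4 CL (x - 2 * a) (x - a) 0 (2 * a) :=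
          subV hL8 hl.in_cl (fun z hz => ⟨(bL z hz).1, (bL z hz).2.1⟩)
            (le_refl (0:ℤ)) (by omega) (le_refl (2 * a))
        obtain ⟨z, -, hz1, hz2⟩ := hPL1 _ _ _ _ _ _ g1.to8 g2
        exact ⟨z, ku z hz1, kL z hz2⟩
      · -- exit to the right
        have c3 : x + 2 * a < y1.1 := by
          by_contra hc
          exact h4 ⟨by omega, by omega, by omega, by omega⟩
        have g1 : HC Adj4 Cu (x + a) (x + 2 * a) 0 (2 * a) :=
          subH hL8 hLs h1.in_cl (fun z hz => ⟨(bu z hz).2.2.1, (bu z hz).2.2.2⟩)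
            hu1' (by omega) (by omega)
        have g2 : VC Adj4 CR (x + a) (x + 2 * a) 0 (2 * a) :=
          subV hL8 hp.in_cl (fun z hz => ⟨(bR z hz).1, (bR z hz).2.1⟩)
            (le_refl (0:ℤ)) (by omega) (le_refl (2 * a))
        obtain ⟨z, -, hz1, hz2⟩ := hPL1 _ _ _ _ _ _ g1.to8 g2
        exact ⟨z, ku z hz1, kR z hz2⟩

end Pool.Det5
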