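import Pool.Agent.Work.MP_dd5692_pr.InterfaceA

/-!
# MP_dd5692_pr, part (A): block SHIFT (helper80)
-/

set_option autoImplicit false

namespace Pool.Det5

open MeasureTheory MPdd5692

theorem stmt_SHIFT (hSH1 : Stmt_SH1) (hSH2 : Stmt_SH2) : Stmt_SHIFT := by
  rintro W w h m H x0 hx0 hm hh hH ⟨x, x1, y, h1, h2⟩ ⟨x', x2, y', h1', h2'⟩
  set A := cl Adj4 (W ∩ Box 0 m 0 H) (x, 0) with hA
  set B := cl Adj4 (W ∩ Box (x0 + w - m) (x0 + w) 0 H) (x', 0) with hB
  by_cases hAB : Disjoint A B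
  · right
    have hlt : x' < x := hSH1 A B w m H x0 x x' y y' hx0 hm hAB
      (fun z hz => (cl_subset hz).2) (fun z hz => (cl_subset hz).2) h2.in_cl h2'.in_cl
    set A' := cl Adj4 (W ∩ Box 0 w 0 h) (x, 0) with hA'
    set B' := cl Adj4 (W ∩ Box x0 (x0 + w) 0 h) (x', 0) with hB'
    have hA1 : A' ⊆ A := fun z hz => Linked.mono
      (Set.inter_subset_inter_right _ (Box_mono le_rfl (by omega) le_rfl hH)) hz
    have hB1 : B' ⊆ B := fun z hz => Linked.mono
      (Set.inter_subset_inter_right _ (Box_mono (by omega) le_rfl le_rfl hH)) hz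
    have := hSH2 A' B' w h x0 x x1 x' x2 hx0 hh (hAB.mono hA1 hB1)
      (fun z hz => (cl_subset hz).2) (fun z hz => (cl_subset hz).2) hlt h1.in_cl h1'.in_cl
    exact this.mono (fun z hz => (cl_subset hz).1)
  · left
    rw [Set.not_disjoint_iff] at hAB
    obtain ⟨z, hzA, hzB⟩ := hAB
    have hxw : 0 ≤ x := h1.left.2.1
    have hw : 0 ≤ w := le_trans h1.left.2.1 h1.left.2.2.1
    have e1 : W ∩ Box 0 m 0 H ⊆ W ∩ Box (x0 + w - m) m 0 H :=
      Set.inter_subset_inter_right _ (Box_mono (by omega) le_rfl le_rfl le_rfl)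
    have e2 : W ∩ Box (x0 + w - m) (x0 + w) 0 H ⊆ W ∩ Box (x0 + w - m) m 0 H :=
      Set.inter_subset_inter_right _ (Box_mono le_rfl (by omega) le_rfl le_rfl)
    refine ⟨y', y, ?_⟩
    have l1 := (h2'.mono e2).symm4
    have l2 : Linked Adj4 (W ∩ Box (x0 + w - m) m 0 H) (x', 0) z := Linked.mono e2 hzB
    have l3 : Linked Adj4 (W ∩ Box (x0 + w - m) m 0 H) (x, 0) z := Linked.mono e1 hzA
    exact ((l1.trans l2).trans l3.symm4).trans (h2.mono e1)

end Pool.Det5
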