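import Pool.Agent.Work.MP_dd5692_pr.InterfaceA

/-!
# MP_dd5692_pr, part (A), block VHAR (helper45)
-/

set_option autoImplicit false

open MeasureTheory MPdd5692

namespace Pool.Det5

namespace VHAR_

theorem locF_not {P : Set Site → Prop} (h : LocF P) : LocF (fun W => ¬ P W) := by
  obtain ⟨B, hB, hL⟩ := h
  exact ⟨B, hB, fun W W' hW => not_congr (hL W W' hW)⟩

theorem mono_not {P : Set Site → Prop} (h : Anti P) : Mono (fun W => ¬ P W) :=
  fun W W' hW hP hP' => hP (h W W' hW hP')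

/-- Harris for two increasing properties -/
theorem base (hHAR : Stmt_HAR) (hVLOC : Stmt_VLOC) (S : Shape) (q : unitInterval)
    (P Q : Set Site → Prop) (hP : LocF P) (hQ : LocF Q) (mP : Mono P) (mQ : Mono Q) :
    pr S q P * pr S q Q ≤ pr S q (fun W => P W ∧ Q W) := by
  obtain ⟨B, hB, hBL⟩ := hP
  obtain ⟨B', hB', hBL'⟩ := hQ
  obtain ⟨h1, h2, h3, -⟩ := hVLOC S P
  obtain ⟨h1', h2', h3', -⟩ := hVLOC S Q
  have hD : Dep ({y | ∃ z ∈ B, ∃ k ∈ S.K, y = z + k} ∪ {y | ∃ z ∈ B', ∃ k ∈ S.K, y = z + k})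
      {ω | P (vac S ω)} := fun ω ω' hω => h1 B hBL ω ω' (fun z hz => hω z (Or.inl hz))
  have hD' : Dep ({y | ∃ z ∈ B, ∃ k ∈ S.K, y = z + k} ∪ {y | ∃ z ∈ B', ∃ k ∈ S.K, y = z + k})
      {ω | Q (vac S ω)} := fun ω ω' hω => h1' B' hBL' ω ω' (fun z hz => hω z (Or.inr hz))
  exact hHAR q _ _ _ ((h2 B hB).union (h2' B' hB')) hD hD' (h3 mP) (h3' mQ)

theorem pr_not (hVLOC : Stmt_VLOC) (S : Shape) (q : unitInterval) (P : Set Site → Prop)
    (hP : LocF P) : pr S q (fun W => ¬ P W) = 1 - pr S q P := by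
  have hm := (hVLOC S P).2.2.2 hP
  unfold pr
  rw [← probReal_compl_eq_one_sub hm]
  rfl

theorem pr_split (hVLOC : Stmt_VLOC) (S : Shape) (q : unitInterval) (P Q : Set Site → Prop)
    (hQ : LocF Q) :
    pr S q (fun W => P W ∧ Q W) + pr S q (fun W => P W ∧ ¬ Q W) = pr S q P := by
  have hm := (hVLOC S Q).2.2.2 hQ
  unfold pr
  exact measureReal_inter_add_sdiff (s := {ω | P (vac S ω)}) hm

end VHAR_

theorem stmt_VHAR (hHAR : Stmt_HAR) (hVLOC : Stmt_VLOC) : Stmt_VHAR := by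
  intro S q P Q hP hQ
  refine ⟨fun mP mQ => VHAR_.base hHAR hVLOC S q P Q hP hQ mP mQ, ?_, ?_⟩
  · intro aP aQ
    have h1 := VHAR_.base hHAR hVLOC S q _ _ (VHAR_.locF_not hP) (VHAR_.locF_not hQ)
      (VHAR_.mono_not aP) (VHAR_.mono_not aQ)
    rw [VHAR_.pr_not hVLOC S q P hP, VHAR_.pr_not hVLOC S q Q hQ] at h1
    have h2 := VHAR_.pr_split hVLOC S q P Q hQ
    have h3 := VHAR_.pr_split hVLOC S q (fun W => ¬ Q W) P hP
    rw [VHAR_.pr_not hVLOC S q Q hQ] at h3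
    have h4 : pr S q (fun W => ¬ P W ∧ ¬ Q W) = pr S q (fun W => ¬ Q W ∧ ¬ P W) := by
      congr 1
      funext W
      exact propext and_comm
    have h5 : pr S q (fun W => P W ∧ ¬ Q W) = pr S q (fun W => ¬ Q W ∧ P W) := by
      congr 1
      funext W
      exact propext and_comm
    have h1' : (1 - pr S q P) * (1 - pr S q Q) ≤ pr S q (fun W => ¬ P W ∧ ¬ Q W) := h1
    nlinarith
  · intro mP aQ
    have h1 := VHAR_.base hHAR hVLOC S q _ _ hP (VHAR_.locF_not hQ) mP (VHAR_.mono_not aQ)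
    rw [VHAR_.pr_not hVLOC S q Q hQ] at h1
    have h2 := VHAR_.pr_split hVLOC S q P Q hQ
    have h1' : pr S q P * (1 - pr S q Q) ≤ pr S q (fun W => P W ∧ ¬ Q W) := h1
    nlinarith

end Pool.Det5
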